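import Pool.Agent.Lib.MP_ce3b04_lc.Win

/-!
# Binary arithmetic by finite automata
-/

namespace Pool.Agent.Lib.MP_ce3b04_lc

/-- The value of a list of bits, least significant bit first. -/
def val : List Bool → ℕ
  | [] => 0
  | b :: l => b.toNat + 2 * val l

theorem val_lt (l : List Bool) : val l < 2 ^ l.length := by
  induction l with
  | nil => simp [val]
  | cons b l ih =>
    simp only [val, List.length_cons, pow_succ]
    cases b <;> simp <;> omega

theorem val_replicate_true (n : ℕ) : val (List.replicate n true) + 1 = 2 ^ n := by
  induction n with
  | zero => simp [val]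
  | succ n ih =>
    simp only [List.replicate_succ, val, Bool.toNat_true, pow_succ]
    omega

theorem val_replicate_false (n : ℕ) : val (List.replicate n false) = 0 := by
  induction n with
  | zero => simp [val]
  | succ n ih =>
    simp only [List.replicate_succ, val, Bool.toNat_false]
    omega

/-- All bits are zero. -/
def zeros (l : List Bool) : Bool := l.all fun b => !b

theorem zeros_iff {l : List Bool} : zeros l = true ↔ val l = 0 := by
  induction l with
  | nil => simp [zeros, val]
  | cons b l ih =>
    simp only [zeros, List.all_cons, Bool.and_eq_true, val] at ih ⊢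
    rw [ih]
    cases b <;> simp

/-- Subtraction of the borrow `b`. -/
def decL : Bool → List Bool → List Bool
  | _, [] => []
  | b, o :: l => (o ^^ b) :: decL (b && !o) l

/-- The final borrow. -/
def decO : Bool → List Bool → Bool
  | b, [] => b
  | b, o :: l => decO (b && !o) l

/-- Addition of the carry `b`. -/
def incL : Bool → List Bool → List Bool
  | _, [] => []
  | b, o :: l => (o ^^ b) :: incL (b && o) l

/-- The final carry. -/
def incO : Bool → List Bool → Bool
  | b, [] => b
  | b, o :: l => incO (b && o) l

@[simp] theorem length_decL (b : Bool) (l : List Bool) : (decL b l).length = l.length := by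
  induction l generalizing b with
  | nil => rfl
  | cons o l ih => simp [decL, ih]

@[simp] theorem length_incL (b : Bool) (l : List Bool) : (incL b l).length = l.length := by
  induction l generalizing b with
  | nil => rfl
  | cons o l ih => simp [incL, ih]

theorem val_dec (b : Bool) (l : List Bool) :
    val (decL b l) + b.toNat = val l + 2 ^ l.length * (decO b l).toNat := by
  induction l generalizing b with
  | nil => simp [decL, decO, val]
  | cons o l ih =>
    have := ih (b && !o)
    simp only [decL, decO, val, List.length_cons, pow_succ]
    generalize decO (b && !o) l = r at this ⊢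
    cases b <;> cases o <;> cases r <;> simp at this ⊢ <;> omega

theorem val_inc (b : Bool) (l : List Bool) :
    val (incL b l) + 2 ^ l.length * (incO b l).toNat = val l + b.toNat := by
  induction l generalizing b with
  | nil => simp [incL, incO, val]
  | cons o l ih =>
    have := ih (b && o)
    simp only [incL, incO, val, List.length_cons, pow_succ]
    generalize incO (b && o) l = r at this ⊢
    cases b <;> cases o <;> cases r <;> simp at this ⊢ <;> omega

theorem decL_false (l : List Bool) : decL false l = l := by
  induction l with
  | nil => rfl
  | cons o l ih => simp [decL, ih]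

theorem decO_false (l : List Bool) : decO false l = false := by
  induction l with
  | nil => rfl
  | cons o l ih => simp [decO, ih]

theorem decO_true {l : List Bool} (h : 1 ≤ val l) : decO true l = false := by
  have h1 := val_dec true l
  have h2 := val_lt (decL true l)
  rw [length_decL] at h2
  cases hd : decO true l with
  | false => rfl
  | true =>
    rw [hd] at h1
    simp at h1
    omega

theorem incO_true {l : List Bool} (h : val l + 1 < 2 ^ l.length) : incO true l = false := by
  have h1 := val_inc true l
  cases hd : incO true l with
  | false => rfl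
  | true =>
    rw [hd] at h1
    simp at h1
    omega

/-! ### Automata -/

section automata

variable {F : Type}

/-- Decrement automaton. The state is the borrow and whether all new bits are zero. -/
def ψT (o n : F → Bool) (s : Bool × Bool) (x : F) : Option (Bool × Bool) :=
  if n x = (o x ^^ s.1) then some (s.1 && !(o x), s.2 && !(n x)) else none

theorem run_ψT (o n : F → Bool) (xs : List F) (s r : Bool × Bool) :
    runO (ψT o n) s xs = some r ↔ xs.map n = decL s.1 (xs.map o) ∧
      r = (decO s.1 (xs.map o), s.2 && zeros (xs.map n)) := by
  induction xs generalizing s with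
  | nil => simp [runO, decL, decO, zeros, eq_comm]
  | cons x xs ih =>
    simp only [runO, ψT, List.map_cons, decL, decO, zeros, List.all_cons]
    split_ifs with h
    · rw [Option.bind_some, ih]
      simp only [zeros]
      constructor
      · rintro ⟨h1, h2⟩
        refine ⟨by rw [h, h1], by rw [h2, Bool.and_assoc]⟩
      · rintro ⟨h1, h2⟩
        exact ⟨(List.cons.inj h1).2, by rw [h2, Bool.and_assoc]⟩
    · simp only [Option.bind_none, reduceCtorEq, false_iff]
      rintro ⟨h1, _⟩
      exact h (List.cons.inj h1).1

/-- The operations on the second number. -/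
inductive Op : Type
  | reset : Op
  | inc : Op
  | dec : Op
  deriving DecidableEq

instance : Fintype Op := ⟨{.reset, .inc, .dec}, by intro x; cases x <;> simp⟩

/-- The new number. -/
def opL : Op → Bool → List Bool → List Bool
  | .reset, _, l => List.replicate l.length false
  | .inc, b, l => incL b l
  | .dec, b, l => decL b l

/-- The final carry or borrow. -/
def opO : Op → Bool → List Bool → Bool
  | .reset, b, _ => b
  | .inc, b, l => incO b l
  | .dec, b, l => decO b l

@[simp] theorem length_opL (p : Op) (b : Bool) (l : List Bool) :
    (opL p b l).length = l.length := by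
  cases p <;> simp [opL]

/-- The bit of the new number. -/
def opN : Op → Bool → Bool → Bool
  | .reset, _, _ => false
  | .inc, b, o => o ^^ b
  | .dec, b, o => o ^^ b

/-- The next carry. -/
def opC : Op → Bool → Bool → Bool
  | .reset, b, _ => b
  | .inc, b, o => b && o
  | .dec, b, o => b && !o

/-- The automaton for the second number. -/
def ψI (o n : F → Bool) (s : Op × Bool × Bool) (x : F) : Option (Op × Bool × Bool) :=
  if n x = opN s.1 s.2.1 (o x) then some (s.1, opC s.1 s.2.1 (o x), s.2.2 && !(n x)) else none

theorem opL_cons (p : Op) (b o : Bool) (l : List Bool) :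
    opL p b (o :: l) = opN p b o :: opL p (opC p b o) l := by
  cases p
  · simp [opL, opN, List.replicate_succ]
  · rfl
  · rfl

theorem opO_cons (p : Op) (b o : Bool) (l : List Bool) :
    opO p b (o :: l) = opO p (opC p b o) l := by
  cases p <;> rfl

theorem run_ψI (o n : F → Bool) (xs : List F) (s r : Op × Bool × Bool) :
    runO (ψI o n) s xs = some r ↔ xs.map n = opL s.1 s.2.1 (xs.map o) ∧
      r = (s.1, opO s.1 s.2.1 (xs.map o), s.2.2 && zeros (xs.map n)) := by
  induction xs generalizing s with
  | nil =>
    obtain ⟨p, b, z⟩ := s
    cases p <;> simp [runO, opL, opO, zeros, eq_comm, decL, incL, decO, incO]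
  | cons x xs ih =>
    simp only [runO, ψI, List.map_cons, opL_cons, opO_cons, zeros, List.all_cons]
    split_ifs with h
    · rw [Option.bind_some, ih]
      simp only [zeros]
      constructor
      · rintro ⟨h1, h2⟩
        refine ⟨by rw [h, h1], by rw [h2, Bool.and_assoc]⟩
      · rintro ⟨h1, h2⟩
        exact ⟨(List.cons.inj h1).2, by rw [h2, Bool.and_assoc]⟩
    · simp only [Option.bind_none, reduceCtorEq, false_iff]
      rintro ⟨h1, _⟩
      exact h (List.cons.inj h1).1

variable {Y : Type}

open Classical in
/-- The automaton for the symbols: they stay the same, or are shifted to the left by one cell.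
The state is the mode (`true` for shifting), the new symbol of the first cell, and the new symbol
of the last cell. -/
noncomputable def ψY (o n : F → Y) (s : Bool × Option Y × Option Y) (x : F) :
    Option (Bool × Option Y × Option Y) :=
  if s.1 = true then
    if s.2.2 = none ∨ s.2.2 = some (o x) then some (true, s.2.1.or (some (n x)), some (n x))
    else none
  else if n x = o x then some (false, s.2.1.or (some (n x)), s.2.2) else none

theorem or_or_head {Y : Type} (s0 : Option Y) (y : Y) (l : List Y) :
    (s0.or (some y)).or l.head? = s0.or (some y) := by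
  cases s0 <;> rfl

theorem run_ψY_false (o n : F → Y) (xs : List F) (s0 pd : Option Y)
    (r : Bool × Option Y × Option Y) :
    runO (ψY o n) (false, s0, pd) xs = some r ↔ xs.map n = xs.map o ∧
      r = (false, s0.or (xs.map n).head?, pd) := by
  induction xs generalizing s0 with
  | nil => simp [runO, eq_comm]
  | cons x xs ih =>
    simp only [runO, ψY, List.map_cons, Bool.false_eq_true, if_false]
    by_cases h : n x = o x
    · rw [if_pos h, Option.bind_some, ih, or_or_head]
      simp [h]
    · rw [if_neg h]
      simp only [Option.bind_none, reduceCtorEq, false_iff]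
      rintro ⟨h1, _⟩
      exact h (List.cons.inj h1).1

theorem run_ψY_some (o n : F → Y) (xs : List F) (s0 : Option Y) (p : Y)
    (r : Bool × Option Y × Option Y) :
    runO (ψY o n) (true, s0, some p) xs = some r ↔ ∃ l, p :: xs.map n = xs.map o ++ [l] ∧
      r = (true, s0.or (xs.map n).head?, some l) := by
  induction xs generalizing s0 p with
  | nil =>
    simp only [runO, List.map_nil, List.nil_append, List.cons.injEq, and_true, List.head?_nil,
      Option.or_none, Option.some.injEq]
    constructor
    · rintro rfl; exact ⟨p, rfl, rfl⟩
    · rintro ⟨l, rfl, rfl⟩; rfl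
  | cons x xs ih =>
    have hc : (some p = none ∨ some p = some (o x)) ↔ p = o x := by simp
    simp only [runO, ψY, List.map_cons, if_true]
    by_cases h : p = o x
    · rw [if_pos (hc.2 h), Option.bind_some, ih]
      constructor
      · rintro ⟨l, h1, h2⟩
        refine ⟨l, by rw [h, h1]; rfl, by rw [h2, or_or_head]; rfl⟩
      · rintro ⟨l, h1, h2⟩
        refine ⟨l, ?_, by rw [h2]; simp only [List.head?_cons]; rw [or_or_head]⟩
        exact (List.cons.inj h1).2
    · rw [if_neg (fun h' => h (hc.1 h'))]
      simp only [Option.bind_none, reduceCtorEq, false_iff]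
      rintro ⟨l, h1, _⟩
      exact h (List.cons.inj h1).1

theorem run_ψY_true (o n : F → Y) {xs : List F} (hne : xs ≠ [])
    (r : Bool × Option Y × Option Y) :
    runO (ψY o n) (true, none, none) xs = some r ↔ ∃ l, xs.map n = (xs.map o).tail ++ [l] ∧
      r = (true, (xs.map n).head?, some l) := by
  cases xs with
  | nil => exact absurd rfl hne
  | cons x xs =>
    simp only [runO, ψY, List.map_cons, if_true, true_or, Option.bind_some, List.tail_cons]
    have e : (none : Option Y).or (some (n x)) = some (n x) := rfl
    rw [e, run_ψY_some]
    rfl

/-- The product of the automata, together with a constant and the last guess. -/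
noncomputable def ψP {Cl H : Type} (ot nt oi ni : F → Bool) (oy ny : F → Y) (hh : F → H)
    (s : Cl × (Bool × Bool) × (Op × Bool × Bool) × (Bool × Option Y × Option Y) × Option H)
    (x : F) :
    Option (Cl × (Bool × Bool) × (Op × Bool × Bool) × (Bool × Option Y × Option Y) × Option H) :=
  (ψT ot nt s.2.1 x).bind fun t => (ψI oi ni s.2.2.1 x).bind fun i =>
    (ψY oy ny s.2.2.2.1 x).bind fun y => some (s.1, t, i, y, some (hh x))

/-- The last guess. -/
def lastH {H : Type} (hh : F → H) : Option H → List F → Option H
  | h, [] => h
  | _, x :: xs => lastH hh (some (hh x)) xs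

theorem run_ψP {Cl H : Type} (ot nt oi ni : F → Bool) (oy ny : F → Y) (hh : F → H)
    (xs : List F)
    (s r : Cl × (Bool × Bool) × (Op × Bool × Bool) × (Bool × Option Y × Option Y) × Option H) :
    runO (ψP ot nt oi ni oy ny hh) s xs = some r ↔
      r.1 = s.1 ∧ runO (ψT ot nt) s.2.1 xs = some r.2.1 ∧
      runO (ψI oi ni) s.2.2.1 xs = some r.2.2.1 ∧
      runO (ψY oy ny) s.2.2.2.1 xs = some r.2.2.2.1 ∧
      r.2.2.2.2 = lastH hh s.2.2.2.2 xs := by
  induction xs generalizing s with
  | nil =>
    obtain ⟨a, b, c, d, e⟩ := s
    obtain ⟨a', b', c', d', e'⟩ := r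
    simp only [runO, Option.some.injEq, Prod.mk.injEq, lastH]
    constructor
    · rintro ⟨rfl, rfl, rfl, rfl, rfl⟩; exact ⟨rfl, rfl, rfl, rfl, rfl⟩
    · rintro ⟨rfl, rfl, rfl, rfl, rfl⟩; exact ⟨rfl, rfl, rfl, rfl, rfl⟩
  | cons x xs ih =>
    simp only [runO, ψP, lastH]
    cases ψT ot nt s.2.1 x with
    | none => simp
    | some t =>
      cases ψI oi ni s.2.2.1 x with
      | none => simp
      | some i =>
        cases ψY oy ny s.2.2.2.1 x with
        | none => simp
        | some y =>
          simp only [Option.bind_some]
          exact ih _

end automata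

end Pool.Agent.Lib.MP_ce3b04_lc
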