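import Pool.Agent.Lib.MP_ce3b04_lc.Raw

/-!
# A term rewriting system is determined by its code
-/

open Relation

namespace Pool.Agent.Lib.MP_ce3b04_lc

namespace Rules

/-- Strong sequentiality implies strong sequentiality on ground terms. -/
theorem StronglySequential.ground {R : Rules} (h : R.StronglySequential) :
    R.StronglySequentialG := by
  intro t h1 h2 _ h4
  obtain ⟨C, Δ, h5, h6, h7⟩ := h t h1 h2 h4
  refine ⟨C, Δ, h5, h6, ?_⟩
  intro s hs
  refine h7 s ?_
  clear h7
  induction hs with
  | refl => exact .refl
  | tail _ h ih => exact ih.tail h.1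

end Rules

theorem codeNat_inj {n n' : ℕ} {s s' : List Tok} (h : codeNat n ++ s = codeNat n' ++ s') :
    n = n' ∧ s = s' := by
  induction n generalizing n' with
  | zero =>
    cases n' with
    | zero => simpa [codeNat] using h
    | succ n' => simp [codeNat, List.replicate_succ] at h
  | succ n ih =>
    cases n' with
    | zero => simp [codeNat, List.replicate_succ] at h
    | succ n' =>
      have h1 : codeNat n ++ s = codeNat n' ++ s' := by
        simpa [codeNat, List.replicate_succ] using h
      obtain ⟨h2, h3⟩ := ih h1
      exact ⟨by rw [h2], h3⟩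

theorem Tm.code_ne_c (t : Tm) (s s' : List Tok) : t.code ++ s ≠ .c :: s' := by
  intro h
  cases t with
  | var n => simp [Tm.code] at h
  | bul => simp [Tm.code] at h
  | app f k a => simp [Tm.code] at h

theorem Tm.code_list_inj {P : Tm → Prop}
    (hP : ∀ t, P t → ∀ t' s s', t.code ++ s = t'.code ++ s' → t = t' ∧ s = s')
    (l l' : List Tm) (s s' : List Tok) (hl : ∀ t ∈ l, P t)
    (h : (l.map Tm.code).flatten ++ .c :: s = (l'.map Tm.code).flatten ++ .c :: s') :
    l = l' ∧ s = s' := by
  induction l generalizing l' with
  | nil =>
    cases l' with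
    | nil => simpa using h
    | cons t' l' =>
      simp only [List.map_nil, List.flatten_nil, List.nil_append, List.map_cons,
        List.flatten_cons, List.append_assoc] at h
      exact absurd h.symm (Tm.code_ne_c _ _ _)
  | cons t l ih =>
    cases l' with
    | nil =>
      simp only [List.map_nil, List.flatten_nil, List.nil_append, List.map_cons,
        List.flatten_cons, List.append_assoc] at h
      exact absurd h (Tm.code_ne_c _ _ _)
    | cons t' l' =>
      simp only [List.map_cons, List.flatten_cons, List.append_assoc] at h
      obtain ⟨h1, h2⟩ := hP t (hl t (by simp)) _ _ _ h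
      obtain ⟨h3, h4⟩ := ih l' (fun t ht => hl t (by simp [ht])) h2
      exact ⟨by rw [h1, h3], h4⟩

theorem Tm.code_inj (t : Tm) : ∀ t' s s', t.code ++ s = t'.code ++ s' → t = t' ∧ s = s' := by
  induction t with
  | var n =>
    intro t' s s' h
    cases t' with
    | var n' =>
      simp only [Tm.code, List.cons_append, List.cons.injEq, true_and] at h
      obtain ⟨h1, h2⟩ := codeNat_inj h
      exact ⟨by rw [h1], h2⟩
    | bul => simp [Tm.code] at h
    | app f k a => simp [Tm.code] at h
  | bul =>
    intro t' s s' h
    cases t' with
    | var n' => simp [Tm.code] at h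
    | bul => exact ⟨rfl, by simpa [Tm.code] using h⟩
    | app f k a => simp [Tm.code] at h
  | app f k a ih =>
    intro t' s s' h
    cases t' with
    | var n' => simp [Tm.code] at h
    | bul => simp [Tm.code] at h
    | app f' k' a' =>
      simp only [Tm.code, List.cons_append, List.cons.injEq, true_and, List.append_assoc] at h
      obtain ⟨h1, h2⟩ := codeNat_inj h
      have e1 : List.ofFn (fun j => (a j).code) = (List.ofFn a).map Tm.code := by
        rw [List.map_ofFn]; rfl
      have e2 : List.ofFn (fun j => (a' j).code) = (List.ofFn a').map Tm.code := by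
        rw [List.map_ofFn]; rfl
      rw [e1, e2] at h2
      simp only [List.nil_append] at h2
      obtain ⟨h3, h4⟩ := Tm.code_list_inj (P := fun t => ∃ i, t = a i)
        (by rintro t ⟨i, rfl⟩; exact ih i) _ _ _ _
        (by intro t ht; obtain ⟨i, hi⟩ := List.mem_ofFn.1 ht; exact ⟨i, hi.symm⟩) h2
      subst h1
      have h5 : k = k' := by
        have := congrArg List.length h3
        simpa using this
      subst h5
      exact ⟨by rw [List.ofFn_injective h3], h4⟩

/-- A term rewriting system is determined by its code. -/
theorem Rules.code_injective : Function.Injective Rules.code := by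
  intro R
  induction R with
  | nil =>
    intro R' h
    cases R' with
    | nil => rfl
    | cons r R' =>
      exfalso
      obtain ⟨l, r⟩ := r
      cases l <;> simp [Rules.code, Tm.code] at h
  | cons r R ih =>
    intro R' h
    cases R' with
    | nil =>
      exfalso
      obtain ⟨l, r⟩ := r
      cases l <;> simp [Rules.code, Tm.code] at h
    | cons r' R' =>
      simp only [Rules.code, List.flatMap_cons, List.append_assoc] at h
      obtain ⟨h1, h2⟩ := Tm.code_inj _ _ _ _ h
      obtain ⟨h3, h4⟩ := Tm.code_inj _ _ _ _ h2
      rw [ih h4, Prod.ext h1 h3]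

end Pool.Agent.Lib.MP_ce3b04_lc
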