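import Pool.Agent.Lib.MP_ce3b04_lc.Ground
import Pool.Agent.Lib.MP_ce3b04_lc.RawCode

/-!
# From typed to untyped rewriting systems
-/

open Relation

set_option linter.unusedSectionVars false

namespace Pool.Agent.Lib.MP_ce3b04_lc

/-- A numbering of the function symbols of a signature and an order on the argument places. -/
structure Naming (S : Sig) where
  ν : S.Sym → ℕ
  inj : Function.Injective ν
  ord : ∀ f, List (S.Arg f)
  nodup : ∀ f, (ord f).Nodup
  compl : ∀ f s, s ∈ ord f

namespace Naming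

variable {S : Sig} (N : Naming S)

/-- The arity of a symbol. -/
def len (f : S.Sym) : ℕ := (N.ord f).length

/-- The `j`-th argument place. -/
def get (f : S.Sym) (j : Fin (N.len f)) : S.Arg f := (N.ord f).get j

open Classical in
/-- The number of an argument place. -/
noncomputable def idx (f : S.Sym) (s : S.Arg f) : Fin (N.len f) :=
  ⟨(N.ord f).idxOf s, List.idxOf_lt_length_iff.2 (N.compl f s)⟩

@[simp] theorem get_idx (f : S.Sym) (s : S.Arg f) : N.get f (N.idx f s) = s := by
  classical
  simp [get, idx]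

@[simp] theorem idx_get (f : S.Sym) (j : Fin (N.len f)) : N.idx f (N.get f j) = j := by
  classical
  apply Fin.ext
  have := (N.nodup f).idxOf_getElem j.1 j.2
  simp only [get, idx, List.get_eq_getElem]
  convert this

/-- The untyped form of a term. -/
def emb : Term S → Tm
  | .var n => .var n
  | .bul => .bul
  | .app f a => .app (N.ν f) (N.len f) fun j => emb (a (N.get f j))

open Classical in
/-- The function symbol with a given name and arity. -/
noncomputable def inv (s : ℕ × ℕ) : Option S.Sym :=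
  if h : ∃ f, s = (N.ν f, N.len f) then some h.choose else none

theorem inv_eq (f : S.Sym) : N.inv (N.ν f, N.len f) = some f := by
  classical
  unfold inv
  have h : ∃ f', (N.ν f, N.len f) = (N.ν f', N.len f') := ⟨f, rfl⟩
  rw [dif_pos h]
  congr 1
  exact N.inj (Prod.ext_iff.1 h.choose_spec).1.symm

theorem inv_some {s : ℕ × ℕ} {f : S.Sym} (h : N.inv s = some f) : s = (N.ν f, N.len f) := by
  classical
  unfold inv at h
  split_ifs at h with h1
  cases h
  exact h1.choose_spec

/-- The typed form of an untyped term; subterms with a foreign symbol become `•`. -/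
noncomputable def proj : Tm → Term S
  | .var n => .var n
  | .bul => .bul
  | .app g k a => match N.inv (g, k) with
    | some f => .app f fun s => if h : (N.idx f s).1 < k then proj (a ⟨(N.idx f s).1, h⟩) else .bul
    | none => .bul

theorem proj_app (f : S.Sym) (a : Fin (N.len f) → Tm) :
    N.proj (.app (N.ν f) (N.len f) a) = .app f fun s => N.proj (a (N.idx f s)) := by
  simp only [proj, N.inv_eq]
  congr 1
  funext s
  rw [dif_pos (N.idx f s).2]

@[simp] theorem proj_emb (t : Term S) : N.proj (N.emb t) = t := by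
  induction t with
  | var n => rfl
  | bul => rfl
  | app f a ih =>
    simp only [emb]
    rw [proj_app]
    congr 1
    funext s
    rw [ih, get_idx]

theorem emb_injective : Function.Injective N.emb := Function.LeftInverse.injective N.proj_emb

/-- Terms all of whose symbols are in the signature. -/
def Mine (t : Tm) : Prop := ∀ s ∈ t.syms, ∃ f, s = (N.ν f, N.len f)

theorem emb_proj {t : Tm} (h : N.Mine t) : N.emb (N.proj t) = t := by
  induction t with
  | var n => rfl
  | bul => rfl
  | app g k a ih =>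
    obtain ⟨f, hf⟩ := h (g, k) (Or.inl rfl)
    obtain ⟨rfl, rfl⟩ := Prod.ext_iff.1 hf
    rw [proj_app]
    simp only [emb, idx_get]
    congr 1
    funext j
    exact ih j (fun s hs => h s (Or.inr ⟨j, hs⟩))

theorem mine_emb (t : Term S) : N.Mine (N.emb t) := by
  induction t with
  | var n => intro s hs; exact absurd hs (Set.notMem_empty _)
  | bul => intro s hs; exact absurd hs (Set.notMem_empty _)
  | app f a ih =>
    rintro s (rfl | ⟨i, hi⟩)
    · exact ⟨f, rfl⟩
    · exact ih _ s hi

theorem emb_bulFree {t : Term S} : (N.emb t).BulFree ↔ t.BulFree := by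
  induction t with
  | var n => exact Iff.rfl
  | bul => exact Iff.rfl
  | app f a ih =>
    constructor
    · intro h s
      have h1 : (N.emb (a (N.get f (N.idx f s)))).BulFree := h (N.idx f s)
      rw [get_idx, ih] at h1
      exact h1
    · intro h j
      exact (ih _).2 (h _)

theorem emb_ground {t : Term S} (h : t.Ground) : (N.emb t).Ground := by
  induction t with
  | var n => exact h
  | bul => trivial
  | app f a ih => exact fun j => ih _ (h _)

/-- Argument places as numbers. -/
noncomputable def argEquiv (f : S.Sym) : Fin (N.len f) ≃ S.Arg f where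
  toFun := N.get f
  invFun := N.idx f
  left_inv := N.idx_get f
  right_inv := N.get_idx f

theorem emb_vars (t : Term S) : (N.emb t).vars = t.vars := by
  induction t with
  | var n => rfl
  | bul => rfl
  | app f a ih =>
    simp only [emb, Tm.vars, Term.vars]
    rw [← Equiv.sum_comp (N.argEquiv f)]
    refine Finset.sum_congr rfl fun j _ => ?_
    exact ih _

theorem emb_subst (t : Term S) (σ : ℕ → Term S) :
    N.emb (t.subst σ) = (N.emb t).subst fun n => N.emb (σ n) := by
  induction t with
  | var n => rfl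
  | bul => rfl
  | app f a ih =>
    simp only [Term.subst, emb, Tm.subst]
    congr 1
    funext j
    exact ih _

theorem proj_subst (t : Term S) (σ : ℕ → Tm) :
    N.proj ((N.emb t).subst σ) = t.subst fun n => N.proj (σ n) := by
  induction t with
  | var n => rfl
  | bul => rfl
  | app f a ih =>
    simp only [Term.subst, emb, Tm.subst]
    rw [proj_app]
    congr 1
    funext s
    rw [ih, get_idx]

/-- The untyped form of a context. -/
noncomputable def embC : Ctx S → Cx
  | .hole => .hole
  | .arg f a i C => .arg (N.ν f) (N.len f) (fun j => N.emb (a (N.get f j))) (N.idx f i) (embC C)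

theorem emb_fill (C : Ctx S) (t : Term S) : N.emb (C.fill t) = (N.embC C).fill (N.emb t) := by
  classical
  induction C with
  | hole => rfl
  | arg f a i C ih =>
    simp only [Ctx.fill, embC, Cx.fill, emb]
    congr 1
    funext j
    by_cases hj : j = N.idx f i
    · subst hj
      rw [get_idx, Function.update_self, Function.update_self, ih]
    · have hj' : N.get f j ≠ i := by
        rintro rfl
        exact hj (N.idx_get f j).symm
      rw [Function.update_of_ne hj, Function.update_of_ne hj']

theorem fill_eq_emb {C' : Cx} {t : Term S} {Δ' : Tm} (h : N.emb t = C'.fill Δ') :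
    ∃ C Δ, t = Ctx.fill C Δ ∧ Δ' = N.emb Δ ∧ (∀ u, N.emb (Ctx.fill C u) = C'.fill (N.emb u)) ∧
      (C = .hole → C' = .hole) := by
  classical
  induction C' generalizing t with
  | hole => exact ⟨.hole, t, rfl, h.symm, fun _ => rfl, fun _ => rfl⟩
  | arg g k a i C' ih =>
    cases t with
    | var n => simp [emb, Cx.fill] at h
    | bul => simp [emb, Cx.fill] at h
    | app f b =>
      simp only [emb, Cx.fill, Tm.app.injEq] at h
      obtain ⟨rfl, rfl, h⟩ := h
      have h := eq_of_heq h
      have h1 := congrFun h i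
      rw [Function.update_self] at h1
      obtain ⟨C, Δ, h2, h3, h4, _⟩ := ih h1
      refine ⟨.arg f b (N.get f i) C, Δ, ?_, h3, ?_, fun h => by cases h⟩
      · simp only [Ctx.fill]
        rw [← h2, Function.update_eq_self]
      · intro u
        simp only [Ctx.fill, Cx.fill, emb]
        congr 1
        funext j
        by_cases hj : j = i
        · subst hj
          rw [Function.update_self, Function.update_self, h4]
        · have hj' : N.get f j ≠ N.get f i := by
            intro hc
            apply hj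
            have := congrArg (N.idx f) hc
            rwa [idx_get, idx_get] at this
          have h5 := congrFun h j
          rw [Function.update_of_ne hj] at h5
          rw [Function.update_of_ne hj, Function.update_of_ne hj', h5]

end Naming

section transport

variable {R : TRS} (N : Naming R.S) (Q : Rules)
  (hQ : ∀ r, r ∈ Q ↔ ∃ ρ, r = (N.emb (R.lhs ρ), N.emb (R.rhs ρ)))
  (hsig : ∀ f, (N.ν f, N.len f) ∈ Q.Sig)

include hQ

theorem over_emb_of (hsig : ∀ f, (N.ν f, N.len f) ∈ Q.Sig) (t : Term R.S) :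
    Q.Over (N.emb t) := by
  intro s hs
  obtain ⟨f, rfl⟩ := N.mine_emb t s hs
  exact hsig f

theorem mine_of_over {t : Tm} (h : Q.Over t) : N.Mine t := by
  intro s hs
  obtain ⟨r, hr, h1⟩ := h hs
  obtain ⟨ρ, rfl⟩ := (hQ r).1 hr
  rcases h1 with h1 | h1
  · exact N.mine_emb _ s h1
  · exact N.mine_emb _ s h1

theorem isRedex_emb {t : Term R.S} : Q.IsRedex (N.emb t) ↔ R.IsRedex t := by
  constructor
  · rintro ⟨r, hr, σ, h⟩
    obtain ⟨ρ, rfl⟩ := (hQ r).1 hr
    refine ⟨ρ, fun n => N.proj (σ n), ?_⟩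
    rw [← N.proj_subst, ← h, N.proj_emb]
  · rintro ⟨ρ, σ, rfl⟩
    exact ⟨_, (hQ _).2 ⟨ρ, rfl⟩, fun n => N.emb (σ n), N.emb_subst _ _⟩

theorem isNF_emb {t : Term R.S} : Q.IsNF (N.emb t) ↔ R.IsNF t := by
  constructor
  · rintro h C Δ rfl h1
    exact h (N.embC C) (N.emb Δ) (N.emb_fill C Δ) ((isRedex_emb N Q hQ).2 h1)
  · intro h C' Δ' h1 h2
    obtain ⟨C, Δ, h3, rfl, _, _⟩ := N.fill_eq_emb h1
    exact h C Δ h3 ((isRedex_emb N Q hQ).1 h2)

include hsig

theorem step_emb {t : Term R.S} {s' : Tm} :
    Q.Step (N.emb t) s' ↔ ∃ s, s' = N.emb s ∧ R.Step t s := by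
  constructor
  · rintro ⟨C', Δ', u', h1, h2, h3, rfl⟩
    obtain ⟨C, Δ, rfl, rfl, h4, _⟩ := N.fill_eq_emb h3
    have h5 := N.emb_proj (mine_of_over N Q hQ h2)
    refine ⟨C.fill (N.proj u'), ?_, C, Δ, N.proj u', (isRedex_emb N Q hQ).1 h1, rfl, rfl⟩
    rw [h4, h5]
  · rintro ⟨s, rfl, C, Δ, u, h1, rfl, rfl⟩
    exact ⟨N.embC C, N.emb Δ, N.emb u, (isRedex_emb N Q hQ).2 h1, over_emb_of N Q hQ hsig u,
      N.emb_fill C Δ, N.emb_fill C u⟩

theorem steps_emb {t : Term R.S} {s' : Tm} :
    ReflTransGen Q.Step (N.emb t) s' ↔ ∃ s, s' = N.emb s ∧ ReflTransGen R.Step t s := by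
  constructor
  · intro h
    induction h with
    | refl => exact ⟨t, rfl, .refl⟩
    | tail _ h2 ih =>
      obtain ⟨s, rfl, h3⟩ := ih
      obtain ⟨s₂, rfl, h4⟩ := (step_emb N Q hQ hsig).1 h2
      exact ⟨s₂, rfl, h3.tail h4⟩
  · rintro ⟨s, rfl, h⟩
    induction h with
    | refl => exact .refl
    | tail _ h2 ih => exact ih.tail ((step_emb N Q hQ hsig).2 ⟨_, rfl, h2⟩)

theorem stronglyNeeded_emb {t : Term R.S} :
    Q.StronglyNeeded (N.emb t) ↔ R.StronglyNeeded t := by
  constructor
  · intro h s h1 h2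
    rw [← N.emb_bulFree]
    exact h _ ((steps_emb N Q hQ hsig).2 ⟨s, rfl, h1⟩) ((isNF_emb N Q hQ).2 h2)
  · intro h s' h1 h2
    obtain ⟨s, rfl, h3⟩ := (steps_emb N Q hQ hsig).1 h1
    rw [N.emb_bulFree]
    exact h s h3 ((isNF_emb N Q hQ).1 h2)

/-- Strong sequentiality of the typed and of the untyped system. -/
theorem stronglySequential_emb : Q.StronglySequential ↔ R.StronglySequential := by
  constructor
  · intro h t h1 h2
    obtain ⟨C', Δ', h3, h4, h5⟩ := h (N.emb t) (over_emb_of N Q hQ hsig t)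
      (N.emb_bulFree.2 h1) (fun h => h2 ((isNF_emb N Q hQ).1 h))
    obtain ⟨C, Δ, h6, rfl, h7, _⟩ := N.fill_eq_emb h3
    refine ⟨C, Δ, h6, (isRedex_emb N Q hQ).1 h4, ?_⟩
    rw [← stronglyNeeded_emb N Q hQ hsig, h7]
    exact h5
  · intro h t' h1 h2 h3
    have h4 := N.emb_proj (mine_of_over N Q hQ h1)
    rw [← h4] at h2 h3 ⊢
    obtain ⟨C, Δ, h5, h6, h7⟩ := h (N.proj t') (N.emb_bulFree.1 h2)
      (fun h => h3 ((isNF_emb N Q hQ).2 h))
    refine ⟨N.embC C, N.emb Δ, ?_, (isRedex_emb N Q hQ).2 h6, ?_⟩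
    · rw [h5, N.emb_fill]
    · have h8 := (stronglyNeeded_emb N Q hQ hsig).2 h7
      rw [N.emb_fill] at h8
      exact h8

/-- Strong sequentiality on ground terms is inherited by the typed system. -/
theorem stronglySequentialG_of_emb (h : Q.StronglySequentialG) : R.StronglySequentialG := by
  intro t h1 hg h2
  obtain ⟨C', Δ', h3, h4, h5⟩ := h (N.emb t) (over_emb_of N Q hQ hsig t)
    (N.emb_bulFree.2 h1) (N.emb_ground hg) (fun h => h2 ((isNF_emb N Q hQ).1 h))
  obtain ⟨C, Δ, h6, rfl, h7, _⟩ := N.fill_eq_emb h3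
  refine ⟨C, Δ, h6, (isRedex_emb N Q hQ).1 h4, ?_⟩
  intro s h8 h9
  rw [← N.emb_bulFree]
  refine h5 _ ?_ ((isNF_emb N Q hQ).2 h9)
  have h10 : C'.fill .bul = N.emb (Ctx.fill C .bul) := (h7 .bul).symm
  rw [h10]
  clear h9
  induction h8 with
  | refl => exact .refl
  | tail _ h11 ih =>
    exact ih.tail ⟨(step_emb N Q hQ hsig).2 ⟨_, rfl, h11.1⟩, N.emb_ground h11.2.1,
      N.emb_ground h11.2.2⟩

omit hsig in
/-- Orthogonality of the untyped system. -/
theorem orthogonal_emb (h : R.Orthogonal) : Q.Orthogonal := by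
  refine ⟨?_, ?_, ?_⟩
  · intro r hr
    obtain ⟨ρ, rfl⟩ := (hQ r).1 hr
    refine ⟨N.emb_bulFree.2 (R.lhs_bulFree ρ), N.emb_bulFree.2 (R.rhs_bulFree ρ), ?_, ?_⟩
    · intro n hn
      have : R.lhs ρ = .var n := N.emb_injective hn
      exact R.lhs_ne_var ρ n this
    · intro n hn
      simp only [N.emb_vars] at hn ⊢
      exact R.vars_subset ρ n hn
  · intro r hr
    obtain ⟨ρ, rfl⟩ := (hQ r).1 hr
    simp only [N.emb_vars]
    exact h.1 ρ
  · intro r₁ hr₁ r₂ hr₂ C' u' h1 h2 h3 σ τ h4
    obtain ⟨ρ₁, rfl⟩ := (hQ r₁).1 hr₁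
    obtain ⟨ρ₂, rfl⟩ := (hQ r₂).1 hr₂
    simp only at h1 h4
    obtain ⟨C, u, h5, rfl, _, h6⟩ := N.fill_eq_emb h1
    refine h.2 ρ₁ ρ₂ C u h5 ?_ ?_ (fun n => N.proj (σ n)) (fun n => N.proj (τ n)) ?_
    · rintro n rfl
      exact h2 n rfl
    · rcases h3 with h3 | h3
      · exact Or.inl fun h => h3 (h6 h)
      · right
        rintro rfl
        exact h3 rfl
    · rw [← N.proj_subst, ← N.proj_subst, h4]

end transport

end Pool.Agent.Lib.MP_ce3b04_lc
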