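import Pool.Agent.Lib.MP_ce3b04_lc.Sweep
import Pool.Agent.Lib.MP_ce3b04_lc.Transport
import Pool.Agent.Lib.PolyTM.Main

/-!
# The code of the rewriting system of a sweeping machine
-/

open Relation Pool.Agent.Lib.PolyTM

set_option linter.unusedSimpArgs false

namespace Pool.Agent.Lib.MP_ce3b04_lc

namespace ASM

variable (A : ASM)

/-- The list of all elements of a finite type. -/
noncomputable def LL (X : Type) [Fintype X] : List X := (Finset.univ : Finset X).toList

theorem mem_LL {X : Type} [Fintype X] (x : X) : x ∈ LL X := by simp [LL]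

theorem nodup_LL (X : Type) [Fintype X] : (LL X).Nodup := Finset.nodup_toList _

/-- The list of all places. -/
noncomputable def rawLX (N : ℕ) : List A.NX :=
  (LL (Option A.E)).map (fun o => NX.e o) ++
    (List.range N).flatMap fun m => (LL (Option A.D)).map fun o => NX.d m o

/-- The list of all letters other than `fin`. -/
noncomputable def rawNB (N : ℕ) : List A.NL :=
  .start :: (List.range N).flatMap fun j => (LL A.F).map fun x => NL.l j x

/-- The list of all letters. -/
noncomputable def rawLB (N : ℕ) : List A.NL := .fin :: A.rawNB N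

theorem mem_rawLX {N : ℕ} {v : A.NX} : v ∈ A.rawLX N ↔ v.ok A N := by
  cases v with
  | e o => simp [rawLX, NX.ok, mem_LL]
  | d m o => simp [rawLX, NX.ok, mem_LL]

theorem nodup_rawLX (N : ℕ) : (A.rawLX N).Nodup := by
  unfold rawLX
  refine List.Nodup.append ?_ ?_ ?_
  · exact (nodup_LL _).map fun a b h => by cases h; rfl
  · rw [List.nodup_flatMap]
    refine ⟨fun m _ => (nodup_LL _).map fun a b h => by cases h; rfl, ?_⟩
    refine List.nodup_range.imp ?_
    intro a b hab v hv hv'
    obtain ⟨o, _, rfl⟩ := List.mem_map.1 hv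
    obtain ⟨o', _, h⟩ := List.mem_map.1 hv'
    cases h
    exact hab rfl
  · intro v hv hv'
    obtain ⟨o, _, rfl⟩ := List.mem_map.1 hv
    obtain ⟨m, _, h⟩ := List.mem_flatMap.1 hv'
    obtain ⟨o', _, h⟩ := List.mem_map.1 h
    cases h

theorem mem_rawNB {N : ℕ} {b : A.NL} : b ∈ A.rawNB N ↔ b.ok A N ∧ isFin b = false := by
  cases b with
  | start => simp [rawNB, NL.ok, isFin]
  | fin => simp [rawNB, NL.ok, isFin]
  | l j x => simp [rawNB, NL.ok, isFin, mem_LL]

theorem mem_rawLB {N : ℕ} {b : A.NL} : b ∈ A.rawLB N ↔ b.ok A N := by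
  cases b with
  | start => simp [rawLB, rawNB, NL.ok]
  | fin => simp [rawLB, rawNB, NL.ok]
  | l j x => simp [rawLB, rawNB, NL.ok, mem_LL]

/-- The typed list of all places. -/
noncomputable def LXt (N : ℕ) : List (A.XB N) :=
  (A.rawLX N).attachWith _ fun _ h => A.mem_rawLX.1 h

/-- The typed list of all letters. -/
noncomputable def LBt (N : ℕ) : List (A.LB N) :=
  (A.rawLB N).attachWith _ fun _ h => A.mem_rawLB.1 h

theorem LXt_val (N : ℕ) : (A.LXt N).map Subtype.val = A.rawLX N := by
  simp [LXt]

theorem LBt_val (N : ℕ) : (A.LBt N).map Subtype.val = A.rawLB N := by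
  simp [LBt]

theorem mem_LXt {N : ℕ} (v : A.XB N) : v ∈ A.LXt N := by
  have h : v.1 ∈ (A.LXt N).map Subtype.val := by
    rw [LXt_val]; exact A.mem_rawLX.2 v.2
  obtain ⟨w, hw, h⟩ := List.mem_map.1 h
  rwa [← Subtype.ext h]

theorem mem_LBt {N : ℕ} (b : A.LB N) : b ∈ A.LBt N := by
  have h : b.1 ∈ (A.LBt N).map Subtype.val := by
    rw [LBt_val]; exact A.mem_rawLB.2 b.2
  obtain ⟨w, hw, h⟩ := List.mem_map.1 h
  rwa [← Subtype.ext h]

theorem nodup_LXt (N : ℕ) : (A.LXt N).Nodup := by
  refine List.Nodup.of_map Subtype.val ?_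
  rw [LXt_val]
  exact A.nodup_rawLX N

theorem LXt_flatMap {Y : Type} (N : ℕ) (g : A.NX → List Y) :
    (A.LXt N).flatMap (fun v => g v.1) = (A.rawLX N).flatMap g := by
  rw [← LXt_val, List.flatMap_map]
  rfl

theorem LBt_flatMap {Y : Type} (N : ℕ) (g : A.NL → List Y) :
    (A.LBt N).flatMap (fun v => g v.1) = (A.rawLB N).flatMap g := by
  rw [← LBt_val, List.flatMap_map]
  rfl

/-- The number of a letter. -/
noncomputable def numNL : A.NL → ℕ
  | .start => 0
  | .fin => 1
  | .l j x => 2 + (Fintype.card A.F * j + num x)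

theorem numNL_inj : Function.Injective A.numNL := by
  intro v w h
  cases v <;> cases w <;> simp only [numNL] at h <;> try rfl
  case l.l j x j' x' =>
    obtain ⟨h1, h2⟩ := mul_add_inj (num_lt x) (num_lt x') (Nat.add_left_cancel h)
    rw [h1, num_inj h2]
  all_goals omega

/-- The list of all argument places. -/
noncomputable def slots (N : ℕ) (d₀ : ℕ → A.D) (b : A.LB N) : List ((A.sys N d₀).Slot b) :=
  .z₁ :: .z₂ :: ((A.LXt N).map Sys.Slot.x ++ (LL A.C).map Sys.Slot.y)

theorem mem_slots (N : ℕ) (d₀ : ℕ → A.D) (b : A.LB N) (s : (A.sys N d₀).Slot b) :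
    s ∈ A.slots N d₀ b := by
  cases s with
  | z₁ => simp [slots]
  | z₂ => simp [slots]
  | x v => simp only [slots, List.mem_cons, List.mem_append, List.mem_map]
           exact Or.inr (Or.inr (Or.inl ⟨v, A.mem_LXt v, rfl⟩))
  | y k => simp only [slots, List.mem_cons, List.mem_append, List.mem_map]
           exact Or.inr (Or.inr (Or.inr ⟨k, mem_LL k, rfl⟩))

theorem nodup_slots (N : ℕ) (d₀ : ℕ → A.D) (b : A.LB N) : (A.slots N d₀ b).Nodup := by
  unfold slots
  refine List.nodup_cons.2 ⟨?_, List.nodup_cons.2 ⟨?_, List.Nodup.append ?_ ?_ ?_⟩⟩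
  · simp
  · simp
  · exact (A.nodup_LXt N).map fun a b h => by cases h; rfl
  · exact (nodup_LL _).map fun a b h => by cases h; rfl
  · intro s hs hs'
    obtain ⟨_, _, rfl⟩ := List.mem_map.1 hs
    obtain ⟨_, _, h⟩ := List.mem_map.1 hs'
    cases h

/-- The naming of the symbols. -/
noncomputable def naming (N : ℕ) (d₀ : ℕ → A.D) : Naming (A.sys N d₀).sig where
  ν f := match f with
    | .inl c => c.1
    | .inr b => 4 + A.numNL b.1
  inj := by
    intro f f' h
    rcases f with c | b <;> rcases f' with c' | b' <;> simp only at h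
    · rw [Fin.ext h]
    · have := c.2; omega
    · have := c'.2; omega
    · rw [Subtype.ext (A.numNL_inj (Nat.add_left_cancel h))]
  ord f := match f with
    | .inl _ => []
    | .inr b => A.slots N d₀ b
  nodup f := by
    rcases f with c | b
    · exact List.nodup_nil
    · exact A.nodup_slots N d₀ b
  compl f s := by
    rcases f with c | b
    · exact nomatch s
    · exact A.mem_slots N d₀ b s

/-! ### Codes of terms -/

/-- The code of a constant. -/
def cC (c : ℕ) : List Tok := .f :: codeNat c ++ [.c]

/-- The code of a variable. -/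
def cV (n : ℕ) : List Tok := .v :: codeNat n

/-- The code of a constant or a variable. -/
def item (o : Option (Fin 4)) (n : ℕ) : List Tok :=
  match o with
  | some c => cC c.1
  | none => cV n

theorem ofFn_get_map {X Y : Type} (l : List X) (g : X → Y) :
    (List.ofFn fun j => g (l.get j)) = l.map g := by
  have h1 : (fun j => g (l.get j)) = g ∘ l.get := rfl
  rw [h1, ← List.map_ofFn, List.ofFn_get]

variable {A} {N : ℕ} {d₀ : ℕ → A.D}

theorem code_cst (c : Fin 4) : ((A.naming N d₀).emb ((A.sys N d₀).cst c)).code = cC c.1 := by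
  rfl

theorem code_node (b : A.LB N) (a : (A.sys N d₀).Slot b → Term (A.sys N d₀).sig) :
    ((A.naming N d₀).emb (Sys.node (M := A.sys N d₀) b a)).code =
      .f :: codeNat (4 + A.numNL b.1) ++
        (((A.slots N d₀ b).map fun s => ((A.naming N d₀).emb (a s)).code).flatten ++ [.c]) := by
  unfold Sys.node
  simp only [Naming.emb, Tm.code]
  have h := ofFn_get_map (A.slots N d₀ b) fun s => ((A.naming N d₀).emb (a s)).code
  rw [← h]
  rfl

/-- The code of a flat pattern. -/
noncomputable def cF (N : ℕ) (b : A.NL) (z1 z2 : Option (Fin 4)) (px : A.NX → Option (Fin 4))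
    (py : Option (Fin 4)) : List Tok :=
  .f :: codeNat (4 + A.numNL b) ++ (item z1 0 ++ (item z2 1 ++
    ((A.rawLX N).flatMap (fun v => item (px v) (2 + 2 * A.numNX v)) ++
      (LL A.C).flatMap (fun k => item py (3 + 2 * num k)))) ++ [.c])

theorem code_flat (b : A.LB N) (f : (A.sys N d₀).Slot b → Option (Fin 4))
    (z1 z2 : Option (Fin 4)) (px : A.NX → Option (Fin 4)) (py : Option (Fin 4))
    (h1 : f .z₁ = z1) (h2 : f .z₂ = z2) (h3 : ∀ v, f (.x v) = px v.1) (h4 : ∀ k, f (.y k) = py) :
    ((A.naming N d₀).emb (Sys.flat (M := A.sys N d₀) b f)).code = cF N b.1 z1 z2 px py := by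
  unfold Sys.flat
  rw [code_node]
  have h5 : (fun s => ((A.naming N d₀).emb (match f s with
      | some c => (A.sys N d₀).cst c
      | none => Term.var (Sys.idx s))).code) = fun s => item (f s) (Sys.idx s) := by
    funext s
    cases f s with
    | none => rfl
    | some c => exact code_cst c
  refine (congrArg (fun g => Tok.f :: codeNat (4 + A.numNL b.1) ++
    ((List.map g (A.slots N d₀ b)).flatten ++ [.c])) h5).trans ?_
  simp only [slots, List.map_cons, List.map_append, List.map_map, List.flatten_cons,
    List.flatten_append, cF, h1, h2]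
  congr 3
  rw [← LXt_flatMap, List.flatMap_def, List.flatMap_def]
  congr 3
  · congr 1
    funext v
    simp only [Function.comp, h3]
    rfl
  · congr 1
    funext k
    simp only [Function.comp, h4]
    rfl

open Classical in
/-- The code of the left-hand sides of the last kind. -/
noncomputable def cL (N : ℕ) (b : A.NL) (v : A.NX) (k : A.C) (b' : A.NL) : List Tok :=
  .f :: codeNat (4 + A.numNL b) ++ (cC 1 ++ (cC 1 ++
    ((A.rawLX N).flatMap (fun w => if w = v then cC 0 else cC 1) ++
      (LL A.C).flatMap (fun l => if l = k then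
        cF N b' (some 2) (some 2) (fun w => if tr N b v k b' w then none else some 1) (some 2)
        else cC 3))) ++ [.c])

theorem code_lhsC (b : A.LB N) (v : A.XB N) (k : A.C) (b' : A.LB N) :
    ((A.naming N d₀).emb ((A.sys N d₀).lhsC b v k b')).code = cL N b.1 v.1 k b'.1 := by
  classical
  unfold Sys.lhsC
  rw [code_node]
  simp only [slots, List.map_cons, List.map_append, List.map_map, List.flatten_cons,
    List.flatten_append, cL, code_cst]
  congr 4
  rw [← LXt_flatMap, List.flatMap_def, List.flatMap_def]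
  congr 1
  · congr 1
    refine List.map_congr_left fun w _ => ?_
    simp only [Function.comp]
    by_cases h : w = v
    · subst h
      simp only [if_true]
      exact code_cst 0
    · have h' : w.1 ≠ v.1 := fun hc => h (Subtype.ext hc)
      rw [if_neg h, if_neg h']
      exact code_cst 1
  · congr 1
    refine List.map_congr_left fun l _ => ?_
    simp only [Function.comp]
    by_cases h : l = k
    · subst h
      simp only [if_true]
      refine code_flat _ _ _ _ _ _ rfl rfl ?_ ?_
      · intro w
        rfl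
      · intro _
        rfl
    · rw [if_neg h]
      exact (code_cst 3).trans (if_neg h).symm

end ASM

end Pool.Agent.Lib.MP_ce3b04_lc
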