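import Pool.Agent.Lib.MP_ce3b04_lc.Final
import Pool.Agent.Lib.MP_ce3b04_lc.Up.Solve
import Pool.Agent.Lib.MP_ce3b04_lc.Up.NP
import Pool.Agent.Lib.MP_ce3b04_lc.Up.TMPT
import Pool.Agent.Lib.MP_ce3b04_lc.Up.PTS
import Pool.Agent.Lib.MP_ce3b04_lc.Up.PTA
import Pool.Agent.Lib.MP_ce3b04_lc.Up.PTparse
import Pool.Agent.Lib.MP_ce3b04_lc.Up.Orth
import Pool.Agent.Lib.MP_ce3b04_lc.Up.Parse
import Pool.Agent.Lib.MP_ce3b04_lc.Up.Count
import Pool.Agent.Lib.MP_ce3b04_lc.Up.Sem2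
import Pool.Agent.Lib.MP_ce3b04_lc.Hier.Diag

/-!
# Strong sequentiality of orthogonal rewriting systems is EXPTIME-complete
-/

open Turing

namespace Pool.Agent.Lib.MP_ce3b04_lc

open Up Hier CookLevin

/-- The language `L` is reducible to `L'` by a function computable in polynomial time by a Turing
machine. -/
def PolyReducible {Γ Δ : Type} (L : Set (List Γ)) (L' : Set (List Δ)) : Prop :=
  ∃ f : List Γ → List Δ,
    Nonempty (TM2ComputableInPolyTime (id : List Γ → List Γ) (id : List Δ → List Δ) f) ∧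
    ∀ x, x ∈ L ↔ f x ∈ L'

/-- NP-completeness under polynomial-time many-one reductions. -/
def NPComplete {Δ : Type} (L' : Set (List Δ)) : Prop :=
  InNP L' ∧ ∀ (Γ : Type) [Fintype Γ] (L : Set (List Γ)), InNP L → PolyReducible L L'

theorem inEXP_SSOrth : InEXP SSOrth :=
  stInEXP (stSolveU stParse stOrth stHt stSem stCountU) (stPTsolve stPTorth stPTparse stPTss)

theorem mem_SSOrth {R : Rules} (hO : R.Orthogonal) : R.code ∈ SSOrth ↔ R.StronglySequential := by
  constructor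
  · rintro ⟨R', _, hS, h⟩
    rw [Rules.code_injective h]
    exact hS
  · exact fun h => ⟨R, hO, h, rfl⟩

theorem exp_reducible {Γ : Type} [Fintype Γ] {L : Set (List Γ)} (hL : InEXP L) :
    PolyReducible L SSOrth := by
  obtain ⟨f, ⟨M⟩, hf⟩ := exp_hard L hL
  refine ⟨fun x => (f x).code, ⟨⟨⟨M.tm, M.inputAlphabet, M.outputAlphabet⟩, M.time,
    M.outputsFun⟩⟩, fun x => ?_⟩
  rw [mem_SSOrth (hf x).1]
  exact (hf x).2.1

theorem np_reducible {Γ : Type} [Fintype Γ] {L : Set (List Γ)} (hL : InNP L) :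
    PolyReducible L SSOrth := exp_reducible (stNPEXP stTMPT Γ L hL)

theorem npComplete_iff : NPComplete SSOrth ↔
    ∀ (Γ : Type) [Fintype Γ] (L : Set (List Γ)), InNP L ↔ InEXP L := by
  constructor
  · rintro ⟨h, -⟩ Γ _ L
    refine ⟨stNPEXP stTMPT Γ L, fun hL => ?_⟩
    obtain ⟨f, hf, hx⟩ := exp_reducible hL
    exact stNPred stTMPT Γ Tok L SSOrth f hf hx h
  · intro h
    exact ⟨(h Tok SSOrth).2 inEXP_SSOrth, fun Γ _ L hL => np_reducible hL⟩

theorem not_inP_SSOrth (h1 : StNotInP) (h2 : StPred) : ¬ InP SSOrth := by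
  intro h
  obtain ⟨f, hf, hx⟩ := exp_reducible h1.1
  exact h1.2 (h2 Bool Tok diag SSOrth f hf hx h)

end Pool.Agent.Lib.MP_ce3b04_lc
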