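import Pool.Agent.Lib.MP_ce3b04_lc.Complete
import Pool.Agent.Lib.MP_ce3b04_lc.Up.CoreG

/-!
# The same for terms without variables
-/

open Turing

namespace Pool.Agent.Lib.MP_ce3b04_lc

open Up Hier CookLevin

theorem mem_SSOrthG {R : Rules} (hO : R.Orthogonal) :
    R.code ∈ SSOrthG ↔ R.StronglySequentialG := by
  constructor
  · rintro ⟨R', _, hS, h⟩
    rw [Rules.code_injective h]
    exact hS
  · exact fun h => ⟨R, hO, h, rfl⟩

theorem exp_reducibleG {Γ : Type} [Fintype Γ] {L : Set (List Γ)} (hL : InEXP L) :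
    PolyReducible L SSOrthG := by
  obtain ⟨f, ⟨M⟩, hf⟩ := exp_hard L hL
  refine ⟨fun x => (f x).code, ⟨⟨⟨M.tm, M.inputAlphabet, M.outputAlphabet⟩, M.time,
    M.outputsFun⟩⟩, fun x => ?_⟩
  rw [mem_SSOrthG (hf x).1]
  exact (hf x).2.2

/-- A language that is decided in exponential time and hard for exponential time is NP-complete
only if NP is the class of the languages decided in exponential time. -/
theorem npComplete_iff_of {L' : Set (List Tok)} (h1 : InEXP L')
    (h2 : ∀ (Γ : Type) [Fintype Γ] (L : Set (List Γ)), InEXP L → PolyReducible L L') :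
    NPComplete L' ↔ ∀ (Γ : Type) [Fintype Γ] (L : Set (List Γ)), InNP L ↔ InEXP L := by
  constructor
  · rintro ⟨h, -⟩ Γ _ L
    refine ⟨stNPEXP stTMPT Γ L, fun hL => ?_⟩
    obtain ⟨f, hf, hx⟩ := h2 Γ L hL
    exact stNPred stTMPT Γ Tok L L' f hf hx h
  · intro h
    exact ⟨(h Tok L').2 h1, fun Γ _ L hL => h2 Γ L (stNPEXP stTMPT Γ L hL)⟩

theorem not_inP_SSOrthG (h1 : StNotInP) (h2 : StPred) : ¬ InP SSOrthG := by
  intro h
  obtain ⟨f, hf, hx⟩ := exp_reducibleG h1.1
  exact h1.2 (h2 Bool Tok diag SSOrthG f hf hx h)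

end Pool.Agent.Lib.MP_ce3b04_lc
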