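import Pool.Agent.Lib.MP_ce3b04_lc.TRS

/-!
# Strong sequentiality on ground terms
-/

open Relation

namespace Pool.Agent.Lib.MP_ce3b04_lc

variable {S : Sig}

/-- The term contains no variable. -/
def Term.Ground : Term S → Prop
  | .var _ => False
  | .bul => True
  | .app _ a => ∀ i, (a i).Ground

open Classical in
theorem Ctx.fill_ground {C : Ctx S} {t u : Term S} (h : (C.fill t).Ground)
    (hu : u.Ground) : (C.fill u).Ground := by
  induction C with
  | hole => exact hu
  | arg f a i C ih =>
    simp only [Ctx.fill, Term.Ground] at h ⊢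
    intro j
    by_cases hj : j = i
    · subst hj
      have := h j
      rw [Function.update_self] at this ⊢
      exact ih this
    · have := h j
      rwa [Function.update_of_ne hj] at this ⊢

theorem Term.subst_ground {t : Term S} (h : t.Ground) (τ : ℕ → Term S) : t.subst τ = t := by
  induction t with
  | var n => exact h.elim
  | bul => rfl
  | app f a ih =>
    simp only [Term.subst]
    congr 1
    funext i
    exact ih i (h i)

theorem Term.ground_subst (t : Term S) {τ : ℕ → Term S} (h : ∀ n, (τ n).Ground) :
    (t.subst τ).Ground := by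
  induction t with
  | var n => exact h n
  | bul => trivial
  | app f a ih => exact fun i => ih i

theorem Term.bulFree_subst {t : Term S} (ht : t.BulFree) {τ : ℕ → Term S}
    (h : ∀ n, (τ n).BulFree) : (t.subst τ).BulFree := by
  induction t with
  | var n => exact h n
  | bul => exact ht.elim
  | app f a ih => exact fun i => ih i (ht i)

theorem Term.subst_subst (t : Term S) (σ τ : ℕ → Term S) :
    (t.subst σ).subst τ = t.subst fun n => (σ n).subst τ := by
  induction t with
  | var n => rfl
  | bul => rfl
  | app f a ih =>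
    simp only [Term.subst]
    congr 1
    funext i
    exact ih i

/-- Substitution in a context. -/
def Ctx.subst (τ : ℕ → Term S) : Ctx S → Ctx S
  | .hole => .hole
  | .arg f a i C => .arg f (fun j => (a j).subst τ) i (Ctx.subst τ C)

open Classical in
theorem Ctx.fill_subst (C : Ctx S) (t : Term S) (τ : ℕ → Term S) :
    (C.fill t).subst τ = (C.subst τ).fill (t.subst τ) := by
  induction C with
  | hole => rfl
  | arg f a i C ih =>
    simp only [Ctx.fill, Ctx.subst, Term.subst]
    congr 1
    funext j
    by_cases hj : j = i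
    · subst hj
      rw [Function.update_self, Function.update_self, ih]
    · rw [Function.update_of_ne hj, Function.update_of_ne hj]

namespace TRS

variable (R : TRS)

/-- Arbitrary reduction of ground terms. -/
def GStep (t s : Term R.S) : Prop := R.Step t s ∧ t.Ground ∧ s.Ground

/-- Strong neededness on ground terms. -/
def StronglyNeededG (t : Term R.S) : Prop :=
  ∀ s, ReflTransGen R.GStep t s → R.IsNF s → ¬ s.BulFree

/-- Strong sequentiality on ground terms. -/
def StronglySequentialG : Prop :=
  ∀ t : Term R.S, t.BulFree → t.Ground → ¬ R.IsNF t →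
    ∃ C Δ, t = Ctx.fill C Δ ∧ R.IsRedex Δ ∧ R.StronglyNeededG (Ctx.fill C .bul)

end TRS

section general

variable {R : TRS}

theorem step_subst {t s : Term R.S} (h : R.Step t s) (τ : ℕ → Term R.S) :
    R.Step (t.subst τ) (s.subst τ) := by
  obtain ⟨C, Δ, u, ⟨ρ, σ, rfl⟩, rfl, rfl⟩ := h
  exact ⟨C.subst τ, _, u.subst τ, ⟨ρ, fun n => (σ n).subst τ, Term.subst_subst _ _ _⟩,
    Ctx.fill_subst _ _ _, Ctx.fill_subst _ _ _⟩

theorem gsteps_subst {t s : Term R.S} (h : ReflTransGen R.Step t s) {τ : ℕ → Term R.S}
    (hτ : ∀ n, (τ n).Ground) : ReflTransGen R.GStep (t.subst τ) (s.subst τ) := by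
  induction h with
  | refl => exact .refl
  | tail _ h2 ih => exact ih.tail ⟨step_subst h2 τ, Term.ground_subst _ hτ, Term.ground_subst _ hτ⟩

/-- Every ground term without `•` can be reduced to a ground normal form without `•`, if there is
such a normal form at all. -/
theorem exists_nfG {n₀ : Term R.S} (h1 : n₀.BulFree) (h2 : n₀.Ground) (h3 : R.IsNF n₀)
    (t : Term R.S) (ht : t.BulFree) (hg : t.Ground) :
    ∃ s, ReflTransGen R.Step t s ∧ R.IsNF s ∧ s.BulFree ∧ s.Ground := by
  induction t with
  | var n => exact hg.elim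
  | bul => exact ht.elim
  | app f a ih =>
    choose b hb1 hb2 hb3 hb4 using fun i => ih i (ht i) (hg i)
    have h4 := steps_args hb1
    by_cases hr : R.IsRedex (.app f b)
    · exact ⟨n₀, h4.tail (step_of_redex hr n₀), h3, h1, h2⟩
    · exact ⟨_, h4, isNF_app_iff.2 ⟨hr, hb2⟩, hb3, hb4⟩

/-- If a ground term reduces to a term without `•`, then it is not strongly needed. -/
theorem not_stronglyNeededG {n₀ : Term R.S} (h1 : n₀.BulFree) (h2 : n₀.Ground) (h3 : R.IsNF n₀)
    {t s : Term R.S} (ht : t.Ground) (h : ReflTransGen R.Step t s) (hs : s.BulFree) :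
    ¬ R.StronglyNeededG t := by
  have hτ : ∀ n : ℕ, ((fun _ => n₀) n : Term R.S).Ground := fun _ => h2
  have h4 := gsteps_subst h hτ
  rw [Term.subst_ground ht] at h4
  obtain ⟨u, h5, h6, h7, h8⟩ := exists_nfG h1 h2 h3 (s.subst fun _ => n₀)
    (Term.bulFree_subst hs fun _ => h1) (Term.ground_subst _ hτ)
  have h9 := gsteps_subst h5 hτ
  rw [Term.subst_ground h8, Term.subst_ground (Term.ground_subst _ hτ)] at h9
  intro h10
  exact h10 u (h4.trans h9) h6 h7

end general

end Pool.Agent.Lib.MP_ce3b04_lc
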