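import Pool.Agent.Lib.MP_ce3b04_lc.Key
import Pool.Agent.Lib.MP_ce3b04_lc.Ground

/-!
# The gadget is orthogonal, and not strongly sequential if a tree is accepted
-/

open Relation

namespace Pool.Agent.Lib.MP_ce3b04_lc

namespace Sys

variable {M : Sys}

/-- A fixed redex whose arguments are constants. -/
noncomputable def dl (b₀ : M.B) : Term M.sig :=
  node b₀ fun
    | .z₁ => M.cst 0
    | .z₂ => M.cst 0
    | .x _ => M.cst 1
    | .y _ => M.cst 0

theorem dl_redex (b₀ : M.B) : M.trs.IsRedex (dl b₀) := by
  refine isRedex_iff.2 ⟨b₀, _, rfl, Or.inl ?_⟩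
  intro s c hs
  cases s with
  | z₁ => simp only [f₁, Option.some.injEq] at hs; subst hs; rfl
  | z₂ => simp [f₁] at hs
  | x v =>
    simp only [f₁] at hs
    split_ifs at hs with hv
    simp only [Option.some.injEq] at hs; subst hs; rfl
  | y k => simp only [f₁, Option.some.injEq] at hs; subst hs; rfl

theorem dl_flex (b₀ : M.B) : Flex M.trs (dl b₀) := flex_of_redex (dl_redex b₀)

theorem dl_bulFree (b₀ : M.B) : (dl b₀).BulFree := by
  intro s
  cases s <;> exact M.cst_bulFree _

theorem cst_ground (c : Fin 4) : (M.cst c).Ground := fun e => nomatch e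

theorem dl_ground (b₀ : M.B) : (dl b₀).Ground := by
  intro s
  cases s <;> exact cst_ground _

theorem dl_ne_cst (b₀ : M.B) (c : Fin 4) : dl b₀ ≠ M.cst c := fun h => cst_ne_node h.symm

open Classical in
/-- A decomposition of a node. -/
theorem fill_eq_node {b : M.B} {a : M.Slot b → Term M.sig} {C : Ctx M.sig} {Δ : Term M.sig}
    (h : node b a = C.fill Δ) :
    C = .hole ∨ ∃ (s : M.Slot b) (C' : Ctx M.sig), a s = C'.fill Δ ∧
      ∀ u, C.fill u = node b (Function.update a s (C'.fill u)) := by
  cases C with
  | hole => exact Or.inl rfl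
  | arg f a' s C' =>
    right
    have h' : Term.app (S := M.sig) (Sum.inr b) a
        = Term.app f (Function.update a' s (C'.fill Δ)) := h
    obtain ⟨h1, h2⟩ := Term.app.inj h'
    subst h1
    have h2 := eq_of_heq h2
    refine ⟨s, C', ?_, ?_⟩
    · rw [h2, Function.update_self]
    · intro u
      simp only [Ctx.fill, node]
      congr 1
      rw [h2]
      exact (Function.update_idem _ _ _).symm

theorem dl_fill {b₀ : M.B} {C : Ctx M.sig} {Δ : Term M.sig} (h : dl b₀ = C.fill Δ)
    (hΔ : M.trs.IsRedex Δ) : C = .hole := by
  rcases fill_eq_node h with h | ⟨s, C', h1, _⟩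
  · exact h
  · exfalso
    cases s <;> exact isNF_cst _ C' Δ h1 hΔ

/-- `u` can be reduced to a term without `•`. -/
def Lost (u : Term M.sig) : Prop := ∃ s : Term M.sig, ReflTransGen M.trs.Step u s ∧ s.BulFree

theorem lost_of_flex {u : Term M.sig} (h : Flex M.trs u) : Lost u :=
  ⟨M.cst 0, h.any _, M.cst_bulFree 0⟩

open Classical in
theorem lost_node {b : M.B} {a : M.Slot b → Term M.sig} (ha : ∀ s, (a s).BulFree)
    {s : M.Slot b} {u : Term M.sig} (h : Lost u) : Lost (node b (Function.update a s u)) := by
  obtain ⟨w, h1, h2⟩ := h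
  refine ⟨node b (Function.update a s w), ?_, ?_⟩
  · exact steps_update (R := M.trs) (f := Sum.inr b) (a := a) (i := s) h1
  · intro (s' : M.Slot b)
    change (Function.update a s w s').BulFree
    by_cases hs : s' = s
    · subst hs; rw [Function.update_self]; exact h2
    · rw [Function.update_of_ne hs]; exact ha s'

open Classical in
/-- The terms built from accepted trees. -/
def Built (b₀ : M.B) (b : M.B) (O : M.X → Prop) (t : Term M.sig) : Prop :=
  ∃ a, t = node b a ∧ (t.BulFree ∧ t.Ground) ∧ a .z₁ = dl b₀ ∧ a .z₂ = dl b₀ ∧
    (∀ v, a (.x v) = if O v then dl b₀ else M.cst 1) ∧ (∀ k, Flex M.trs (a (.y k))) ∧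
    ∀ C Δ, t = Ctx.fill C Δ → M.trs.IsRedex Δ → Lost (C.fill .bul) ∨
      ∃ v, O v ∧ M.init b v = false ∧ C.fill .bul = node b (Function.update a (.x v) .bul)

theorem cp_x {b₀ : M.B} {p : Prop} [Decidable p] : Cp 1 (if p then dl b₀ else M.cst 1) := by
  split_ifs
  · exact Or.inr (dl_flex b₀)
  · exact Or.inl rfl

open Classical in
theorem Built.flex {b₀ b : M.B} {O : M.X → Prop} {t : Term M.sig} (h : Built b₀ b O t) :
    Flex M.trs t := by
  obtain ⟨a, rfl, _, h1, h2, h3, h4, _⟩ := h
  rw [flex_node_iff]
  left
  intro s c hs
  cases s with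
  | z₁ => rw [h1]; exact Or.inr (dl_flex b₀)
  | z₂ => simp [f₁] at hs
  | x v =>
    simp only [f₁] at hs
    split_ifs at hs with hv
    simp only [Option.some.injEq] at hs; subst hs
    rw [h3 v]
    exact cp_x
  | y k => exact Or.inr (h4 k)

open Classical in
theorem exists_built (b₀ : M.B) {b : M.B} {O : M.X → Prop} (h : Acc M b O) :
    ∃ t, Built b₀ b O t := by
  -- the common part of the two cases
  have common : ∀ (b : M.B) (O : M.X → Prop) (y : M.Ch b → Term M.sig),
      (∀ k, (y k).BulFree ∧ (y k).Ground) → (∀ k, Flex M.trs (y k)) →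
      (∀ k C' Δ, y k = Ctx.fill C' Δ → M.trs.IsRedex Δ →
        ∀ a : M.Slot b → Term M.sig, a .z₁ = dl b₀ → a .z₂ = dl b₀ →
        (∀ v, a (.x v) = if O v then dl b₀ else M.cst 1) → (∀ k, a (.y k) = y k) →
        Lost (node b (Function.update a (.y k) (C'.fill .bul)))) →
      ∃ t, Built b₀ b O t := by
    intro b O y hy1 hy2 hy3
    let a : M.Slot b → Term M.sig := fun s => match s with
      | .z₁ => dl b₀
      | .z₂ => dl b₀
      | .x v => if O v then dl b₀ else M.cst 1
      | .y k => y k
    have hx : ∀ v, Cp 1 (a (.x v)) := fun v => cp_x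
    have hbf : ∀ s, (a s).BulFree := by
      intro s
      cases s with
      | z₁ => exact dl_bulFree b₀
      | z₂ => exact dl_bulFree b₀
      | x v =>
        simp only [a]
        split_ifs
        · exact dl_bulFree b₀
        · exact M.cst_bulFree 1
      | y k => exact (hy1 k).1
    have hgr : ∀ s, (a s).Ground := by
      intro s
      cases s with
      | z₁ => exact dl_ground b₀
      | z₂ => exact dl_ground b₀
      | x v =>
        simp only [a]
        split_ifs
        · exact dl_ground b₀
        · exact cst_ground 1
      | y k => exact (hy1 k).2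
    refine ⟨node b a, a, rfl, ⟨hbf, hgr⟩, rfl, rfl, fun v => rfl, hy2, ?_⟩
    intro C Δ hC hΔ
    rcases fill_eq_node hC with rfl | ⟨s, C', h1, h2⟩
    · -- the root is not a redex
      exfalso
      have hC' : node b a = Δ := hC
      rw [← hC'] at hΔ
      obtain ⟨b', a', h1, h2⟩ := isRedex_iff.1 hΔ
      have h3 := node_head h1
      subst h3
      have h4 := node_inj h1
      subst h4
      rcases h2 with h2 | h2 | ⟨_, h2⟩ | ⟨_, v, k, b', h2⟩
      · exact dl_ne_cst b₀ _ (h2 .z₁ 0 rfl)
      · exact dl_ne_cst b₀ _ (h2 .z₂ 0 rfl)
      · exact dl_ne_cst b₀ _ (h2 .z₁ 3 rfl)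
      · exact dl_ne_cst b₀ _ h2.1
    · rw [h2]
      cases s with
      | z₁ =>
        left
        have h3 := dl_fill h1 hΔ
        subst h3
        refine lost_of_flex (flex_node_iff.2 (Or.inr (Or.inl ?_)))
        intro s c hs
        cases s with
        | z₁ => simp [f₂] at hs
        | z₂ =>
          rw [Function.update_of_ne (by simp)]
          exact Or.inr (dl_flex b₀)
        | x v =>
          simp only [f₂, Option.some.injEq] at hs; subst hs
          rw [Function.update_of_ne (by simp)]
          exact hx v
        | y k =>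
          rw [Function.update_of_ne (by simp)]
          exact Or.inr (hy2 k)
      | z₂ =>
        left
        have h3 := dl_fill h1 hΔ
        subst h3
        refine lost_of_flex (flex_node_iff.2 (Or.inl ?_))
        intro s c hs
        cases s with
        | z₁ =>
          rw [Function.update_of_ne (by simp)]
          exact Or.inr (dl_flex b₀)
        | z₂ => simp [f₁] at hs
        | x v =>
          simp only [f₁] at hs
          split_ifs at hs with hv
          simp only [Option.some.injEq] at hs; subst hs
          rw [Function.update_of_ne (by simp)]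
          exact hx v
        | y k =>
          rw [Function.update_of_ne (by simp)]
          exact Or.inr (hy2 k)
      | x v =>
        have h1' : (if O v then dl b₀ else M.cst 1) = Ctx.fill C' Δ := h1
        by_cases hO : O v
        · rw [if_pos hO] at h1'
          have h3 := dl_fill h1' hΔ
          subst h3
          by_cases hv : M.init b v = true
          · left
            refine lost_of_flex (flex_node_iff.2 (Or.inl ?_))
            intro s c hs
            cases s with
            | z₁ =>
              rw [Function.update_of_ne (by simp)]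
              exact Or.inr (dl_flex b₀)
            | z₂ => simp [f₁] at hs
            | x w =>
              have hne : w ≠ v := by
                rintro rfl
                simp [f₁, hv] at hs
              simp only [f₁] at hs
              split_ifs at hs with hw
              simp only [Option.some.injEq] at hs; subst hs
              rw [Function.update_of_ne (by simpa using hne)]
              exact hx w
            | y k =>
              rw [Function.update_of_ne (by simp)]
              exact Or.inr (hy2 k)
          · right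
            exact ⟨v, hO, by simpa using hv, rfl⟩
        · rw [if_neg hO] at h1'
          exact absurd hΔ (isNF_cst 1 C' Δ h1')
      | y k =>
        left
        exact hy3 k C' Δ h1 hΔ a rfl rfl (fun v => rfl) (fun k => rfl)
  induction h with
  | leaf b O hb h =>
    refine common b O (fun _ => dl b₀) (fun _ => ⟨dl_bulFree b₀, dl_ground b₀⟩)
      (fun _ => dl_flex b₀) ?_
    intro k C' Δ h1 hΔ a a1 a2 a3 a4
    have h3 := dl_fill h1 hΔ
    subst h3
    refine lost_of_flex (flex_node_iff.2 (Or.inr (Or.inr (Or.inl ⟨hb, ?_⟩))))
    intro s c hs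
    cases s with
    | z₁ =>
      rw [Function.update_of_ne (by simp), a1]
      exact Or.inr (dl_flex b₀)
    | z₂ =>
      rw [Function.update_of_ne (by simp), a2]
      exact Or.inr (dl_flex b₀)
    | x v =>
      rw [Function.update_of_ne (by simp), a3]
      simp only [f₃] at hs
      split_ifs at hs with hv
      · rw [if_pos (h v hv)]
        exact Or.inr (dl_flex b₀)
      · simp only [Option.some.injEq] at hs; subst hs
        exact cp_x
    | y l => simp [f₃] at hs
  | node b O ch hb _ ih =>
    choose y hy using ih
    refine common b O y (fun k => (hy k).choose_spec.2.1) (fun k => (hy k).flex) ?_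
    intro k C' Δ h1 hΔ a a1 a2 a3 a4
    have hab : ∀ s, (a s).BulFree := by
      intro s
      cases s with
      | z₁ => rw [a1]; exact dl_bulFree b₀
      | z₂ => rw [a2]; exact dl_bulFree b₀
      | x v =>
        rw [a3]
        split_ifs
        · exact dl_bulFree b₀
        · exact M.cst_bulFree 1
      | y k => rw [a4]; exact (hy k).choose_spec.2.1.1
    obtain ⟨ak, c1, c2, c3, c4, c5, c6, c7⟩ := hy k
    rcases c7 C' Δ h1 hΔ with h | ⟨w, hw1, hw2, hw3⟩
    · exact lost_node hab h
    · rcases hw1 with hw1 | ⟨v, hv, hw1⟩
      · rw [hw1] at hw2; cases hw2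
      · refine lost_of_flex (flex_node_iff.2 (Or.inr (Or.inr (Or.inr ⟨hb, v, k, ch k, ?_⟩))))
        refine ⟨?_, ?_, ?_, ?_, ?_, ?_⟩
        · rw [Function.update_of_ne (by simp), a1]; exact Or.inr (dl_flex b₀)
        · rw [Function.update_of_ne (by simp), a2]; exact Or.inr (dl_flex b₀)
        · rw [Function.update_of_ne (by simp), a3, if_pos hv]; exact Or.inr (dl_flex b₀)
        · intro w' _
          rw [Function.update_of_ne (by simp), a3]; exact cp_x
        · intro l hl
          rw [Function.update_of_ne (by simpa using hl), a4]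
          exact Or.inr (hy l).flex
        · rw [Function.update_self, hw3]
          refine Or.inr ⟨_, rfl, ?_⟩
          intro s c hs
          cases s with
          | z₁ => rw [Function.update_of_ne (by simp), c3]; exact Or.inr (dl_flex b₀)
          | z₂ => rw [Function.update_of_ne (by simp), c4]; exact Or.inr (dl_flex b₀)
          | x w' =>
            have hne : w' ≠ w := by
              rintro rfl
              simp [fP, hw1] at hs
            simp only [fP] at hs
            split_ifs at hs with hw'
            simp only [Option.some.injEq] at hs; subst hs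
            rw [Function.update_of_ne (by simpa using hne), c5]
            split_ifs
            · exact Or.inr (dl_flex b₀)
            · exact Or.inl rfl
          | y l =>
            rw [Function.update_of_ne (by simp)]
            exact Or.inr (c6 l)

/-- If a tree is accepted from the initial places, the system is not strongly sequential. -/
theorem not_stronglySequential {b : M.B} (h : Acc M b (fun w => M.init b w = true)) :
    ¬ M.trs.StronglySequential := by
  classical
  intro hs
  obtain ⟨t, a, rfl, ht, h1, h2, h3, h4, h5⟩ := exists_built b h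
  have hnf : ¬ M.trs.IsNF (node b a) := by
    rw [not_nf_iff]
    refine ⟨.arg (S := M.sig) (Sum.inr b) a (Slot.z₁ : M.Slot b) .hole, dl b, ?_, dl_redex b⟩
    simp only [Ctx.fill, node]
    congr 1
    exact (Function.update_eq_iff.2 ⟨h1.symm, fun _ _ => rfl⟩).symm
  obtain ⟨C, Δ, h6, h7, h8⟩ := hs _ ht.1 hnf
  rcases h5 C Δ h6 h7 with ⟨s, h9, h10⟩ | ⟨v, h9, h10, _⟩
  · exact not_stronglyNeeded (R := M.trs) h9 h10 h8
  · rw [h9] at h10; cases h10

/-- The same for ground terms. -/
theorem not_stronglySequentialG {b : M.B} (h : Acc M b (fun w => M.init b w = true)) :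
    ¬ M.trs.StronglySequentialG := by
  classical
  intro hs
  obtain ⟨t, a, rfl, ht, h1, h2, h3, h4, h5⟩ := exists_built b h
  have hnf : ¬ M.trs.IsNF (node b a) := by
    rw [not_nf_iff]
    refine ⟨.arg (S := M.sig) (Sum.inr b) a (Slot.z₁ : M.Slot b) .hole, dl b, ?_, dl_redex b⟩
    simp only [Ctx.fill, node]
    congr 1
    exact (Function.update_eq_iff.2 ⟨h1.symm, fun _ _ => rfl⟩).symm
  obtain ⟨C, Δ, h6, h7, h8⟩ := hs _ ht.1 ht.2 hnf
  rcases h5 C Δ h6 h7 with ⟨s, h9, h10⟩ | ⟨v, h9, h10, _⟩
  · refine not_stronglyNeededG (R := M.trs) (M.cst_bulFree 0) (cst_ground 0) (isNF_cst 0)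
      ?_ h9 h10 h8
    have h11 : (Ctx.fill C Δ).Ground := by rw [← h6]; exact ht.2
    exact Ctx.fill_ground h11 trivial
  · rw [h9] at h10; cases h10

end Sys

end Pool.Agent.Lib.MP_ce3b04_lc
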