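import Pool.Agent.Lib.MP_ce3b04_lc.CodeGen

/-!
# A generator for the code of the rewriting system of a sweeping machine
-/

open Relation Pool.Agent.Lib.PolyTM

set_option linter.unusedSimpArgs false

namespace Pool.Agent.Lib.MP_ce3b04_lc

namespace ASM

variable (A : ASM)

/-! ### The list of the rules -/

/-- The list of all rules. -/
noncomputable def ruleList (N : ℕ) (d₀ : ℕ → A.D) : List (A.sys N d₀).RuleIdx :=
  (A.LBt N).map (fun b => .r₁ b) ++ ((A.LBt N).map (fun b => .r₂ b) ++
    (.r₃ (M := A.sys N d₀) (⟨.fin, trivial⟩ : A.LB N) rfl ::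
      (A.LBt N).flatMap fun b => if h : isFin b.1 = false then
        (A.LBt N).flatMap fun b' => (A.LXt N).flatMap fun v => (LL A.C).map fun k =>
          .rC (M := A.sys N d₀) b h v k b' else []))

theorem mem_ruleList (N : ℕ) (d₀ : ℕ → A.D) (ρ : (A.sys N d₀).RuleIdx) :
    ρ ∈ A.ruleList N d₀ := by
  cases ρ with
  | r₁ b => exact List.mem_append.2 (Or.inl (List.mem_map.2 ⟨b, A.mem_LBt b, rfl⟩))
  | r₂ b =>
    exact List.mem_append.2 (Or.inr (List.mem_append.2 (Or.inl
      (List.mem_map.2 ⟨b, A.mem_LBt b, rfl⟩))))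
  | r₃ b h =>
    obtain ⟨b, hb⟩ := b
    have h' : isFin b = true := h
    cases b with
    | start => cases h'
    | l j x => cases h'
    | fin => simp [ruleList]
  | rC b h v k b' =>
    refine List.mem_append.2 (Or.inr (List.mem_append.2 (Or.inr (List.mem_cons.2 (Or.inr
      (List.mem_flatMap.2 ⟨b, A.mem_LBt b, ?_⟩))))))
    have h' : isFin b.1 = false := h
    rw [dif_pos h']
    exact List.mem_flatMap.2 ⟨b', A.mem_LBt b', List.mem_flatMap.2 ⟨v, A.mem_LXt v,
      List.mem_map.2 ⟨k, mem_LL k, rfl⟩⟩⟩

/-- The rules of the rewriting system, as an untyped system. -/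
noncomputable def rules (N : ℕ) (d₀ : ℕ → A.D) : Rules :=
  (A.ruleList N d₀).map fun ρ => ((A.naming N d₀).emb ((A.sys N d₀).lhs ρ),
    (A.naming N d₀).emb ((A.sys N d₀).cst 0))

theorem mem_rules (N : ℕ) (d₀ : ℕ → A.D) (r : Tm × Tm) : r ∈ A.rules N d₀ ↔
    ∃ ρ, r = ((A.naming N d₀).emb ((A.sys N d₀).trs.lhs ρ),
      (A.naming N d₀).emb ((A.sys N d₀).trs.rhs ρ)) := by
  unfold rules
  rw [List.mem_map]
  constructor
  · rintro ⟨ρ, _, rfl⟩
    exact ⟨ρ, rfl⟩
  · rintro ⟨ρ, rfl⟩
    exact ⟨ρ, A.mem_ruleList N d₀ ρ, rfl⟩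

variable {A}

/-- The code of the first rule. -/
noncomputable def cR1 (N : ℕ) (d₀ : ℕ → A.D) (b : A.NL) : List Tok :=
  cF N b (some 0) none (fun v => if ini d₀ b v then none else some 1) (some 0)

/-- The code of the second rule. -/
noncomputable def cR2 (N : ℕ) (b : A.NL) : List Tok :=
  cF N b none (some 0) (fun _ => some 1) (some 1)

/-- The code of the third rule. -/
noncomputable def cR3 (N : ℕ) (b : A.NL) : List Tok :=
  cF N b (some 3) (some 3) (fun v => if finp b v then some 0 else some 1) none

theorem flatMap_congr' {X Y : Type} {l : List X} {f g : X → List Y} (h : ∀ x ∈ l, f x = g x) :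
    l.flatMap f = l.flatMap g := by
  rw [List.flatMap_def, List.flatMap_def]
  rw [List.map_congr_left h]

theorem code_rules (N : ℕ) (d₀ : ℕ → A.D) : (A.rules N d₀).code =
    (A.rawLB N).flatMap (fun b => cR1 N d₀ b ++ cC 0) ++
    ((A.rawLB N).flatMap (fun b => cR2 N b ++ cC 0) ++
    ((cR3 N (A := A) .fin ++ cC 0) ++
      (A.rawNB N).flatMap fun b => (A.rawLB N).flatMap fun b' => (A.rawLX N).flatMap fun v =>
        (LL A.C).flatMap fun k => cL N b v k b' ++ cC 0)) := by
  unfold Rules.code rules ruleList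
  rw [List.flatMap_map]
  simp only [List.flatMap_append, List.flatMap_cons, List.flatMap_map, List.flatMap_assoc]
  have e0 : ((A.naming N d₀).emb ((A.sys N d₀).cst 0)).code = cC 0 := code_cst 0
  congr 1
  · rw [← LBt_flatMap]
    refine flatMap_congr' fun b _ => ?_
    rw [e0]
    congr 1
    refine code_flat _ _ _ _ _ _ rfl rfl ?_ ?_
    · intro v; rfl
    · intro k; rfl
  congr 1
  · rw [← LBt_flatMap]
    refine flatMap_congr' fun b _ => ?_
    rw [e0]
    congr 1
    refine code_flat _ _ _ _ _ _ rfl rfl ?_ ?_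
    · intro v; rfl
    · intro k; rfl
  congr 1
  · rw [e0]
    congr 1
    refine code_flat _ _ _ _ _ _ rfl rfl ?_ ?_
    · intro v; rfl
    · intro k; rfl
  · have h1 : (A.LBt N).flatMap (fun b : A.LB N => (if h : isFin b.1 = false then
        (A.LBt N).flatMap fun b' => (A.LXt N).flatMap fun v => (LL A.C).map fun k =>
          (Sys.RuleIdx.rC (M := A.sys N d₀) b h v k b' : (A.sys N d₀).RuleIdx) else []).flatMap
        (fun ρ => ((A.naming N d₀).emb ((A.sys N d₀).lhs ρ)).code ++
          ((A.naming N d₀).emb ((A.sys N d₀).cst 0)).code)) =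
        (A.LBt N).flatMap (fun b => (fun b : A.NL => if isFin b = false then
          (A.rawLB N).flatMap fun b' => (A.rawLX N).flatMap fun v =>
            (LL A.C).flatMap fun k => cL N b v k b' ++ cC 0 else []) b.1) := by
      refine flatMap_congr' fun b _ => ?_
      by_cases hb : isFin b.1 = false
      · simp only [dif_pos hb, if_pos hb]
        rw [← LBt_flatMap, List.flatMap_assoc]
        refine flatMap_congr' fun b' _ => ?_
        rw [← LXt_flatMap, List.flatMap_assoc]
        refine flatMap_congr' fun v _ => ?_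
        rw [List.flatMap_map]
        refine flatMap_congr' fun k _ => ?_
        rw [e0]
        congr 1
        exact code_lhsC b v k b'
      · simp only [dif_neg hb, if_neg hb, List.flatMap_nil]
    refine h1.trans ?_
    rw [LBt_flatMap (A := A) N (fun b : A.NL => if isFin b = false then
          (A.rawLB N).flatMap fun b' => (A.rawLX N).flatMap fun v =>
            (LL A.C).flatMap fun k => cL N b v k b' ++ cC 0 else [])]
    have e1 : A.rawLB N = .fin :: A.rawNB N := rfl
    have e2 : ¬ isFin (NL.fin : A.NL) = false := by simp [isFin]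
    conv_lhs => rw [e1, List.flatMap_cons, if_neg e2, List.nil_append]
    refine flatMap_congr' fun b hb => ?_
    rw [if_pos (A.mem_rawNB.1 hb).2]
    rfl

/-! ### Generators -/

/-- The loop variables. -/
inductive Vr : Type
  | j : Vr
  | i : Vr
  | m : Vr
  | w : Vr
  deriving DecidableEq

instance : Fintype Vr := ⟨{.j, .i, .m, .w}, by intro x; cases x <;> simp⟩

/-- The nesting level of a loop variable. -/
def Vr.lev : Vr → ℕ
  | .j => 3
  | .i => 2
  | .m => 1
  | .w => 0

section gen

variable {Γ : Type}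

/-- Generators over the input alphabet `Γ`. -/
abbrev G (Γ : Type) : Type := Gen Γ Tok Vr

/-- The generator is well-formed and binds only variables of levels below `n`. -/
def Bnd (n : ℕ) (g : G Γ) : Prop := g.WF ∧ ∀ u, g.Binds u → u.lev < n

theorem Bnd.mono {n n' : ℕ} {g : G Γ} (h : Bnd n g) (hn : n ≤ n') : Bnd n' g :=
  ⟨h.1, fun u hu => (h.2 u hu).trans_le hn⟩

theorem bnd_out (n : ℕ) (w : List Tok) : Bnd n (.out w : G Γ) := ⟨trivial, fun _ h => h.elim⟩

theorem bnd_rep (n : ℕ) (v : Vr) (w : List Tok) : Bnd n (.rep v w : G Γ) :=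
  ⟨trivial, fun _ h => h.elim⟩

theorem Bnd.seq {n : ℕ} {g₁ g₂ : G Γ} (h₁ : Bnd n g₁) (h₂ : Bnd n g₂) : Bnd n (.seq g₁ g₂) :=
  ⟨⟨h₁.1, h₂.1⟩, fun u hu => hu.elim (h₁.2 u) (h₂.2 u)⟩

theorem Bnd.ite {n : ℕ} {c : Test Γ Vr} {g₁ g₂ : G Γ} (h₁ : Bnd n g₁) (h₂ : Bnd n g₂) :
    Bnd n (.ite c g₁ g₂) :=
  ⟨⟨h₁.1, h₂.1⟩, fun u hu => hu.elim (h₁.2 u) (h₂.2 u)⟩

theorem Bnd.loop {v : Vr} {g : G Γ} (h : Bnd v.lev g) : Bnd (v.lev + 1) (.loop v g) := by
  refine ⟨⟨fun hb => lt_irrefl _ (h.2 v hb), h.1⟩, ?_⟩
  rintro u (rfl | hu)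
  · exact Nat.lt_succ_self _
  · exact (h.2 u hu).trans (Nat.lt_succ_self _)

/-- A sequence of generators. -/
def gseq : List (G Γ) → G Γ
  | [] => .out []
  | g :: l => .seq g (gseq l)

theorem bnd_gseq {n : ℕ} {l : List (G Γ)} (h : ∀ g ∈ l, Bnd n g) : Bnd n (gseq l) := by
  induction l with
  | nil => exact bnd_out n []
  | cons g l ih => exact (h g (by simp)).seq (ih fun g' hg' => h g' (by simp [hg']))

theorem eval_gseq (l : List (G Γ)) (N : ℕ) (x : List Γ) (env : Vr → ℕ) :
    (gseq l).eval N x env = l.flatMap fun g => g.eval N x env := by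
  induction l with
  | nil => rfl
  | cons g l ih => simp only [gseq, Gen.eval, ih, List.flatMap_cons]

/-- Distinction by the input symbol number `v`. -/
def caseSym [Fintype Γ] (v : Vr) (f : Option Γ → G Γ) (l : List (Option Γ)) : G Γ :=
  match l with
  | [] => .out []
  | s :: l => .ite (.sym v s) (f s) (caseSym v f l)

theorem bnd_caseSym [Fintype Γ] {n : ℕ} {v : Vr} {f : Option Γ → G Γ} {l : List (Option Γ)}
    (h : ∀ s, Bnd n (f s)) : Bnd n (caseSym v f l) := by
  induction l with
  | nil => exact bnd_out n []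
  | cons s l ih => exact (h s).ite ih

theorem eval_caseSym [Fintype Γ] (v : Vr) (f : Option Γ → G Γ) (l : List (Option Γ)) (N : ℕ)
    (x : List Γ) (env : Vr → ℕ) (h : x[env v]? ∈ l) :
    (caseSym v f l).eval N x env = (f (x[env v]?)).eval N x env := by
  classical
  induction l with
  | nil => simp at h
  | cons s l ih =>
    simp only [caseSym, Gen.eval, Test.eval]
    by_cases hs : x[env v]? = s
    · simp only [hs, decide_true, cond_true]
    · simp only [hs, decide_false, cond_false]
      rcases List.mem_cons.1 h with h | h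
      · exact absurd h hs
      · exact ih h

/-- Letters without positions. -/
inductive SL (A : ASM) : Type
  | start : SL A
  | fin : SL A
  | l (x : A.F) : SL A

/-- Places without positions. -/
inductive SP (A : ASM) : Type
  | e (o : Option A.E) : SP A
  | d (o : Option A.D) : SP A

/-- The letter at the position `j`. -/
def SL.at (j : ℕ) : SL A → A.NL
  | .start => .start
  | .fin => .fin
  | .l x => .l j x

/-- The place at the position `m`. -/
def SP.at (m : ℕ) : SP A → A.NX
  | .e o => .e o
  | .d o => .d m o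

/-- For all places. -/
noncomputable def gAllP (g : SP A → G Γ) (u : Vr) : G Γ :=
  .seq (gseq ((LL (Option A.E)).map fun o => g (.e o)))
    (.loop u (gseq ((LL (Option A.D)).map fun o => g (.d o))))

theorem bnd_gAllP {g : SP A → G Γ} {u : Vr} (h : ∀ p, Bnd u.lev (g p)) :
    Bnd (u.lev + 1) (gAllP g u) := by
  refine Bnd.seq (Bnd.mono (bnd_gseq ?_) (Nat.le_succ _)) (Bnd.loop (bnd_gseq ?_))
  · intro g' hg'
    obtain ⟨o, _, rfl⟩ := List.mem_map.1 hg'
    exact h _
  · intro g' hg'
    obtain ⟨o, _, rfl⟩ := List.mem_map.1 hg'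
    exact h _

theorem eval_gAllP (g : SP A → G Γ) (u : Vr) (N : ℕ) (x : List Γ) (env : Vr → ℕ)
    (h : A.NX → List Tok)
    (hg : ∀ p i, (g p).eval N x (Function.update env u i) = h (p.at i)) :
    (gAllP g u).eval N x env = (A.rawLX N).flatMap h := by
  have h1 : ∀ o, (g (.e o)).eval N x env = h (.e o) := by
    intro o
    have := hg (.e o) (env u)
    rwa [Function.update_eq_self] at this
  simp only [gAllP, Gen.eval, eval_gseq, rawLX, List.flatMap_append, List.flatMap_map,
    List.flatMap_assoc, h1, hg]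
  rfl

/-- For all letters other than `fin`. -/
noncomputable def gNB (g : SL A → G Γ) (u : Vr) : G Γ :=
  .seq (g .start) (.loop u (gseq ((LL A.F).map fun x => g (.l x))))

/-- For all letters. -/
noncomputable def gLB (g : SL A → G Γ) (u : Vr) : G Γ := .seq (g .fin) (gNB g u)

theorem bnd_gNB {g : SL A → G Γ} {u : Vr} (h : ∀ p, Bnd u.lev (g p)) :
    Bnd (u.lev + 1) (gNB g u) := by
  refine Bnd.seq ((h _).mono (Nat.le_succ _)) (Bnd.loop (bnd_gseq ?_))
  intro g' hg'
  obtain ⟨o, _, rfl⟩ := List.mem_map.1 hg'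
  exact h _

theorem bnd_gLB {g : SL A → G Γ} {u : Vr} (h : ∀ p, Bnd u.lev (g p)) :
    Bnd (u.lev + 1) (gLB g u) :=
  Bnd.seq ((h _).mono (Nat.le_succ _)) (bnd_gNB h)

theorem eval_gNB (g : SL A → G Γ) (u : Vr) (N : ℕ) (x : List Γ) (env : Vr → ℕ)
    (h : A.NL → List Tok)
    (hg : ∀ b i, (g b).eval N x (Function.update env u i) = h (b.at i)) :
    (gNB g u).eval N x env = (A.rawNB N).flatMap h := by
  have h1 : (g .start).eval N x env = h .start := by
    have := hg .start (env u)
    rwa [Function.update_eq_self] at this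
  simp only [gNB, Gen.eval, eval_gseq, rawNB, List.flatMap_cons, List.flatMap_map,
    List.flatMap_assoc, h1, hg]
  rfl

theorem eval_gLB (g : SL A → G Γ) (u : Vr) (N : ℕ) (x : List Γ) (env : Vr → ℕ)
    (h : A.NL → List Tok)
    (hg : ∀ b i, (g b).eval N x (Function.update env u i) = h (b.at i)) :
    (gLB g u).eval N x env = (A.rawLB N).flatMap h := by
  have h1 : (g .fin).eval N x env = h .fin := by
    have := hg .fin (env u)
    rwa [Function.update_eq_self] at this
  simp only [gLB, Gen.eval, rawLB, List.flatMap_cons, h1, eval_gNB g u N x env h hg]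

/-- The number of a letter. -/
noncomputable def gNum (u : Vr) : SL A → G Γ
  | .start => .out (codeNat 4)
  | .fin => .out (codeNat 5)
  | .l x => .seq (.out (List.replicate (6 + num x) .i))
      (.seq (.rep u (List.replicate (Fintype.card A.F) .i)) (.out [.e]))

theorem bnd_gNum (n : ℕ) (u : Vr) (b : SL A) : Bnd n (gNum u b : G Γ) := by
  cases b with
  | start => exact bnd_out _ _
  | fin => exact bnd_out _ _
  | l x => exact (bnd_out _ _).seq ((bnd_rep _ _ _).seq (bnd_out _ _))

theorem flatten_replicate_replicate {X : Type} (a b : ℕ) (x : X) :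
    (List.replicate a (List.replicate b x)).flatten = List.replicate (a * b) x := by
  induction a with
  | zero => simp
  | succ a ih => rw [List.replicate_succ, List.flatten_cons, ih, ← List.replicate_add]; congr 1; ring

theorem eval_gNum (u : Vr) (b : SL A) (N : ℕ) (x : List Γ) (env : Vr → ℕ) :
    (gNum u b).eval N x env = codeNat (4 + A.numNL (b.at (env u))) := by
  cases b with
  | start => rfl
  | fin => rfl
  | l y =>
    simp only [gNum, Gen.eval, SL.at, numNL, codeNat, flatten_replicate_replicate]
    rw [← List.append_assoc, ← List.replicate_add]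
    congr 2
    ring

/-- The variable at a place. -/
noncomputable def gVar (u : Vr) : SP A → G Γ
  | .e o => .out (cV (2 + 2 * num o))
  | .d o => .seq (.out (.v :: List.replicate (2 + 2 * (Fintype.card (Option A.E) + num o)) .i))
      (.seq (.rep u (List.replicate (2 * Fintype.card (Option A.D)) .i)) (.out [.e]))

theorem bnd_gVar (n : ℕ) (u : Vr) (p : SP A) : Bnd n (gVar u p : G Γ) := by
  cases p with
  | e o => exact bnd_out _ _
  | d o => exact (bnd_out _ _).seq ((bnd_rep _ _ _).seq (bnd_out _ _))

theorem eval_gVar (u : Vr) (p : SP A) (N : ℕ) (x : List Γ) (env : Vr → ℕ) :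
    (gVar u p).eval N x env = cV (2 + 2 * A.numNX (p.at (env u))) := by
  cases p with
  | e o => rfl
  | d o =>
    simp only [gVar, Gen.eval, SP.at, numNX, cV, codeNat, flatten_replicate_replicate,
      List.cons_append]
    rw [← List.append_assoc, ← List.replicate_add]
    congr 3
    ring

/-- A constant or the variable at a place. -/
noncomputable def gItem (u : Vr) (o : Option (Fin 4)) (p : SP A) : G Γ :=
  match o with
  | some c => .out (cC c.1)
  | none => gVar u p

theorem bnd_gItem (n : ℕ) (u : Vr) (o : Option (Fin 4)) (p : SP A) :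
    Bnd n (gItem u o p : G Γ) := by
  cases o with
  | none => exact bnd_gVar _ _ _
  | some c => exact bnd_out _ _

theorem eval_gItem (u : Vr) (o : Option (Fin 4)) (p : SP A) (N : ℕ) (x : List Γ)
    (env : Vr → ℕ) :
    (gItem u o p).eval N x env = item o (2 + 2 * A.numNX (p.at (env u))) := by
  cases o with
  | none => exact eval_gVar _ _ _ _ _
  | some c => rfl

/-- A flat pattern. -/
noncomputable def gF (u : Vr) (b : SL A) (z1 z2 : Option (Fin 4)) (gx : SP A → G Γ)
    (py : Option (Fin 4)) : G Γ :=
  .seq (.out [.f]) (.seq (gNum u b) (.seq (.out (item z1 0 ++ item z2 1)) (.seq (gAllP gx .w)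
    (.out ((LL A.C).flatMap (fun k => item py (3 + 2 * num k)) ++ [.c])))))

theorem bnd_gF {u : Vr} {b : SL A} {z1 z2 : Option (Fin 4)} {gx : SP A → G Γ}
    {py : Option (Fin 4)} (h : ∀ p, Bnd 0 (gx p)) : Bnd 1 (gF u b z1 z2 gx py) :=
  (bnd_out _ _).seq ((bnd_gNum _ _ _).seq ((bnd_out _ _).seq
    ((bnd_gAllP (u := .w) h).seq (bnd_out _ _))))

theorem eval_gF (u : Vr) (b : SL A) (z1 z2 : Option (Fin 4)) (gx : SP A → G Γ)
    (py : Option (Fin 4)) (px : A.NX → Option (Fin 4)) (N : ℕ) (x : List Γ) (env : Vr → ℕ)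
    (h : ∀ p i, (gx p).eval N x (Function.update env .w i) =
      item (px (p.at i)) (2 + 2 * A.numNX (p.at i))) :
    (gF u b z1 z2 gx py).eval N x env = cF N (b.at (env u)) z1 z2 px py := by
  have h1 := eval_gAllP gx .w N x env (fun v => item (px v) (2 + 2 * A.numNX v)) h
  simp only [gF, Gen.eval, eval_gNum, h1, cF]
  simp only [List.append_assoc, List.cons_append, List.nil_append]

/-! ### The rules of the first three kinds -/

open Classical in
/-- The places in the first rule. -/
noncomputable def gx1 [Fintype Γ] (cellOf : Option Γ → A.D) : SL A → SP A → G Γ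
  | .start, .e o => gItem .w (if o = some A.e₀ then none else some 1) (.e o)
  | .start, .d o => caseSym .w (fun s => gItem .w (if o = some (cellOf s) then none else some 1)
      (.d o)) (LL (Option Γ))
  | _, p => gItem .w (some 1) p

theorem bnd_gx1 [Fintype Γ] (cellOf : Option Γ → A.D) (b : SL A) (p : SP A) (n : ℕ) :
    Bnd n (gx1 cellOf b p) := by
  cases b with
  | start =>
    cases p with
    | e o => exact bnd_gItem _ _ _ _
    | d o => exact bnd_caseSym fun s => bnd_gItem _ _ _ _
  | fin => simp only [gx1]; exact bnd_gItem _ _ _ _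
  | l x => simp only [gx1]; exact bnd_gItem _ _ _ _

theorem eval_gx1 [Fintype Γ] (cellOf : Option Γ → A.D) (b : SL A) (p : SP A) (N : ℕ)
    (x : List Γ) (env : Vr → ℕ) (j : ℕ) :
    (gx1 cellOf b p).eval N x env =
      item (if ini (fun m => cellOf (x[m]?)) (b.at j) (p.at (env .w)) = true then none else some 1)
        (2 + 2 * A.numNX (p.at (env .w))) := by
  classical
  cases b with
  | start =>
    cases p with
    | e o =>
      simp only [gx1, eval_gItem, SL.at]
      congr 1
      have h := ini_start_e (A := A) (d₀ := fun m => cellOf (x[m]?)) (o := o)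
      simp only [SP.at]
      by_cases ho : o = some A.e₀
      · rw [if_pos ho, if_pos (h.2 ho)]
      · rw [if_neg ho, if_neg (fun hc => ho (h.1 hc))]
    | d o =>
      simp only [gx1, SL.at]
      rw [eval_caseSym _ _ _ _ _ _ (mem_LL _), eval_gItem]
      congr 1
      have h := ini_start_d (A := A) (d₀ := fun m => cellOf (x[m]?)) (m := env .w) (o := o)
      simp only [SP.at]
      by_cases ho : o = some (cellOf (x[env .w]?))
      · rw [if_pos ho, if_pos (h.2 ho)]
      · rw [if_neg ho, if_neg (fun hc => ho (h.1 hc))]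
  | fin =>
    simp only [gx1, eval_gItem, SL.at]
    rw [if_neg ini_fin_false]
  | l y =>
    simp only [gx1, eval_gItem, SL.at]
    rw [if_neg ini_l_false]

/-- The first rule. -/
noncomputable def gR1 [Fintype Γ] (cellOf : Option Γ → A.D) (b : SL A) : G Γ :=
  .seq (gF .j b (some 0) none (gx1 cellOf b) (some 0)) (.out (cC 0))

theorem bnd_gR1 [Fintype Γ] (cellOf : Option Γ → A.D) (b : SL A) : Bnd 3 (gR1 cellOf b) :=
  ((bnd_gF fun p => bnd_gx1 _ _ _ _).mono (by omega)).seq (bnd_out _ _)

theorem eval_gR1 [Fintype Γ] (cellOf : Option Γ → A.D) (b : SL A) (N : ℕ)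
    (x : List Γ) (env : Vr → ℕ) :
    (gR1 cellOf b).eval N x env = cR1 N (fun m => cellOf (x[m]?)) (b.at (env .j)) ++ cC 0 := by
  simp only [gR1, Gen.eval, cR1]
  congr 1
  refine eval_gF _ _ _ _ _ _ _ _ _ _ fun p i => ?_
  rw [eval_gx1 cellOf b p N x _ (env .j), Function.update_self]

/-- The second rule. -/
noncomputable def gR2 (b : SL A) : G Γ :=
  .seq (gF .j b none (some 0) (gItem .w (some 1)) (some 1)) (.out (cC 0))

theorem bnd_gR2 (b : SL A) : Bnd 3 (gR2 b : G Γ) :=
  ((bnd_gF fun p => bnd_gItem _ _ _ _).mono (by omega)).seq (bnd_out _ _)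

theorem eval_gR2 (b : SL A) (N : ℕ) (x : List Γ) (env : Vr → ℕ) :
    (gR2 b).eval N x env = cR2 N (b.at (env .j)) ++ cC 0 := by
  simp only [gR2, Gen.eval, cR2]
  congr 1
  refine eval_gF _ _ _ _ _ _ _ _ _ _ fun p i => ?_
  rw [eval_gItem, Function.update_self]

/-- The places in the third rule. -/
noncomputable def gx3 : SP A → G Γ
  | .e none => gItem .w (some 0) (.e none : SP A)
  | .e (some e) => gItem .w (some 1) (.e (some e) : SP A)
  | .d none => gItem .w (some 0) (.d none : SP A)
  | .d (some d) => gItem .w (some 1) (.d (some d) : SP A)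

/-- The third rule. -/
noncomputable def gR3 : G Γ :=
  .seq (gF .j (.fin : SL A) (some 3) (some 3) gx3 none) (.out (cC 0))

theorem bnd_gR3 : Bnd 3 (gR3 (A := A) : G Γ) := by
  refine ((bnd_gF fun p => ?_).mono (by omega)).seq (bnd_out _ _)
  cases p with
  | e o => cases o <;> (simp only [gx3]; exact bnd_gItem _ _ _ _)
  | d o => cases o <;> (simp only [gx3]; exact bnd_gItem _ _ _ _)

theorem eval_gR3 (N : ℕ) (x : List Γ) (env : Vr → ℕ) :
    (gR3 (A := A)).eval N x env = cR3 N (A := A) .fin ++ cC 0 := by
  simp only [gR3, Gen.eval, cR3]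
  congr 1
  refine eval_gF _ _ _ _ _ _ _ _ _ _ fun p i => ?_
  cases p with
  | e o =>
    cases o with
    | none => simp only [gx3, eval_gItem, Function.update_self]; rfl
    | some _ => simp only [gx3, eval_gItem, Function.update_self]; rfl
  | d o =>
    cases o with
    | none => simp only [gx3, eval_gItem, Function.update_self]; rfl
    | some _ => simp only [gx3, eval_gItem, Function.update_self]; rfl

/-! ### The rules of the last kind -/

open Classical in
/-- `cell` with a Boolean. -/
noncomputable def cellB (mj : Bool) (x : A.F) (d : A.D) : Option A.D :=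
  bif mj then (if A.old x = d then some (A.new x) else none) else some d

open Classical in
/-- `w = v` with a Boolean for the equality of the positions. -/
noncomputable def sameB (wm : Bool) : SP A → SP A → Bool
  | .e o, .e o' => decide (o' = o)
  | .d o, .d o' => wm && decide (o' = o)
  | _, _ => false

open Classical in
/-- `cont` with Booleans. -/
noncomputable def contB (wm mj : Bool) (x : A.F) : SP A → SP A → Bool
  | .e (some e), .e (some e') => decide (A.ψ e x = some e')
  | .d (some d), .d (some d') => wm && decide (cellB mj x d = some d')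
  | _, _ => false

open Classical in
/-- `wrap` with Booleans. -/
noncomputable def wrapB (wm mj : Bool) (x : A.F) (k : A.C) : SP A → SP A → Bool
  | .e (some e), .e (some e') => decide ((A.ψ e x).bind (fun e' => A.χ e' k) = some (some e'))
  | .d (some d), .d (some d') => wm && decide (cellB mj x d = some d')
  | _, _ => false

open Classical in
/-- `finish` with Booleans. -/
noncomputable def finishB (wm mj : Bool) (x : A.F) (k : A.C) : SP A → SP A → Bool
  | .e (some e), .e none => decide ((A.ψ e x).bind (fun e' => A.χ e' k) = some none)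
  | .d (some d), .d none => wm && decide (cellB mj x d ≠ none)
  | _, _ => false

/-- `tr` with Booleans. -/
noncomputable def trB (z s l wm mj : Bool) : SL A → SP A → A.C → SL A → SP A → Bool
  | .start, v, _, .l _, w => z && sameB wm v w
  | .l x, v, k, .l _, w =>
    bif s then contB wm mj x v w else bif l && z then wrapB wm mj x k v w else false
  | .l x, v, k, .fin, w => bif l then finishB wm mj x k v w else false
  | _, _, _, _, _ => false

theorem cellB_spec (x : A.F) (j m : ℕ) (d : A.D) :
    cell x j m d = cellB (decide (m = j)) x d := by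
  unfold cell cellB
  by_cases h : m = j <;> simp [h]

open Classical in
theorem sameB_spec (v w : SP A) (m i : ℕ) :
    decide (w.at i = v.at m) = sameB (decide (i = m)) v w := by
  rw [Bool.eq_iff_iff]
  cases v <;> cases w <;> simp [SP.at, sameB]

theorem contB_spec (x : A.F) (j m i : ℕ) (v w : SP A) :
    cont x j (v.at m) (w.at i) = contB (decide (i = m)) (decide (m = j)) x v w := by
  rw [Bool.eq_iff_iff]
  cases v with
  | e o => cases w with
    | e o' => cases o <;> cases o' <;> simp [SP.at, cont, contB]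
    | d o' => cases o <;> cases o' <;> simp [SP.at, cont, contB]
  | d o => cases w with
    | e o' => cases o <;> cases o' <;> simp [SP.at, cont, contB]
    | d o' => cases o <;> cases o' <;> simp [SP.at, cont, contB, cellB_spec]

theorem wrapB_spec (x : A.F) (j m i : ℕ) (k : A.C) (v w : SP A) :
    wrap x j k (v.at m) (w.at i) = wrapB (decide (i = m)) (decide (m = j)) x k v w := by
  rw [Bool.eq_iff_iff]
  cases v with
  | e o => cases w with
    | e o' => cases o <;> cases o' <;> simp [SP.at, wrap, wrapB]
    | d o' => cases o <;> cases o' <;> simp [SP.at, wrap, wrapB]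
  | d o => cases w with
    | e o' => cases o <;> cases o' <;> simp [SP.at, wrap, wrapB]
    | d o' => cases o <;> cases o' <;> simp [SP.at, wrap, wrapB, cellB_spec]

theorem finishB_spec (x : A.F) (j m i : ℕ) (k : A.C) (v w : SP A) :
    finish x j k (v.at m) (w.at i) = finishB (decide (i = m)) (decide (m = j)) x k v w := by
  rw [Bool.eq_iff_iff]
  cases v with
  | e o => cases w with
    | e o' => cases o <;> cases o' <;> simp [SP.at, finish, finishB]
    | d o' => cases o <;> cases o' <;> simp [SP.at, finish, finishB]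
  | d o => cases w with
    | e o' => cases o <;> cases o' <;> simp [SP.at, finish, finishB]
    | d o' => cases o <;> cases o' <;> simp [SP.at, finish, finishB, cellB_spec]

theorem trB_spec (N : ℕ) (j i m w : ℕ) (b : SL A) (v : SP A) (k : A.C) (b' : SL A) (p : SP A) :
    tr N (b.at j) (v.at m) k (b'.at i) (p.at w) =
      trB (decide (i = 0)) (decide (j + 1 = i)) (decide (j + 1 = N)) (decide (w = m))
        (decide (m = j)) b v k b' p := by
  cases b with
  | start =>
    cases b' with
    | start => simp [SL.at, tr, trB]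
    | fin => simp [SL.at, tr, trB]
    | l x' =>
      simp only [SL.at, tr, trB]
      rw [← sameB_spec]
  | fin => cases b' <;> simp [SL.at, tr, trB]
  | l x =>
    cases b' with
    | start => simp [SL.at, tr, trB]
    | fin =>
      simp only [SL.at, tr, trB, finishB_spec]
      by_cases h : j + 1 = N <;> simp [h]
    | l x' =>
      simp only [SL.at, tr, trB, contB_spec, wrapB_spec]
      by_cases h : i = j + 1
      · have h' : j + 1 = i := h.symm
        simp only [h, if_true, decide_true, cond_true]
      · have h' : ¬ j + 1 = i := fun hc => h hc.symm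
        rw [if_neg h]
        simp only [h', decide_false, cond_false]
        by_cases h2 : j + 1 = N
        · by_cases h3 : i = 0
          · rw [if_pos ⟨h2, h3⟩]; simp [h2, h3]
          · rw [if_neg (by tauto)]; simp [h3]
        · rw [if_neg (by tauto)]; simp [h2]

/-- Distinction by the five Booleans. -/
def g5 (f : Bool → Bool → Bool → Bool → Bool → G Γ) : G Γ :=
  .ite (.zero .i) (h1 true) (h1 false)
where
  h1 (z : Bool) : G Γ := .ite (.succ .j .i) (h2 z true) (h2 z false)
  h2 (z s : Bool) : G Γ := .ite (.last .j) (h3 z s true) (h3 z s false)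
  h3 (z s l : Bool) : G Γ := .ite (.eq .w .m) (h4 z s l true) (h4 z s l false)
  h4 (z s l wm : Bool) : G Γ := .ite (.eq .m .j) (f z s l wm true) (f z s l wm false)

theorem bnd_g5 {n : ℕ} {f : Bool → Bool → Bool → Bool → Bool → G Γ}
    (h : ∀ z s l wm mj, Bnd n (f z s l wm mj)) : Bnd n (g5 f) := by
  unfold g5 g5.h1 g5.h2 g5.h3 g5.h4
  exact ((((h _ _ _ _ _).ite (h _ _ _ _ _)).ite ((h _ _ _ _ _).ite (h _ _ _ _ _))).ite
    (((h _ _ _ _ _).ite (h _ _ _ _ _)).ite ((h _ _ _ _ _).ite (h _ _ _ _ _)))).ite
    ((((h _ _ _ _ _).ite (h _ _ _ _ _)).ite ((h _ _ _ _ _).ite (h _ _ _ _ _))).ite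
    (((h _ _ _ _ _).ite (h _ _ _ _ _)).ite ((h _ _ _ _ _).ite (h _ _ _ _ _)))) |>.ite
    (((((h _ _ _ _ _).ite (h _ _ _ _ _)).ite ((h _ _ _ _ _).ite (h _ _ _ _ _))).ite
    (((h _ _ _ _ _).ite (h _ _ _ _ _)).ite ((h _ _ _ _ _).ite (h _ _ _ _ _)))).ite
    ((((h _ _ _ _ _).ite (h _ _ _ _ _)).ite ((h _ _ _ _ _).ite (h _ _ _ _ _))).ite
    (((h _ _ _ _ _).ite (h _ _ _ _ _)).ite ((h _ _ _ _ _).ite (h _ _ _ _ _)))))

theorem eval_g5 (f : Bool → Bool → Bool → Bool → Bool → G Γ) (N : ℕ) (x : List Γ)
    (env : Vr → ℕ) : (g5 f).eval N x env =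
      (f (decide (env .i = 0)) (decide (env .j + 1 = env .i)) (decide (env .j + 1 = N))
        (decide (env .w = env .m)) (decide (env .m = env .j))).eval N x env := by
  unfold g5 g5.h1 g5.h2 g5.h3 g5.h4
  simp only [Gen.eval, Test.eval]
  generalize decide (env .i = 0) = b1
  generalize decide (env .j + 1 = env .i) = b2
  generalize decide (env .j + 1 = N) = b3
  generalize decide (env .w = env .m) = b4
  generalize decide (env .m = env .j) = b5
  cases b1 <;> cases b2 <;> cases b3 <;> cases b4 <;> cases b5 <;> rfl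

open Classical in
/-- The places of a left-hand side of the last kind. -/
noncomputable def gOut (v : SP A) : SP A → G Γ := fun p =>
  match v, p with
  | .e o, .e o' => .out (if o' = o then cC 0 else cC 1)
  | .d o, .d o' => .ite (.eq .w .m) (.out (if o' = o then cC 0 else cC 1)) (.out (cC 1))
  | _, _ => .out (cC 1)

theorem bnd_gOut (n : ℕ) (v p : SP A) : Bnd n (gOut v p : G Γ) := by
  cases v <;> cases p
  · exact bnd_out _ _
  · exact bnd_out _ _
  · exact bnd_out _ _
  · exact (bnd_out _ _).ite (bnd_out _ _)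

open Classical in
theorem eval_gOut (v p : SP A) (N : ℕ) (x : List Γ) (env : Vr → ℕ) :
    (gOut v p).eval N x env = if p.at (env .w) = v.at (env .m) then cC 0 else cC 1 := by
  cases v with
  | e o =>
    cases p with
    | e o' => simp [gOut, Gen.eval, SP.at]
    | d o' => simp [gOut, Gen.eval, SP.at]
  | d o =>
    cases p with
    | e o' => simp [gOut, Gen.eval, SP.at]
    | d o' =>
      simp only [gOut, Gen.eval, SP.at, Test.eval]
      by_cases h : env .w = env .m
      · simp [h]
      · simp [h]

/-- The places of the inner pattern. -/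
noncomputable def gIn (b : SL A) (v : SP A) (k : A.C) (b' : SL A) (p : SP A) : G Γ :=
  g5 fun z s l wm mj => gItem .w (if trB z s l wm mj b v k b' p then none else some 1) p

theorem bnd_gIn (n : ℕ) (b : SL A) (v : SP A) (k : A.C) (b' : SL A) (p : SP A) :
    Bnd n (gIn b v k b' p : G Γ) := bnd_g5 fun _ _ _ _ _ => bnd_gItem _ _ _ _

theorem eval_gIn (b : SL A) (v : SP A) (k : A.C) (b' : SL A) (p : SP A) (N : ℕ) (x : List Γ)
    (env : Vr → ℕ) : (gIn b v k b' p).eval N x env =
      item (if tr N (b.at (env .j)) (v.at (env .m)) k (b'.at (env .i)) (p.at (env .w)) then none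
        else some 1) (2 + 2 * A.numNX (p.at (env .w))) := by
  simp only [gIn, eval_g5, eval_gItem, trB_spec]

open Classical in
/-- The rules of the last kind. -/
noncomputable def gL (b b' : SL A) (v : SP A) (k : A.C) : G Γ :=
  .seq (.out [.f]) (.seq (gNum .j b) (.seq (.out (cC 1 ++ cC 1)) (.seq (gAllP (gOut v) .w)
    (.seq (gseq ((LL A.C).map fun l => if l = k then
      gF .i b' (some 2) (some 2) (gIn b v k b') (some 2) else .out (cC 3)))
      (.out ([.c] ++ cC 0))))))

theorem bnd_gL (b b' : SL A) (v : SP A) (k : A.C) : Bnd 1 (gL b b' v k : G Γ) := by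
  refine (bnd_out _ _).seq ((bnd_gNum _ _ _).seq ((bnd_out _ _).seq
    ((bnd_gAllP (u := .w) fun p => bnd_gOut _ _ _).seq (Bnd.seq (bnd_gseq ?_) (bnd_out _ _)))))
  intro g hg
  obtain ⟨l, _, rfl⟩ := List.mem_map.1 hg
  split_ifs
  · exact bnd_gF fun p => bnd_gIn _ _ _ _ _ _
  · exact bnd_out _ _

theorem eval_gL (b b' : SL A) (v : SP A) (k : A.C) (N : ℕ) (x : List Γ) (env : Vr → ℕ) :
    (gL b b' v k).eval N x env =
      cL N (b.at (env .j)) (v.at (env .m)) k (b'.at (env .i)) ++ cC 0 := by
  classical
  have h1 := eval_gAllP (gOut v) .w N x env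
    (fun w => if w = v.at (env .m) then cC 0 else cC 1) (by
      intro p i
      rw [eval_gOut]
      simp only [Function.update_self]
      rfl)
  have h2 := eval_gF .i b' (some 2) (some 2) (gIn b v k b') (some 2)
    (fun w => if tr N (b.at (env .j)) (v.at (env .m)) k (b'.at (env .i)) w then none else some 1)
    N x env (by
      intro p i
      rw [eval_gIn]
      rfl)
  simp only [gL, Gen.eval, eval_gNum, h1, eval_gseq, List.flatMap_map, cL]
  have h3 : ∀ l : A.C, (if l = k then gF .i b' (some 2) (some 2) (gIn b v k b') (some 2)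
      else .out (cC 3) : G Γ).eval N x env = if l = k then cF N (b'.at (env .i)) (some 2) (some 2)
      (fun w => if tr N (b.at (env .j)) (v.at (env .m)) k (b'.at (env .i)) w then none
        else some 1) (some 2) else cC 3 := by
    intro l
    split_ifs
    · exact h2
    · rfl
  simp only [h3, List.append_assoc, List.cons_append, List.nil_append]

/-- The generator for the code of the rewriting system. -/
noncomputable def gAll [Fintype Γ] (cellOf : Option Γ → A.D) : G Γ :=
  .seq (gLB (gR1 cellOf) .j) (.seq (gLB (A := A) gR2 .j) (.seq (gR3 (A := A))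
    (gNB (fun b => gLB (fun b' => gAllP (fun v => gseq ((LL A.C).map fun k => gL b b' v k)) .m)
      .i) .j)))

theorem wf_gAll [Fintype Γ] (cellOf : Option Γ → A.D) : (gAll cellOf).WF := by
  have h : Bnd 4 (gAll cellOf) := by
    refine Bnd.seq (bnd_gLB (u := .j) fun b => bnd_gR1 _ _) (Bnd.seq (bnd_gLB (u := .j)
      fun b => bnd_gR2 _) (Bnd.seq (bnd_gR3.mono (by decide)) (bnd_gNB (u := .j) fun b =>
        bnd_gLB (u := .i) fun b' => bnd_gAllP (u := .m) fun v => bnd_gseq ?_)))
    intro g hg
    obtain ⟨k, _, rfl⟩ := List.mem_map.1 hg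
    exact bnd_gL _ _ _ _
  exact h.1

theorem eval_gAll [Fintype Γ] (cellOf : Option Γ → A.D) (N : ℕ) (x : List Γ) (env : Vr → ℕ) :
    (gAll cellOf).eval N x env = (A.rules N (fun m => cellOf (x[m]?))).code := by
  rw [code_rules]
  simp only [gAll, Gen.eval]
  congr 1
  · refine eval_gLB _ _ _ _ _ _ fun b i => ?_
    rw [eval_gR1, Function.update_self]
  congr 1
  · refine eval_gLB _ _ _ _ _ _ fun b i => ?_
    rw [eval_gR2, Function.update_self]
  congr 1
  · exact eval_gR3 _ _ _
  refine eval_gNB _ _ _ _ _ _ fun b j => ?_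
  refine eval_gLB _ _ _ _ _ _ fun b' i => ?_
  refine eval_gAllP _ _ _ _ _ _ fun v m => ?_
  rw [eval_gseq, List.flatMap_map]
  refine flatMap_congr' fun k _ => ?_
  rw [eval_gL]
  simp [Function.update_of_ne]

end gen

end ASM

end Pool.Agent.Lib.MP_ce3b04_lc
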