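import Pool.Agent.Lib.MP_ce3b04_lc.Converse

/-!
# The gadget is orthogonal; its size
-/

open Relation

namespace Pool.Agent.Lib.MP_ce3b04_lc

namespace Sys

variable {M : Sys}

theorem vars_cst (c : Fin 4) : (M.cst c).vars = 0 := by
  simp only [cst, Term.vars]
  exact Finset.sum_eq_zero (fun e _ => nomatch e)

theorem nodup_flat (b : M.B) (f : M.Slot b → Option (Fin 4)) : (flat b f).vars.Nodup := by
  classical
  have h0 : ∀ (s : M.Slot b) (o : Option (Fin 4)),
      (match o with | some c => M.cst c | none => Term.var (idx s) : Term M.sig).vars =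
        if o = none then ({idx s} : Multiset ℕ) else 0 := by
    intro s o
    cases o with
    | none => rfl
    | some c => simp only [reduceCtorEq, if_false]; exact vars_cst c
  have h1 : (flat b f).vars = ∑ s : M.Slot b, if f s = none then ({idx s} : Multiset ℕ) else 0 :=
    Finset.sum_congr rfl fun s _ => h0 s (f s)
  rw [h1, ← Finset.sum_filter]
  have h2 : ∑ s ∈ Finset.univ.filter (fun s : M.Slot b => f s = none), ({idx s} : Multiset ℕ)
      = (Finset.univ.filter (fun s : M.Slot b => f s = none)).val.map idx := by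
    rw [Finset.sum]
    have : (fun s : M.Slot b => ({idx s} : Multiset ℕ)) = (fun n => {n}) ∘ idx := rfl
    rw [this, ← Multiset.map_map, Multiset.sum_map_singleton]
  rw [h2]
  exact (Finset.nodup _).map (fun s s' h => idx_inj h)

theorem vars_lhsC (b : M.B) (v : M.X) (k : M.Ch b) (b' : M.B) :
    (M.lhsC b v k b').vars = (flat b' (fP b' (M.T b v k b'))).vars := by
  classical
  change ∑ s : M.Slot b, _ = _
  rw [Finset.sum_eq_single (Slot.y k)]
  · simp
  · intro s _ hs
    cases s with
    | z₁ => exact vars_cst 1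
    | z₂ => exact vars_cst 1
    | x w => simp only; split_ifs <;> exact vars_cst _
    | y l =>
      have hl : l ≠ k := by rintro rfl; exact hs rfl
      simp only [hl, if_false]
      exact vars_cst 3
  · intro h; exact absurd (Finset.mem_univ _) h

theorem leftLinear : M.trs.LeftLinear := by
  intro ρ
  cases ρ with
  | r₁ b => exact nodup_flat _ _
  | r₂ b => exact nodup_flat _ _
  | r₃ b h => exact nodup_flat _ _
  | rC b h v k b' =>
    change (M.lhsC b v k b').vars.Nodup
    rw [vars_lhsC]
    exact nodup_flat _ _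

/-- A term is an instance of at most one left-hand side. -/
theorem rule_unique {ρ₁ ρ₂ : M.RuleIdx} {σ τ : ℕ → Term M.sig}
    (h : (M.lhs ρ₁).subst σ = (M.lhs ρ₂).subst τ) : ρ₁ = ρ₂ := by
  classical
  -- heads and matching conditions
  have main : ∀ (b : M.B) (a : M.Slot b → Term M.sig) (ρ₁ ρ₂ : M.RuleIdx) (σ τ : ℕ → Term M.sig),
      node b a = (M.lhs ρ₁).subst σ → node b a = (M.lhs ρ₂).subst τ → ρ₁ = ρ₂ := by
    intro b a
    obtain ⟨k₀⟩ := M.neCh b
    have inv : ∀ (ρ : M.RuleIdx) (σ : ℕ → Term M.sig), node b a = (M.lhs ρ).subst σ →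
        (ρ = .r₁ b ∧ MatchF b (M.f₁ b) a) ∨ (ρ = .r₂ b ∧ MatchF b (M.f₂ b) a) ∨
        (∃ h, ρ = .r₃ b h ∧ MatchF b (M.f₃ b) a) ∨
        ∃ h v k b', ρ = .rC b h v k b' ∧ MatchC b v k b' a := by
      intro ρ σ h
      cases ρ with
      | r₁ b' =>
        obtain ⟨a', h1, h2⟩ := exists_subst_flat.1 ⟨σ, h⟩
        have h3 := node_head h1; subst h3
        have h4 := node_inj h1; subst h4
        exact Or.inl ⟨rfl, h2⟩
      | r₂ b' =>
        obtain ⟨a', h1, h2⟩ := exists_subst_flat.1 ⟨σ, h⟩
        have h3 := node_head h1; subst h3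
        have h4 := node_inj h1; subst h4
        exact Or.inr (Or.inl ⟨rfl, h2⟩)
      | r₃ b' hb =>
        obtain ⟨a', h1, h2⟩ := exists_subst_flat.1 ⟨σ, h⟩
        have h3 := node_head h1; subst h3
        have h4 := node_inj h1; subst h4
        exact Or.inr (Or.inr (Or.inl ⟨hb, rfl, h2⟩))
      | rC b'' hb v k b' =>
        obtain ⟨a', h1, h2⟩ := exists_subst_lhsC.1 ⟨σ, h⟩
        have h3 := node_head h1; subst h3
        have h4 := node_inj h1; subst h4
        exact Or.inr (Or.inr (Or.inr ⟨hb, v, k, b', rfl, h2⟩))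
    have dis : ∀ c c' : Fin 4, c ≠ c' → ∀ s, a s = M.cst c → a s = M.cst c' → False := by
      intro c c' hc s h1 h2
      exact hc (cst_inj (h1.symm.trans h2))
    intro ρ₁ ρ₂ σ τ h1 h2
    rcases inv ρ₁ σ h1 with ⟨rfl, g1⟩ | ⟨rfl, g1⟩ | ⟨hb, rfl, g1⟩ | ⟨hb, v, k, b', rfl, g1⟩ <;>
    rcases inv ρ₂ τ h2 with ⟨rfl, g2⟩ | ⟨rfl, g2⟩ | ⟨hb', rfl, g2⟩ | ⟨hb', v', k', b'', rfl, g2⟩
    · rfl
    · exact (dis 0 1 (by decide) _ (g1 (.y k₀) 0 rfl) (g2 (.y k₀) 1 rfl)).elim
    · exact (dis 0 3 (by decide) _ (g1 .z₁ 0 rfl) (g2 .z₁ 3 rfl)).elim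
    · exact (dis 0 1 (by decide) _ (g1 .z₁ 0 rfl) g2.1).elim
    · exact (dis 1 0 (by decide) _ (g1 (.y k₀) 1 rfl) (g2 (.y k₀) 0 rfl)).elim
    · rfl
    · exact (dis 0 3 (by decide) _ (g1 .z₂ 0 rfl) (g2 .z₂ 3 rfl)).elim
    · exact (dis 0 1 (by decide) _ (g1 .z₂ 0 rfl) g2.2.1).elim
    · exact (dis 3 0 (by decide) _ (g1 .z₁ 3 rfl) (g2 .z₁ 0 rfl)).elim
    · exact (dis 3 0 (by decide) _ (g1 .z₂ 3 rfl) (g2 .z₂ 0 rfl)).elim
    · rfl
    · rw [hb] at hb'; cases hb'
    · exact (dis 1 0 (by decide) _ g1.1 (g2 .z₁ 0 rfl)).elim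
    · exact (dis 1 0 (by decide) _ g1.2.1 (g2 .z₂ 0 rfl)).elim
    · rw [hb] at hb'; cases hb'
    · have hv : v = v' := by
        by_contra hv
        exact dis 0 1 (by decide) _ g1.2.2.1 (g2.2.2.2.1 v hv)
      subst hv
      obtain ⟨_, _, _, _, g3, a₁, g4, _⟩ := g1
      obtain ⟨_, _, _, _, g5, a₂, g6, _⟩ := g2
      have hk : k = k' := by
        by_contra hk
        have := g5 k hk
        rw [g4] at this
        exact cst_ne_node this.symm
      subst hk
      have := node_head (g4.symm.trans g6)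
      subst this
      rfl
  have hnode : ∃ b a, (M.lhs ρ₁).subst σ = node b a := by
    cases ρ₁ with
    | r₁ b => exact ⟨b, _, rfl⟩
    | r₂ b => exact ⟨b, _, rfl⟩
    | r₃ b h => exact ⟨b, _, rfl⟩
    | rC b h v k b' => exact ⟨b, _, rfl⟩
  obtain ⟨b, a, hn⟩ := hnode
  exact main b a ρ₁ ρ₂ σ τ hn.symm (by rw [← h]; exact hn.symm)

theorem fill_cst {c : Fin 4} {C : Ctx M.sig} {u : Term M.sig} (h : M.cst c = C.fill u) :
    u = M.cst c := by
  cases C with
  | hole => exact h.symm
  | arg f a i C =>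
    exfalso
    have h' : Term.app (S := M.sig) (Sum.inl c) _ = Term.app f _ := h
    obtain ⟨h1, _⟩ := Term.app.inj h'
    subst h1
    exact nomatch i

theorem fill_var {n : ℕ} {C : Ctx M.sig} {u : Term M.sig} (h : Term.var n = C.fill u) :
    u = .var n := by
  cases C with
  | hole => exact h.symm
  | arg f a i C => cases h

/-- A subterm of a flat pattern that is not a variable and has a letter at the root is the whole
pattern. -/
theorem fill_flat {b : M.B} {f : M.Slot b → Option (Fin 4)} {C : Ctx M.sig} {u : Term M.sig}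
    (h : flat b f = C.fill u) (hu : ∀ n, u ≠ .var n) {σ : ℕ → Term M.sig} {b' : M.B}
    {a' : M.Slot b' → Term M.sig} (hσ : u.subst σ = node b' a') : C = .hole := by
  rcases fill_eq_node h with h | ⟨s, C', h1, _⟩
  · exact h
  · exfalso
    cases hs : f s with
    | none =>
      simp only [hs] at h1
      exact hu _ (fill_var h1)
    | some c =>
      simp only [hs] at h1
      rw [fill_cst h1, subst_cst] at hσ
      exact cst_ne_node hσ

theorem not_cst_inst {c : Fin 4} {C : Ctx M.sig} {u : Term M.sig} (h : M.cst c = C.fill u)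
    {σ : ℕ → Term M.sig} {b : M.B} {a : M.Slot b → Term M.sig} (hu : u.subst σ = node b a) :
    False := by
  rw [fill_cst h, subst_cst] at hu
  exact cst_ne_node hu

theorem nonOverlapping : M.trs.NonOverlapping := by
  classical
  intro ρ₁ ρ₂ C u h1 h2 h3 σ τ h4
  have hnode : ∃ b a, (M.lhs ρ₂).subst τ = node b a := by
    cases ρ₂ with
    | r₁ b => exact ⟨b, _, rfl⟩
    | r₂ b => exact ⟨b, _, rfl⟩
    | r₃ b h => exact ⟨b, _, rfl⟩
    | rC b h v k b' => exact ⟨b, _, rfl⟩
  obtain ⟨b, a, hn⟩ := hnode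
  have hun : u.subst σ = node b a := h4.trans hn
  have hole : C = .hole → False := by
    intro hC
    subst hC
    have h5 : M.lhs ρ₁ = u := h1
    rcases h3 with h3 | h3
    · exact h3 rfl
    · refine h3 (rule_unique (σ := σ) (τ := τ) ?_)
      rw [h5]; exact h4
  cases ρ₁ with
  | r₁ b₁ => exact hole (fill_flat h1 h2 hun)
  | r₂ b₁ => exact hole (fill_flat h1 h2 hun)
  | r₃ b₁ h => exact hole (fill_flat h1 h2 hun)
  | rC b₁ hb v k b' =>
    rcases fill_eq_node (b := b₁) h1 with h5 | ⟨s, C', h5, _⟩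
    · exact hole h5
    · cases s with
      | z₁ => exact not_cst_inst h5 hun
      | z₂ => exact not_cst_inst h5 hun
      | x w =>
        simp only at h5
        split_ifs at h5 with hw
        · exact not_cst_inst h5 hun
        · exact not_cst_inst h5 hun
      | y l =>
        simp only at h5
        split_ifs at h5 with hl
        · have h6 := fill_flat h5 h2 hun
          subst h6
          have h7 : flat b' (fP b' (M.T b₁ v k b')) = u := h5
          subst h7
          -- `u` has the places `2, 2`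
          obtain ⟨a₁, h8, h9⟩ := exists_subst_flat.1 ⟨σ, rfl⟩
          have h10 : node b' a₁ = (M.lhs ρ₂).subst τ := by rw [← h8]; exact h4
          have q1 : a₁ .z₁ = M.cst 2 := h9 .z₁ 2 rfl
          have q2 : a₁ .z₂ = M.cst 2 := h9 .z₂ 2 rfl
          cases ρ₂ with
          | r₁ b₂ =>
            obtain ⟨a₂, g1, g2⟩ := exists_subst_flat.1 ⟨τ, h10⟩
            have g3 := node_head g1; subst g3
            have g4 := node_inj g1; subst g4
            have := cst_inj (q1.symm.trans (g2 .z₁ 0 rfl))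
            exact absurd this (by decide)
          | r₂ b₂ =>
            obtain ⟨a₂, g1, g2⟩ := exists_subst_flat.1 ⟨τ, h10⟩
            have g3 := node_head g1; subst g3
            have g4 := node_inj g1; subst g4
            have := cst_inj (q2.symm.trans (g2 .z₂ 0 rfl))
            exact absurd this (by decide)
          | r₃ b₂ h =>
            obtain ⟨a₂, g1, g2⟩ := exists_subst_flat.1 ⟨τ, h10⟩
            have g3 := node_head g1; subst g3
            have g4 := node_inj g1; subst g4
            have := cst_inj (q1.symm.trans (g2 .z₁ 3 rfl))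
            exact absurd this (by decide)
          | rC b₂ hb₂ v₂ k₂ b₂' =>
            obtain ⟨a₂, g1, g2⟩ := exists_subst_lhsC.1 ⟨τ, h10⟩
            have g3 := node_head g1; subst g3
            have g4 := node_inj g1; subst g4
            have := cst_inj (q1.symm.trans g2.1)
            exact absurd this (by decide)
        · exact not_cst_inst h5 hun

theorem orthogonal : M.trs.Orthogonal := ⟨leftLinear, nonOverlapping⟩

end Sys

end Pool.Agent.Lib.MP_ce3b04_lc
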