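import Pool.Agent.Lib.MP_ce3b04_lc.Sim
import Pool.Agent.Lib.MP_ce3b04_lc.GenTRS
import Pool.Agent.Lib.MP_ce3b04_lc.Orth
import Pool.Agent.Lib.PolyTM.Main

/-!
# Strong sequentiality is hard for exponential time
-/

open Turing Pool.Agent.Lib.PolyTM

namespace Pool.Agent.Lib.MP_ce3b04_lc

/-! ### All function symbols of the system occur in its rules -/

theorem Naming.mem_syms_root {S : Sig} (N : Naming S) (g : S.Sym) (a : S.Arg g → Term S) :
    (N.ν g, N.len g) ∈ (N.emb (.app g a)).syms := Or.inl rfl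

theorem Naming.mem_syms_arg {S : Sig} (N : Naming S) (g : S.Sym) (a : S.Arg g → Term S)
    (x : S.Arg g) {s : ℕ × ℕ} (h : s ∈ (N.emb (a x)).syms) : s ∈ (N.emb (.app g a)).syms := by
  refine Or.inr ⟨N.idx g x, ?_⟩
  change s ∈ (N.emb (a (N.get g (N.idx g x)))).syms
  rw [N.get_idx]
  exact h

variable {A : ASM}

theorem ASM.hsig (N : ℕ) (d₀ : ℕ → A.D) (f : (A.sys N d₀).sig.Sym) :
    ((A.naming N d₀).ν f, (A.naming N d₀).len f) ∈ (A.rules N d₀).Sig := by
  have hl : ∀ (ρ : (A.sys N d₀).RuleIdx) (s : ℕ × ℕ),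
      s ∈ ((A.naming N d₀).emb ((A.sys N d₀).lhs ρ)).syms → s ∈ (A.rules N d₀).Sig := by
    intro ρ s hs
    exact ⟨_, (A.mem_rules N d₀ _).2 ⟨ρ, rfl⟩, Or.inl hs⟩
  have hr : ∀ (ρ : (A.sys N d₀).RuleIdx) (s : ℕ × ℕ),
      s ∈ ((A.naming N d₀).emb ((A.sys N d₀).cst 0)).syms → s ∈ (A.rules N d₀).Sig := by
    intro ρ s hs
    exact ⟨_, (A.mem_rules N d₀ _).2 ⟨ρ, rfl⟩, Or.inr hs⟩
  let bs : A.LB N := ⟨.start, trivial⟩
  let bf : A.LB N := ⟨.fin, trivial⟩
  rcases f with c | b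
  · fin_cases c
    · exact hr (.r₁ bs) _ (Naming.mem_syms_root _ _ _)
    · obtain ⟨k⟩ := (inferInstance : Nonempty A.C)
      refine hl (.r₂ bs) _ (Naming.mem_syms_arg _ _ _ (Sys.Slot.y k) ?_)
      exact Naming.mem_syms_root _ _ _
    · obtain ⟨k⟩ := (inferInstance : Nonempty A.C)
      refine hl (.rC bs rfl ⟨.e none, trivial⟩ k bs) _
        (Naming.mem_syms_arg _ _ _ (Sys.Slot.y k) ?_)
      simp only
      rw [if_pos trivial]
      refine Naming.mem_syms_arg _ _ _ Sys.Slot.z₁ ?_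
      exact Naming.mem_syms_root _ _ _
    · refine hl (.r₃ bf rfl) _ (Naming.mem_syms_arg _ _ _ Sys.Slot.z₁ ?_)
      exact Naming.mem_syms_root _ _ _
  · exact hl (.r₁ b) _ (Naming.mem_syms_root _ _ _)

theorem ASM.rules_spec (A : ASM) {N : ℕ} (hN : 0 < N) (d₀ : ℕ → A.D) :
    (A.rules N d₀).Orthogonal ∧ ((A.rules N d₀).StronglySequential ↔
      ¬ A.Win A.e₀ ((List.range N).map d₀)) ∧ ((A.rules N d₀).StronglySequentialG ↔
      ¬ A.Win A.e₀ ((List.range N).map d₀)) := by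
  have h1 := A.mem_rules N d₀
  have hne : (List.range N).map d₀ ≠ [] := by
    intro h0
    have := congrArg List.length h0
    simp at this
    omega
  have h2 := stronglySequential_emb (R := (A.sys N d₀).trs) (A.naming N d₀) _ h1
    (ASM.hsig N d₀)
  have h3 : (A.rules N d₀).StronglySequential ↔ ¬ A.Win A.e₀ ((List.range N).map d₀) := by
    rw [h2, A.stronglySequential_iff hN, winS_iff_win hne]
  refine ⟨orthogonal_emb (R := (A.sys N d₀).trs) (A.naming N d₀) _ h1 Sys.orthogonal, h3, ?_, ?_⟩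
  · intro h hW
    exact A.not_stronglySequentialG hN d₀ ((winS_iff_win hne).2 hW)
      (stronglySequentialG_of_emb (R := (A.sys N d₀).trs) (A.naming N d₀) _ h1
        (ASM.hsig N d₀) h)
  · intro h
    exact (h3.2 h).ground

/-- The reduction of the winning problem of a sweeping machine. -/
theorem ASM.reduction (A : ASM) {Γ : Type} [Fintype Γ] (cellOf : Option Γ → A.D) (a : ℕ)
    (ha : 0 < a) : ∃ f : List Γ → Rules,
      Nonempty (TM2ComputableInPolyTime (id : List Γ → List Γ) Rules.code f) ∧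
      ∀ x, (f x).Orthogonal ∧ ((f x).StronglySequential ↔
        ¬ A.Win A.e₀ ((List.range ((x.length + a) ^ a)).map fun m => cellOf (x[m]?))) ∧
        ((f x).StronglySequentialG ↔
        ¬ A.Win A.e₀ ((List.range ((x.length + a) ^ a)).map fun m => cellOf (x[m]?))) := by
  refine ⟨fun x => A.rules ((x.length + a) ^ a) (fun m => cellOf (x[m]?)), ?_, ?_⟩
  · exact gen_polyTime (gAll cellOf) (wf_gAll cellOf) a _ _ (fun x => (eval_gAll cellOf _ x _).symm)
  · intro x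
    exact A.rules_spec (Nat.pow_pos (by omega)) _

/-! ### Polynomial bounds -/

/-- Bounded by `(n + a) ^ a`. -/
def BddPow (f : ℕ → ℕ) : Prop := ∃ a, ∀ n, f n ≤ (n + a) ^ a

theorem pow_le_pow_add (n a c : ℕ) (h : a ≤ c) (hc : 0 < c) : (n + a) ^ a ≤ (n + c) ^ c :=
  (Nat.pow_le_pow_left (Nat.add_le_add_left h n) a).trans
    (Nat.pow_le_pow_right (by omega) h)

theorem BddPow.const (c : ℕ) : BddPow fun _ => c := by
  refine ⟨c + 1, fun n => ?_⟩
  calc c ≤ n + (c + 1) := by omega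
    _ = (n + (c + 1)) ^ 1 := (pow_one _).symm
    _ ≤ (n + (c + 1)) ^ (c + 1) := Nat.pow_le_pow_right (by omega) (by omega)

theorem BddPow.id : BddPow fun n => n := ⟨1, fun n => by simp⟩

theorem BddPow.mul {f g : ℕ → ℕ} (hf : BddPow f) (hg : BddPow g) : BddPow fun n => f n * g n := by
  obtain ⟨a, ha⟩ := hf
  obtain ⟨b, hb⟩ := hg
  refine ⟨a + b + 1, fun n => ?_⟩
  calc f n * g n ≤ (n + a) ^ a * (n + b) ^ b := Nat.mul_le_mul (ha n) (hb n)
    _ ≤ (n + (a + b + 1)) ^ a * (n + (a + b + 1)) ^ b :=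
      Nat.mul_le_mul (Nat.pow_le_pow_left (by omega) _) (Nat.pow_le_pow_left (by omega) _)
    _ = (n + (a + b + 1)) ^ (a + b) := (pow_add _ _ _).symm
    _ ≤ (n + (a + b + 1)) ^ (a + b + 1) := Nat.pow_le_pow_right (by omega) (by omega)

theorem BddPow.add {f g : ℕ → ℕ} (hf : BddPow f) (hg : BddPow g) : BddPow fun n => f n + g n := by
  obtain ⟨a, ha⟩ := hf
  obtain ⟨b, hb⟩ := hg
  refine ⟨a + b + 2, fun n => ?_⟩
  have h1 : f n ≤ (n + (a + b + 2)) ^ (a + b) :=
    ((ha n).trans (Nat.pow_le_pow_left (by omega) _)).trans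
      (Nat.pow_le_pow_right (by omega) (by omega))
  have h2 : g n ≤ (n + (a + b + 2)) ^ (a + b) :=
    ((hb n).trans (Nat.pow_le_pow_left (by omega) _)).trans
      (Nat.pow_le_pow_right (by omega) (by omega))
  calc f n + g n ≤ 2 * (n + (a + b + 2)) ^ (a + b) := by omega
    _ ≤ (n + (a + b + 2)) * (n + (a + b + 2)) ^ (a + b) := Nat.mul_le_mul_right _ (by omega)
    _ = (n + (a + b + 2)) ^ (a + b + 1) := (pow_succ' _ _).symm
    _ ≤ (n + (a + b + 2)) ^ (a + b + 2) := Nat.pow_le_pow_right (by omega) (by omega)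

theorem BddPow.poly (p : Polynomial ℕ) : BddPow fun n => p.eval n := by
  induction p using Polynomial.induction_on with
  | C c => simpa using BddPow.const c
  | add p q hp hq => simpa using hp.add hq
  | monomial n c ih =>
    have h := ih.mul BddPow.id
    simp only [Polynomial.eval_mul, Polynomial.eval_C, Polynomial.eval_pow,
      Polynomial.eval_X] at h ⊢
    simpa [pow_succ, mul_assoc] using h

/-- The length of the tape that is needed. -/
theorem exists_tape_bound (p : Polynomial ℕ) (b : ℕ) : ∃ a, 0 < a ∧ ∀ n : ℕ,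
    n ≤ (n + a) ^ a ∧ b * 2 ^ p.eval n ≤ 2 ^ ((n + a) ^ a) - 2 := by
  obtain ⟨a, ha⟩ := ((BddPow.poly p).add BddPow.id).add (BddPow.const (b + 2))
  refine ⟨a + 1, by omega, fun n => ?_⟩
  have h1 : p.eval n + n + (b + 2) ≤ (n + (a + 1)) ^ (a + 1) :=
    (ha n).trans (pow_le_pow_add n a (a + 1) (by omega) (by omega))
  refine ⟨by omega, ?_⟩
  generalize (n + (a + 1)) ^ (a + 1) = N at h1
  have h2 : b * 2 ^ p.eval n ≤ 2 ^ (N - 2) := by
    calc b * 2 ^ p.eval n ≤ 2 ^ b * 2 ^ p.eval n :=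
          Nat.mul_le_mul_right _ (Nat.lt_two_pow_self).le
      _ = 2 ^ (b + p.eval n) := (pow_add _ _ _).symm
      _ ≤ 2 ^ (N - 2) := Nat.pow_le_pow_right (by norm_num) (by omega)
  have h3 : 2 ^ N = 4 * 2 ^ (N - 2) := by
    obtain ⟨c, rfl⟩ := Nat.exists_eq_add_of_le (show 2 ≤ N by omega)
    rw [Nat.add_sub_cancel_left, pow_add]
    norm_num
  have h4 : 1 ≤ 2 ^ (N - 2) := Nat.one_le_two_pow
  omega

/-! ### The main theorem -/

theorem exp_hard {Γ : Type} [Fintype Γ] (L : Set (List Γ)) (hL : InEXP L) :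
    ∃ f : List Γ → Rules,
      Nonempty (TM2ComputableInPolyTime (id : List Γ → List Γ) Rules.code f) ∧
      ∀ x, (f x).Orthogonal ∧ (x ∈ L ↔ (f x).StronglySequential) ∧
        (x ∈ L ↔ (f x).StronglySequentialG) := by
  obtain ⟨d, M, p, hd, hp⟩ := hL
  have : Finite (M.tm.Γ M.tm.k₀) := @Finite.of_fintype _ M.tm.Γk₀Fin
  have : Finite M.tm.K := @Finite.of_fintype _ M.tm.kFin
  have : Finite M.tm.Λ := @Finite.of_fintype _ M.tm.ΛFin
  have : Finite M.tm.σ := @Finite.of_fintype _ M.tm.σFin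
  obtain ⟨b, hb⟩ : ∃ b, ∀ l, height (M.tm.m l) ≤ b := by
    obtain ⟨b, hb⟩ := (Set.finite_range fun l => height (M.tm.m l)).bddAbove
    exact ⟨b, fun l => hb ⟨l, rfl⟩⟩
  obtain ⟨a, ha, hN⟩ := exists_tape_bound p b
  let a₁ : M.tm.Γ M.tm.k₁ := M.outputAlphabet.symm false
  let x₁ : Σ k, M.tm.Γ k := ⟨M.tm.k₁, a₁⟩
  let S := smOf M.tm.m M.tm.main M.tm.initialState M.tm.k₀ x₁
  let c₀ := topClaim M.tm.m M.tm.main M.tm.initialState M.tm.k₀ x₁ M.tm.k₁ a₁
    (Or.inr (Or.inl rfl))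
  let ch : Γ → S.G := fun g => (⟨⟨M.tm.k₀, M.inputAlphabet.symm g⟩, Or.inl ⟨_, rfl⟩⟩ :
    syset M.tm.m M.tm.k₀ x₁)
  obtain ⟨f, hf, hf'⟩ := (S.asm c₀).reduction (Γ := Γ) (fun o => S.cellOf (o.map ch)) a ha
  refine ⟨f, hf, fun x => ⟨(hf' x).1, ?_⟩⟩
  rw [(hf' x).2.1, (hf' x).2.2, and_self, ← hd x]
  obtain ⟨h1, h2⟩ := hN x.length
  have h3 : 0 < (x.length + a) ^ a := Nat.pow_pos (by omega)
  have h4 : ∀ m : ℕ, (x[m]?).map ch = (x.map ch)[m]? := fun m => by rw [List.getElem?_map]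
  simp only [h4]
  have h5 := SM.win_iff (M := S) (w := x.map ch) h3 (by simpa using h1) c₀
  rw [h5]
  have h6 : x.map ch = inOf M.tm.m M.tm.main M.tm.initialState M.tm.k₀ x₁
      (x.map M.inputAlphabet.invFun) := by
    simp only [inOf, List.map_map]
    rfl
  rw [h6, hold_topClaim]
  have h7 : TM2OutputsInTime M.tm (x.map M.inputAlphabet.invFun)
      (some [M.outputAlphabet.symm (d x)]) (M.time x.length) := M.outputsFun x
  have h8 := output_top M.tm b hb _ _ _ h7 (2 ^ ((x.length + a) ^ a) - 2)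
    ((Nat.mul_le_mul_left b (hp _)).trans h2)
  rw [h8]
  simp only [List.head?_cons, Option.some.injEq, a₁, EmbeddingLike.apply_eq_iff_eq]
  cases d x <;> simp

end Pool.Agent.Lib.MP_ce3b04_lc
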