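import Pool.Agent.Lib.MP_ce3b04_lc.TRS

/-!
# The gadget: a term rewriting system built from a monotone alternating system
-/

open Relation

namespace Pool.Agent.Lib.MP_ce3b04_lc

/-- A monotone alternating system. -/
structure Sys where
  /-- letters -/
  B : Type
  /-- data places -/
  X : Type
  /-- children of a letter -/
  Ch : B → Type
  /-- the letters at which the final test is made -/
  leaf : B → Bool
  /-- data places opened by a letter -/
  init : B → X → Bool
  /-- data places that have to be open at the end -/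
  fin : B → X → Bool
  /-- `T b v k b' w`: the open place `v` at `b` opens the place `w` at its `k`-th child `b'` -/
  T : (b : B) → X → Ch b → B → X → Bool
  /-- a numbering of the data places -/
  numX : X → ℕ
  /-- a numbering of the children -/
  numCh : (b : B) → Ch b → ℕ
  numX_inj : Function.Injective numX
  numCh_inj : ∀ b, Function.Injective (numCh b)
  [finB : Fintype B]
  [finX : Fintype X]
  [finCh : ∀ b, Fintype (Ch b)]
  [neCh : ∀ b, Nonempty (Ch b)]

attribute [instance] Sys.finB Sys.finX Sys.finCh Sys.neCh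

namespace Sys

variable (M : Sys)

/-- Argument places of the symbol of the letter `b`. -/
inductive Slot (b : M.B) : Type
  | z₁ : Slot b
  | z₂ : Slot b
  | x : M.X → Slot b
  | y : M.Ch b → Slot b

variable {M} in
/-- `Slot` as a sum type. -/
def slotEquiv (b : M.B) : M.Slot b ≃ (Bool ⊕ (M.X ⊕ M.Ch b)) where
  toFun
    | .z₁ => .inl false
    | .z₂ => .inl true
    | .x v => .inr (.inl v)
    | .y k => .inr (.inr k)
  invFun
    | .inl false => .z₁
    | .inl true => .z₂
    | .inr (.inl v) => .x v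
    | .inr (.inr k) => .y k
  left_inv s := by cases s <;> rfl
  right_inv s := by rcases s with (_ | _) | (_ | _) <;> rfl

instance finite_slot (b : M.B) : Finite (M.Slot b) := Finite.of_equiv _ (slotEquiv b).symm

noncomputable instance (b : M.B) : Fintype (M.Slot b) := Fintype.ofFinite _

/-- The signature: four constants and one symbol for each letter. -/
noncomputable def sig : Sig where
  Sym := Fin 4 ⊕ M.B
  Arg := Sum.elim (fun _ => Empty) M.Slot
  argFin f := match f with
    | .inl _ => inferInstanceAs (Fintype Empty)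
    | .inr b => inferInstanceAs (Fintype (M.Slot b))

/-- The constants `0, 1, 2, 3`. -/
noncomputable def cst (c : Fin 4) : Term M.sig := .app (.inl c) (fun e => nomatch e)

variable {M} in
/-- The term with the symbol of the letter `b` at the root. -/
noncomputable def node (b : M.B) (a : M.Slot b → Term M.sig) : Term M.sig := .app (.inr b) a

variable {M} in
/-- The variable used at the place `s`. -/
def idx {b : M.B} : M.Slot b → ℕ
  | .z₁ => 0
  | .z₂ => 1
  | .x v => 2 + 2 * M.numX v
  | .y k => 3 + 2 * M.numCh b k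

variable {M} in
/-- A flat pattern: constants at some places, variables at the others. -/
noncomputable def flat (b : M.B) (f : M.Slot b → Option (Fin 4)) : Term M.sig :=
  node b fun s => match f s with
    | some c => M.cst c
    | none => .var (idx s)

/-- `G_b(0, *, [* at init, 1 elsewhere], 0…)` -/
def f₁ (b : M.B) : M.Slot b → Option (Fin 4)
  | .z₁ => some 0
  | .z₂ => none
  | .x v => if M.init b v then none else some 1
  | .y _ => some 0

/-- `G_b(*, 0, 1…, 1…)` -/
def f₂ (b : M.B) : M.Slot b → Option (Fin 4)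
  | .z₁ => none
  | .z₂ => some 0
  | .x _ => some 1
  | .y _ => some 1

/-- `G_b(3, 3, [0 at fin, 1 elsewhere], *…)` -/
def f₃ (b : M.B) : M.Slot b → Option (Fin 4)
  | .z₁ => some 3
  | .z₂ => some 3
  | .x v => if M.fin b v then some 0 else some 1
  | .y _ => none

variable {M} in
/-- `G_b(2, 2, [* at H, 1 elsewhere], 2…)` -/
def fP (b : M.B) (H : M.X → Bool) : M.Slot b → Option (Fin 4)
  | .z₁ => some 2
  | .z₂ => some 2
  | .x v => if H v then none else some 1
  | .y _ => some 2

open Classical in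
/-- `G_b(1, 1, [0 at v, 1 elsewhere], [the pattern fP at k, 3 elsewhere])` -/
noncomputable def lhsC (b : M.B) (v : M.X) (k : M.Ch b) (b' : M.B) : Term M.sig :=
  node b fun
    | .z₁ => M.cst 1
    | .z₂ => M.cst 1
    | .x w => if w = v then M.cst 0 else M.cst 1
    | .y l => if l = k then flat b' (fP b' (M.T b v k b')) else M.cst 3

/-- The rules. -/
inductive RuleIdx : Type
  | r₁ : M.B → RuleIdx
  | r₂ : M.B → RuleIdx
  | r₃ : (b : M.B) → M.leaf b = true → RuleIdx
  | rC : (b : M.B) → M.leaf b = false → M.X → M.Ch b → M.B → RuleIdx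

variable {M} in
/-- `RuleIdx` as a sum type. -/
def ruleEquiv : M.RuleIdx ≃ (M.B ⊕ (M.B ⊕ ({b : M.B // M.leaf b = true} ⊕
    (Σ b : {b : M.B // M.leaf b = false}, M.X × M.Ch b × M.B)))) where
  toFun
    | .r₁ b => .inl b
    | .r₂ b => .inr (.inl b)
    | .r₃ b h => .inr (.inr (.inl ⟨b, h⟩))
    | .rC b h v k b' => .inr (.inr (.inr ⟨⟨b, h⟩, v, k, b'⟩))
  invFun
    | .inl b => .r₁ b
    | .inr (.inl b) => .r₂ b
    | .inr (.inr (.inl ⟨b, h⟩)) => .r₃ b h
    | .inr (.inr (.inr ⟨⟨b, h⟩, v, k, b'⟩)) => .rC b h v k b'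
  left_inv s := by cases s <;> rfl
  right_inv s := by rcases s with _ | _ | ⟨_, _⟩ | ⟨⟨_, _⟩, _, _, _⟩ <;> rfl

instance finite_ruleIdx : Finite M.RuleIdx := Finite.of_equiv _ ruleEquiv.symm

noncomputable instance : Fintype M.RuleIdx := Fintype.ofFinite _

/-- The left-hand sides. -/
noncomputable def lhs : M.RuleIdx → Term M.sig
  | .r₁ b => flat b (M.f₁ b)
  | .r₂ b => flat b (M.f₂ b)
  | .r₃ b _ => flat b (M.f₃ b)
  | .rC b _ v k b' => M.lhsC b v k b'

theorem cst_bulFree (c : Fin 4) : (M.cst c).BulFree := fun e => nomatch e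

theorem flat_bulFree (b : M.B) (f : M.Slot b → Option (Fin 4)) : (flat b f).BulFree := by
  intro s
  simp only
  cases f s with
  | none => trivial
  | some c => exact M.cst_bulFree c

theorem lhsC_bulFree (b : M.B) (v : M.X) (k : M.Ch b) (b' : M.B) :
    (M.lhsC b v k b').BulFree := by
  intro s
  cases s with
  | z₁ => exact M.cst_bulFree 1
  | z₂ => exact M.cst_bulFree 1
  | x w => simp only; split_ifs <;> exact M.cst_bulFree _
  | y l =>
    simp only; split_ifs
    · exact M.flat_bulFree _ _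
    · exact M.cst_bulFree _

/-- The term rewriting system of the system `M`; all right-hand sides are the constant `0`. -/
noncomputable def trs : TRS where
  S := M.sig
  ι := M.RuleIdx
  lhs := M.lhs
  rhs _ := M.cst 0
  lhs_bulFree ρ := by
    cases ρ
    · exact M.flat_bulFree _ _
    · exact M.flat_bulFree _ _
    · exact M.flat_bulFree _ _
    · exact M.lhsC_bulFree _ _ _ _
  rhs_bulFree _ := M.cst_bulFree 0
  lhs_ne_var ρ n := by cases ρ <;> simp [lhs, flat, node, lhsC]
  vars_subset ρ n hn := by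
    have : (M.cst 0).vars = 0 := by
      simp only [cst, Term.vars]
      exact Finset.sum_eq_zero (fun e _ => nomatch e)
    rw [this] at hn
    simp at hn

/-! ### Matching -/

variable {M}

theorem app_inl_eq (c : Fin 4) (a : M.sig.Arg (Sum.inl c) → Term M.sig) :
    Term.app (S := M.sig) (Sum.inl c) a = M.cst c := by
  unfold cst
  congr 1
  funext e
  exact nomatch e

theorem node_inj {b : M.B} {a a' : M.Slot b → Term M.sig} (h : node b a = node b a') : a = a' := by
  have := (Term.app.inj h).2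
  exact eq_of_heq this

theorem node_head {b b' : M.B} {a : M.Slot b → Term M.sig} {a' : M.Slot b' → Term M.sig}
    (h : node b a = node b' a') : b = b' := by
  have := (Term.app.inj h).1
  exact Sum.inr.inj this

theorem cst_ne_node {c : Fin 4} {b : M.B} {a : M.Slot b → Term M.sig} : M.cst c ≠ node b a := by
  intro h
  have := (Term.app.inj h).1
  cases this

theorem cst_inj {c c' : Fin 4} (h : M.cst c = M.cst c') : c = c' := by
  have := (Term.app.inj h).1
  exact Sum.inl.inj this

theorem subst_cst (c : Fin 4) (σ : ℕ → Term M.sig) : (M.cst c).subst σ = M.cst c := by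
  exact app_inl_eq c _

theorem subst_node (b : M.B) (a : M.Slot b → Term M.sig) (σ : ℕ → Term M.sig) :
    (node b a).subst σ = node b fun s => (a s).subst σ := rfl

theorem idx_inj {b : M.B} {s s' : M.Slot b} (h : idx s = idx s') : s = s' := by
  cases s <;> cases s' <;> simp only [idx] at h
  case z₁.z₁ => rfl
  case z₂.z₂ => rfl
  case x.x v w => rw [M.numX_inj (by omega : M.numX v = M.numX w)]
  case y.y k l => rw [M.numCh_inj b (by omega : M.numCh b k = M.numCh b l)]
  all_goals omega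

/-- The arguments `a` match the flat pattern `f`. -/
def MatchF (b : M.B) (f : M.Slot b → Option (Fin 4)) (a : M.Slot b → Term M.sig) : Prop :=
  ∀ s c, f s = some c → a s = M.cst c

theorem exists_subst_flat {b : M.B} {f : M.Slot b → Option (Fin 4)} {t : Term M.sig} :
    (∃ σ, t = (flat b f).subst σ) ↔ ∃ a, t = node b a ∧ MatchF b f a := by
  constructor
  · rintro ⟨σ, rfl⟩
    refine ⟨_, rfl, ?_⟩
    intro s c h
    simp only [h]
    exact subst_cst c σ
  · rintro ⟨a, rfl, h⟩
    classical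
    refine ⟨fun n => if h : ∃ s : M.Slot b, idx s = n then a h.choose else .bul, ?_⟩
    rw [flat, subst_node]
    congr 1
    funext s
    cases hf : f s with
    | some c => simp only; rw [subst_cst]; exact h s c hf
    | none =>
      simp only [Term.subst]
      have h1 : ∃ s' : M.Slot b, idx s' = idx s := ⟨s, rfl⟩
      rw [dif_pos h1, idx_inj h1.choose_spec]

/-- The arguments `a` match the pattern `lhsC`. -/
def MatchC (b : M.B) (v : M.X) (k : M.Ch b) (b' : M.B) (a : M.Slot b → Term M.sig) : Prop :=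
  a .z₁ = M.cst 1 ∧ a .z₂ = M.cst 1 ∧ a (.x v) = M.cst 0 ∧ (∀ w ≠ v, a (.x w) = M.cst 1) ∧
    (∀ l ≠ k, a (.y l) = M.cst 3) ∧ ∃ a', a (.y k) = node b' a' ∧ MatchF b' (fP b' (M.T b v k b')) a'

theorem exists_subst_lhsC {b : M.B} {v : M.X} {k : M.Ch b} {b' : M.B} {t : Term M.sig} :
    (∃ σ, t = (M.lhsC b v k b').subst σ) ↔ ∃ a, t = node b a ∧ MatchC b v k b' a := by
  classical
  constructor
  · rintro ⟨σ, rfl⟩
    refine ⟨_, rfl, subst_cst _ _, subst_cst _ _, ?_, ?_, ?_, ?_⟩
    · simp only [if_true]; exact subst_cst _ _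
    · intro w hw
      simp only [hw, if_false]; exact subst_cst _ _
    · intro l hl
      simp only [hl, if_false]; exact subst_cst _ _
    · simp only [if_true]
      exact exists_subst_flat.1 ⟨σ, rfl⟩
  · rintro ⟨a, rfl, h1, h2, h3, h4, h5, a', h6, h7⟩
    obtain ⟨σ, hσ⟩ := exists_subst_flat.2 ⟨a', rfl, h7⟩
    refine ⟨σ, ?_⟩
    rw [lhsC, subst_node]
    congr 1
    funext s
    cases s with
    | z₁ => rw [h1]; exact (subst_cst _ _).symm
    | z₂ => rw [h2]; exact (subst_cst _ _).symm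
    | x w =>
      simp only
      split_ifs with hw
      · subst hw; rw [h3]; exact (subst_cst _ _).symm
      · rw [h4 w hw]; exact (subst_cst _ _).symm
    | y l =>
      simp only
      split_ifs with hl
      · subst hl; rw [h6, hσ]
      · rw [h5 l hl]; exact (subst_cst _ _).symm

theorem isRedex_iff {t : Term M.sig} : M.trs.IsRedex t ↔ ∃ b a, t = node b a ∧
    (MatchF b (M.f₁ b) a ∨ MatchF b (M.f₂ b) a ∨ (M.leaf b = true ∧ MatchF b (M.f₃ b) a) ∨
      (M.leaf b = false ∧ ∃ v k b', MatchC b v k b' a)) := by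
  constructor
  · rintro ⟨ρ, σ, h⟩
    cases ρ with
    | r₁ b =>
      obtain ⟨a, h1, h2⟩ := exists_subst_flat.1 ⟨σ, h⟩
      exact ⟨b, a, h1, Or.inl h2⟩
    | r₂ b =>
      obtain ⟨a, h1, h2⟩ := exists_subst_flat.1 ⟨σ, h⟩
      exact ⟨b, a, h1, Or.inr (Or.inl h2)⟩
    | r₃ b hb =>
      obtain ⟨a, h1, h2⟩ := exists_subst_flat.1 ⟨σ, h⟩
      exact ⟨b, a, h1, Or.inr (Or.inr (Or.inl ⟨hb, h2⟩))⟩
    | rC b hb v k b' =>
      obtain ⟨a, h1, h2⟩ := exists_subst_lhsC.1 ⟨σ, h⟩
      exact ⟨b, a, h1, Or.inr (Or.inr (Or.inr ⟨hb, v, k, b', h2⟩))⟩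
  · rintro ⟨b, a, h1, h2 | h2 | ⟨hb, h2⟩ | ⟨hb, v, k, b', h2⟩⟩
    · obtain ⟨σ, h⟩ := exists_subst_flat.2 ⟨a, h1, h2⟩
      exact ⟨.r₁ b, σ, h⟩
    · obtain ⟨σ, h⟩ := exists_subst_flat.2 ⟨a, h1, h2⟩
      exact ⟨.r₂ b, σ, h⟩
    · obtain ⟨σ, h⟩ := exists_subst_flat.2 ⟨a, h1, h2⟩
      exact ⟨.r₃ b hb, σ, h⟩
    · obtain ⟨σ, h⟩ := exists_subst_lhsC.2 ⟨a, h1, h2⟩
      exact ⟨.rC b hb v k b', σ, h⟩

theorem not_redex_cst (c : Fin 4) : ¬ M.trs.IsRedex (M.cst c) := by
  rw [isRedex_iff]
  rintro ⟨b, a, h, _⟩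
  exact cst_ne_node h

theorem isNF_cst (c : Fin 4) : M.trs.IsNF (M.cst c) := by
  unfold cst
  exact isNF_app_iff.2 ⟨not_redex_cst c, fun e => nomatch e⟩

theorem not_flex_cst (c : Fin 4) : ¬ Flex M.trs (M.cst c) :=
  IsNF.not_flex (R := M.trs) (isNF_cst c)

/-- `t` can be reduced to the constant `c`. -/
def Cp (c : Fin 4) (t : Term M.sig) : Prop := t = M.cst c ∨ Flex M.trs t

theorem steps_cst_iff {c : Fin 4} {t : Term M.sig} :
    ReflTransGen M.trs.Step t (M.cst c) ↔ Cp c t := by
  constructor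
  · intro h
    rcases sim_of_steps h with h | h | ⟨f, a, b, h1, h2, h3⟩
    · exact Or.inr h
    · exact Or.inl h
    · left
      obtain ⟨h4, h5⟩ := Term.app.inj h2
      subst h4
      rw [h1]
      exact app_inl_eq c _
  · rintro (rfl | h)
    · exact .refl
    · exact h.any _

/-- `a` can be reduced to arguments that match the flat pattern `f`. -/
def CpF (b : M.B) (f : M.Slot b → Option (Fin 4)) (a : M.Slot b → Term M.sig) : Prop :=
  ∀ s c, f s = some c → Cp c (a s)

theorem steps_matchF_iff {b : M.B} {f : M.Slot b → Option (Fin 4)} {a : M.Slot b → Term M.sig} :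
    (∃ a', (∀ s, ReflTransGen M.trs.Step (a s) (a' s)) ∧ MatchF b f a') ↔ CpF b f a := by
  constructor
  · rintro ⟨a', h1, h2⟩ s c hs
    rw [← steps_cst_iff, ← h2 s c hs]
    exact h1 s
  · intro h
    refine ⟨fun s => match f s with | some c => M.cst c | none => a s, ?_, ?_⟩
    · intro s
      cases hs : f s with
      | none => simp only [hs]; exact .refl
      | some c => simp only [hs]; exact steps_cst_iff.2 (h s c hs)
    · intro s c hs
      simp only [hs]

/-- `t` can be reduced to an instance of the flat pattern `f`. -/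
def CpT (b : M.B) (f : M.Slot b → Option (Fin 4)) (t : Term M.sig) : Prop :=
  Flex M.trs t ∨ ∃ a, t = node b a ∧ CpF b f a

theorem steps_flat_iff {b : M.B} {f : M.Slot b → Option (Fin 4)} {t : Term M.sig} :
    (∃ a', ReflTransGen M.trs.Step t (node b a') ∧ MatchF b f a') ↔ CpT b f t := by
  constructor
  · rintro ⟨a', h1, h2⟩
    rcases sim_of_steps h1 with h | h | ⟨g, a, b', h3, h4, h5⟩
    · exact Or.inl h
    · refine Or.inr ⟨a', h, ?_⟩
      intro s c hs
      exact Or.inl (h2 s c hs)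
    · right
      obtain ⟨h6, h7⟩ := Term.app.inj h4
      subst h6
      have h7 := eq_of_heq h7
      subst h7
      exact ⟨a, h3, steps_matchF_iff.1 ⟨a', h5, h2⟩⟩
  · rintro (h | ⟨a, rfl, h⟩)
    · exact ⟨fun s => match f s with | some c => M.cst c | none => .bul, h.any _, by
        intro s c hs; simp only [hs]⟩
    · obtain ⟨a', h1, h2⟩ := steps_matchF_iff.2 h
      exact ⟨a', steps_args h1, h2⟩

/-- `a` can be reduced to arguments that match `lhsC`. -/
def CpC (b : M.B) (v : M.X) (k : M.Ch b) (b' : M.B) (a : M.Slot b → Term M.sig) : Prop :=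
  Cp 1 (a .z₁) ∧ Cp 1 (a .z₂) ∧ Cp 0 (a (.x v)) ∧ (∀ w ≠ v, Cp 1 (a (.x w))) ∧
    (∀ l ≠ k, Cp 3 (a (.y l))) ∧ CpT b' (fP b' (M.T b v k b')) (a (.y k))

theorem steps_matchC_iff {b : M.B} {v : M.X} {k : M.Ch b} {b' : M.B}
    {a : M.Slot b → Term M.sig} :
    (∃ a', (∀ s, ReflTransGen M.trs.Step (a s) (a' s)) ∧ MatchC b v k b' a') ↔
      CpC b v k b' a := by
  classical
  constructor
  · rintro ⟨a', h, h1, h2, h3, h4, h5, a'', h6, h7⟩
    refine ⟨?_, ?_, ?_, ?_, ?_, ?_⟩
    · rw [← steps_cst_iff, ← h1]; exact h _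
    · rw [← steps_cst_iff, ← h2]; exact h _
    · rw [← steps_cst_iff, ← h3]; exact h _
    · intro w hw
      rw [← steps_cst_iff, ← h4 w hw]; exact h _
    · intro l hl
      rw [← steps_cst_iff, ← h5 l hl]; exact h _
    · rw [← steps_flat_iff]
      exact ⟨a'', h6 ▸ h _, h7⟩
  · rintro ⟨h1, h2, h3, h4, h5, h6⟩
    obtain ⟨a'', h7, h8⟩ := steps_flat_iff.2 h6
    refine ⟨fun
      | .z₁ => M.cst 1
      | .z₂ => M.cst 1
      | .x w => if w = v then M.cst 0 else M.cst 1
      | .y l => if l = k then node b' a'' else M.cst 3, ?_, rfl, rfl, by simp, ?_, ?_, a'', ?_, h8⟩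
    · intro s
      cases s with
      | z₁ => exact steps_cst_iff.2 h1
      | z₂ => exact steps_cst_iff.2 h2
      | x w =>
        simp only
        split_ifs with hw
        · subst hw; exact steps_cst_iff.2 h3
        · exact steps_cst_iff.2 (h4 w hw)
      | y l =>
        simp only
        split_ifs with hl
        · subst hl; exact h7
        · exact steps_cst_iff.2 (h5 l hl)
    · intro w hw; simp [hw]
    · intro l hl; simp [hl]
    · simp

/-- The terms with a letter at the root that can be reduced to a redex. -/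
theorem flex_node_iff {b : M.B} {a : M.Slot b → Term M.sig} :
    Flex M.trs (node b a) ↔ CpF b (M.f₁ b) a ∨ CpF b (M.f₂ b) a ∨
      (M.leaf b = true ∧ CpF b (M.f₃ b) a) ∨ (M.leaf b = false ∧ ∃ v k b', CpC b v k b' a) := by
  refine (flex_app_iff (R := M.trs) (f := Sum.inr b) (a := a)).trans ?_
  constructor
  · rintro ⟨a', h1, h2⟩
    obtain ⟨b', a'', h3, h4⟩ := isRedex_iff.1 h2
    have h5 := node_head (b := b) (a := a') h3
    subst h5
    have h6 := node_inj (b := b) (a := a') h3
    subst h6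
    rcases h4 with h4 | h4 | ⟨hb, h4⟩ | ⟨hb, v, k, b', h4⟩
    · exact Or.inl (steps_matchF_iff.1 ⟨a', h1, h4⟩)
    · exact Or.inr (Or.inl (steps_matchF_iff.1 ⟨a', h1, h4⟩))
    · exact Or.inr (Or.inr (Or.inl ⟨hb, steps_matchF_iff.1 ⟨a', h1, h4⟩⟩))
    · exact Or.inr (Or.inr (Or.inr ⟨hb, v, k, b', steps_matchC_iff.1 ⟨a', h1, h4⟩⟩))
  · rintro (h | h | ⟨hb, h⟩ | ⟨hb, v, k, b', h⟩)
    · obtain ⟨a', h1, h2⟩ := steps_matchF_iff.2 h
      exact ⟨a', h1, isRedex_iff.2 ⟨b, a', rfl, Or.inl h2⟩⟩
    · obtain ⟨a', h1, h2⟩ := steps_matchF_iff.2 h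
      exact ⟨a', h1, isRedex_iff.2 ⟨b, a', rfl, Or.inr (Or.inl h2)⟩⟩
    · obtain ⟨a', h1, h2⟩ := steps_matchF_iff.2 h
      exact ⟨a', h1, isRedex_iff.2 ⟨b, a', rfl, Or.inr (Or.inr (Or.inl ⟨hb, h2⟩))⟩⟩
    · obtain ⟨a', h1, h2⟩ := steps_matchC_iff.2 h
      exact ⟨a', h1, isRedex_iff.2 ⟨b, a', rfl, Or.inr (Or.inr (Or.inr ⟨hb, v, k, b', h2⟩))⟩⟩

end Sys

end Pool.Agent.Lib.MP_ce3b04_lc
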