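import Pool.Agent.Lib.MP_ce3b04_lc.Bits

/-!
# Sweeping machines guess the run of a machine with several stacks
-/

namespace Pool.Agent.Lib.MP_ce3b04_lc

/-- Actions on a stack. -/
inductive Act (G : Type) : Type
  | keep : Act G
  | pop : Act G
  | push (g : G) : Act G

/-- Execution of an action. The top of the stack is the head of the list. -/
def Act.run {G : Type} : Act G → List G → List G
  | .keep, l => l
  | .pop, l => l.tail
  | .push g, l => g :: l

/-- A deterministic machine with several stacks. -/
structure SM where
  /-- stacks -/
  K : Type
  /-- symbols -/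
  G : Type
  /-- states -/
  Q : Type
  /-- the next state -/
  δ : Q → (K → Option G) → Q
  /-- the actions -/
  act : Q → (K → Option G) → K → Act G
  /-- the initial state -/
  q₀ : Q
  /-- the input stack -/
  k₀ : K
  [finK : Finite K]
  [finG : Finite G]
  [finQ : Finite Q]

attribute [instance] SM.finK SM.finG SM.finQ

namespace SM

variable (M : SM)

/-- One step. -/
def step (c : M.Q × (M.K → List M.G)) : M.Q × (M.K → List M.G) :=
  (M.δ c.1 (fun k => (c.2 k).head?),
    fun k => (M.act c.1 (fun k => (c.2 k).head?) k).run (c.2 k))

open Classical in
/-- The configuration at time `t`. -/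
noncomputable def conf (w : List M.G) : ℕ → M.Q × (M.K → List M.G)
  | 0 => (M.q₀, fun k => if k = M.k₀ then w else [])
  | t + 1 => M.step (conf w t)

/-- Claims: about the state, about the content of a cell, and about the content of a cell of the
input. -/
abbrev Cl : Type := M.Q ⊕ (M.K × Option M.G) ⊕ Option M.G

/-- The claim holds at time `t` and for the cell `i`. -/
def Hold (w : List M.G) (t i : ℕ) : M.Cl → Prop
  | .inl q => (M.conf w t).1 = q
  | .inr (.inl (k, s)) => ((M.conf w t).2 k)[i]? = s
  | .inr (.inr _) => False

/-- Symbols of cells. -/
abbrev Y : Type := Option M.G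

/-- Control states. -/
abbrev St : Type :=
  M.Cl × (Bool × Bool) × (Op × Bool × Bool) × (Bool × Option M.Y × Option M.Y) ×
    Option (M.Q × (M.K → Option M.G))

/-- The start of a normal sweep. -/
def startN (c : M.Cl) (p : Op) (b : Bool) : M.St :=
  (c, (true, true), (p, b, true), (false, none, none), none)

/-- The start of a look-up sweep. -/
def startL (s : Option M.G) : M.St :=
  (.inr (.inr s), (false, true), (.dec, true, true), (true, none, none), none)

open Classical in
/-- The end of a normal sweep, time `0`. -/
noncomputable def chi0 (iz : Bool) (s0 : Option M.Y) : M.Cl → Option (Option M.St)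
  | .inl q => if q = M.q₀ then some none else none
  | .inr (.inl (k, s)) =>
    if k = M.k₀ then
      (if iz = true then (if s0 = some s then some none else none)
        else some (some (M.startL s)))
    else (if s = none then some none else none)
  | .inr (.inr _) => none

open Classical in
/-- The end of a normal sweep, positive time, verification of the claim. -/
noncomputable def chi1 (iz : Bool) (q : M.Q) (g : M.K → Option M.G) :
    M.Cl → Option (Option M.St)
  | .inl q' => if M.δ q g = q' then some none else none
  | .inr (.inl (k, s)) => match M.act q g k with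
    | .keep => some (some (M.startN (.inr (.inl (k, s))) .dec false))
    | .pop => some (some (M.startN (.inr (.inl (k, s))) .inc true))
    | .push s' => if iz = true then (if s = some s' then some none else none)
        else some (some (M.startN (.inr (.inl (k, s))) .dec true))
  | .inr (.inr _) => none

/-- The end of a normal sweep, positive time. -/
noncomputable def chiB (c : M.Cl) (iz : Bool) (q : M.Q) (g : M.K → Option M.G) :
    Option (Option M.K) → Option (Option M.St)
  | none => some (some (M.startN (.inl q) .reset false))
  | some none => M.chi1 iz q g c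
  | some (some k) => some (some (M.startN (.inr (.inl (k, g k))) .reset false))

open Classical in
/-- The end of a look-up sweep. -/
noncomputable def chiL (iz : Bool) (s0 pd : Option M.Y) : M.Cl → Option (Option M.St)
  | .inr (.inr s) =>
    if pd = some none then
      (if iz = true then (if s0 = some s then some none else none)
        else some (some (M.startL s)))
    else none
  | _ => none

/-- The end of a sweep. -/
noncomputable def chi (e : M.St) (k : Option (Option M.K)) : Option (Option M.St) :=
  if (e.2.1.1 || e.2.2.1.2.1) = true then none
  else if e.2.2.2.1.1 = true then M.chiL e.2.2.1.2.2 e.2.2.2.1.2.1 e.2.2.2.1.2.2 e.1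
  else if e.2.1.2 = true then M.chi0 e.2.2.1.2.2 e.2.2.2.1.2.1 e.1
  else match e.2.2.2.2 with
    | none => none
    | some (q, g) => M.chiB e.1 e.2.2.1.2.2 q g k

/-- Cells. -/
abbrev Dd : Type := Bool × Bool × M.Y

/-- Letters. -/
abbrev Ff : Type := M.Dd × M.Dd × M.Q × (M.K → Option M.G)

/-- The automaton reading a sweep. -/
noncomputable def psi : M.St → M.Ff → Option M.St :=
  ψP (fun x : M.Ff => x.1.1) (fun x => x.2.1.1) (fun x => x.1.2.1) (fun x => x.2.1.2.1)
    (fun x => x.1.2.2) (fun x => x.2.1.2.2) (fun x => x.2.2)

/-- The prover wins. -/
inductive W : M.St → List M.Dd → Prop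
  | mk (e : M.St) (xs : List M.Ff) (e' : M.St) (g : Option (Option M.K) → Option M.St) :
      runO M.psi e xs = some e' → (∀ k, M.chi e' k = some (g k)) →
      (∀ k e'', g k = some e'' → W e'' (xs.map fun x => x.2.1)) → W e (xs.map fun x => x.1)

/-- The sweeping machine. -/
noncomputable def asm (c₀ : M.Cl) : ASM where
  D := M.Dd
  E := M.St
  F := M.Ff
  C := Option (Option M.K)
  old := fun x => x.1
  new := fun x => x.2.1
  ψ := M.psi
  χ := M.chi
  e₀ := M.startN c₀ .reset false
  finD := Fintype.ofFinite _
  finE := Fintype.ofFinite _
  finF := Fintype.ofFinite _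
  finC := Fintype.ofFinite _

variable {M}

theorem win_iff_W (c₀ : M.Cl) (e : (M.asm c₀).E) (ts : List (M.asm c₀).D) :
    (M.asm c₀).Win e ts ↔ M.W e ts := by
  constructor
  · intro h
    induction h with
    | mk e xs e' g h1 h2 _ ih => exact W.mk e xs e' g h1 h2 ih
  · intro h
    have : ∀ (e : M.St) (ts : List M.Dd), M.W e ts → (M.asm c₀).Win e ts := by
      intro e ts h
      induction h with
      | mk e xs e' g h1 h2 _ ih => exact ASM.Win.mk (A := M.asm c₀) e xs e' g h1 h2 ih
    exact this e ts h

/-- The symbols of the tape at time `0`. -/
def syms (w : List M.G) (N : ℕ) : List M.Y := (List.range N).map fun m => w[m]?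

theorem syms_get {w : List M.G} {N : ℕ} (hw : w.length ≤ N) (i : ℕ) :
    ((syms w N)[i]?).join = w[i]? := by
  by_cases hi : i < N
  · simp [syms, List.getElem?_range hi]
  · have h1 : (syms w N)[i]? = none := by simp [syms]; omega
    rw [h1]
    symm
    simp; omega

/-- The sweep as a sequence of letters. -/
theorem exists_letters (h : M.Q × (M.K → Option M.G)) (ts : List M.Dd) (a b : List Bool)
    (y : List M.Y) (ha : a.length = ts.length) (hb : b.length = ts.length)
    (hy : y.length = ts.length) : ∃ xs : List M.Ff, xs.map (fun x => x.1) = ts ∧
      xs.map (fun x => x.2.1.1) = a ∧ xs.map (fun x => x.2.1.2.1) = b ∧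
      xs.map (fun x => x.2.1.2.2) = y ∧ ∀ x ∈ xs, x.2.2 = h := by
  induction ts generalizing a b y with
  | nil =>
    refine ⟨[], rfl, ?_, ?_, ?_, by simp⟩
    · simpa using (List.length_eq_zero_iff.1 ha).symm
    · simpa using (List.length_eq_zero_iff.1 hb).symm
    · simpa using (List.length_eq_zero_iff.1 hy).symm
  | cons d ts ih =>
    obtain ⟨a0, a, rfl⟩ := List.exists_cons_of_length_eq_add_one ha
    obtain ⟨b0, b, rfl⟩ := List.exists_cons_of_length_eq_add_one hb
    obtain ⟨y0, y, rfl⟩ := List.exists_cons_of_length_eq_add_one hy
    obtain ⟨xs, h1, h2, h3, h4, h5⟩ := ih a b y (by simpa using ha) (by simpa using hb)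
      (by simpa using hy)
    refine ⟨(d, (a0, b0, y0), h) :: xs, by simp [h1], by simp [h2], by simp [h3], by simp [h4], ?_⟩
    intro x hx
    rcases List.mem_cons.1 hx with rfl | hx
    · rfl
    · exact h5 x hx

theorem lastH_const {H F : Type} (hh : F → H) (h : H) (xs : List F) (hx : ∀ x ∈ xs, hh x = h)
    (o : Option H) (hne : xs ≠ []) : lastH hh o xs = some h := by
  have key : ∀ xs : List F, (∀ x ∈ xs, hh x = h) → lastH hh (some h) xs = some h := by
    intro xs
    induction xs with
    | nil => intro _; rfl
    | cons x xs ih =>
      intro hx
      rw [lastH, hx x (by simp)]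
      exact ih (fun x' h' => hx x' (by simp [h']))
  cases xs with
  | nil => exact absurd rfl hne
  | cons x xs =>
    rw [lastH, hx x (by simp)]
    exact key xs (fun x' h' => hx x' (by simp [h']))

/-- The look-up position. -/
theorem shift_get {y : List M.Y} (hy : y ≠ []) (i : ℕ) :
    ((y.tail ++ [none])[i]?).join = (y[i + 1]?).join := by
  obtain ⟨y0, y, rfl⟩ := List.exists_cons_of_ne_nil hy
  simp only [List.tail_cons, List.getElem?_cons_succ]
  by_cases hi : i < y.length
  · rw [List.getElem?_append_left hi]
  · rw [List.getElem?_append_right (by omega)]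
    have : y[i]? = none := by simp; omega
    rw [this]
    cases h : i - y.length with
    | zero => rfl
    | succ n => rfl

theorem head_get {y : List M.Y} (hy : y ≠ []) (s : Option M.G) :
    y.head? = some s ↔ (y[0]?).join = s := by
  obtain ⟨y0, y, rfl⟩ := List.exists_cons_of_ne_nil hy
  simp

/-- The properties of a sweep. -/
theorem run_psi (xs : List M.Ff) (s r : M.St) :
    runO M.psi s xs = some r ↔
      r.1 = s.1 ∧
      (xs.map (fun x => x.2.1.1) = decL s.2.1.1 (xs.map fun x => x.1.1) ∧
        r.2.1 = (decO s.2.1.1 (xs.map fun x => x.1.1),
          s.2.1.2 && zeros (xs.map fun x => x.2.1.1))) ∧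
      (xs.map (fun x => x.2.1.2.1) = opL s.2.2.1.1 s.2.2.1.2.1 (xs.map fun x => x.1.2.1) ∧
        r.2.2.1 = (s.2.2.1.1, opO s.2.2.1.1 s.2.2.1.2.1 (xs.map fun x => x.1.2.1),
          s.2.2.1.2.2 && zeros (xs.map fun x => x.2.1.2.1))) ∧
      runO (ψY (fun x : M.Ff => x.1.2.2) (fun x => x.2.1.2.2)) s.2.2.2.1 xs = some r.2.2.2.1 ∧
      r.2.2.2.2 = lastH (fun x => x.2.2) s.2.2.2.2 xs := by
  have := run_ψP (fun x : M.Ff => x.1.1) (fun x => x.2.1.1) (fun x => x.1.2.1)
    (fun x => x.2.1.2.1) (fun x => x.1.2.2) (fun x => x.2.1.2.2) (fun x => x.2.2) xs s r
  rw [run_ψT, run_ψI] at this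
  exact this

/-- Holding of a claim after one step. -/
theorem hold_succ_st (w : List M.G) (t i : ℕ) (q' : M.Q) :
    M.Hold w (t + 1) i (.inl q') ↔
      M.δ (M.conf w t).1 (fun k => ((M.conf w t).2 k).head?) = q' := Iff.rfl

theorem hold_succ_cell (w : List M.G) (t i : ℕ) (k : M.K) (s : Option M.G) :
    M.Hold w (t + 1) i (.inr (.inl (k, s))) ↔
      ((M.act (M.conf w t).1 (fun k => ((M.conf w t).2 k).head?) k).run
        ((M.conf w t).2 k))[i]? = s := Iff.rfl


/-! ### Soundness -/

theorem chi_isSome {e : M.St} {k : Option (Option M.K)} {o : Option M.St}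
    (h : M.chi e k = some o) : e.2.1.1 = false ∧ e.2.2.1.2.1 = false := by
  by_cases h1 : (e.2.1.1 || e.2.2.1.2.1) = true
  · rw [chi, if_pos h1] at h
    exact absurd h (by simp)
  · revert h1
    cases e.2.1.1 <;> cases e.2.2.1.2.1 <;> simp

theorem chi_look (c : M.Cl) (tz iz : Bool) (p : Op) (s0 pd : Option M.Y)
    (ho : Option (M.Q × (M.K → Option M.G))) (k : Option (Option M.K)) :
    M.chi (c, (false, tz), (p, false, iz), (true, s0, pd), ho) k = M.chiL iz s0 pd c := rfl

theorem chi_zero (c : M.Cl) (iz : Bool) (p : Op) (s0 pd : Option M.Y)
    (ho : Option (M.Q × (M.K → Option M.G))) (k : Option (Option M.K)) :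
    M.chi (c, (false, true), (p, false, iz), (false, s0, pd), ho) k = M.chi0 iz s0 c := rfl

theorem chi_pos (c : M.Cl) (iz : Bool) (p : Op) (s0 pd : Option M.Y)
    (q : M.Q) (g : M.K → Option M.G) (k : Option (Option M.K)) :
    M.chi (c, (false, false), (p, false, iz), (false, s0, pd), some (q, g)) k =
      M.chiB c iz q g k := rfl

theorem chi_pos_none (c : M.Cl) (iz : Bool) (p : Op) (s0 pd : Option M.Y)
    (k : Option (Option M.K)) :
    M.chi (c, (false, false), (p, false, iz), (false, s0, pd), none) k = none := rfl

/-- The meaning of a position. -/
def Sem (w : List M.G) (N : ℕ) (e : M.St) (ts : List M.Dd) : Prop :=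
  ts.length = N →
  (∀ c p b, e = M.startN c p b → ts.map (fun d => d.2.2) = syms w N →
    opO p b (ts.map fun d => d.2.1) = false ∧
    M.Hold w (val (ts.map fun d => d.1) - 1) (val (opL p b (ts.map fun d => d.2.1))) c) ∧
  (∀ s, e = M.startL s → ((ts.map fun d => d.2.2)[val (ts.map fun d => d.2.1)]?).join = s)

theorem win_sound {w : List M.G} {N : ℕ} (hN : 0 < N) (hw : w.length ≤ N)
    {e : M.St} {ts : List M.Dd} (h : M.W e ts) : Sem w N e ts := by
  induction h with
  | mk e xs e' g h1 h2 _ ih =>
    intro hlen
    obtain ⟨r1, ⟨r2, r3⟩, ⟨r4, r5⟩, r6, r7⟩ := (run_psi xs e e').1 h1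
    have hxl : xs.length = N := by simpa using hlen
    have hne : xs ≠ [] := by rintro rfl; simp at hxl; omega
    obtain ⟨hb1, hb2⟩ := chi_isSome (h2 none)
    have hnl : (xs.map fun x => x.2.1).length = N := by simpa using hxl
    have eold : ∀ (β : Type) (f : M.Dd → β), List.map f (xs.map fun x => x.1) =
        xs.map (fun x => f x.1) := by
      intro β f; rw [List.map_map]; rfl
    have enew : ∀ (β : Type) (f : M.Dd → β), List.map f (xs.map fun x => x.2.1) =
        xs.map (fun x => f x.2.1) := by
      intro β f; rw [List.map_map]; rfl
    simp only [eold]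
    have key1 : ∀ k c p b, g k = some (M.startN c p b) →
        xs.map (fun x => x.2.1.2.2) = syms w N →
        opO p b (xs.map fun x => x.2.1.2.1) = false ∧
        M.Hold w (val (xs.map fun x => x.2.1.1) - 1)
          (val (opL p b (xs.map fun x => x.2.1.2.1))) c := by
      intro k c p b hk hs
      have := (ih k _ hk hnl).1 c p b rfl
      simp only [enew] at this
      exact this hs
    have key2 : ∀ k s, g k = some (M.startL s) →
        ((xs.map fun x => x.2.1.2.2)[val (xs.map fun x => x.2.1.2.1)]?).join = s := by
      intro k s hk
      have := (ih k _ hk hnl).2 s rfl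
      simp only [enew] at this
      exact this
    clear ih enew eold
    obtain ⟨c', tt, ii, yy, ho⟩ := e'
    constructor
    · rintro c p b rfl hs
      simp only [startN] at r1 r2 r3 r4 r5 r6 r7
      rw [run_ψY_false] at r6
      obtain ⟨r8, r9⟩ := r6
      subst r1 r3 r5 r9
      simp only at hb1 hb2
      rw [hb1, hb2, Bool.true_and, Bool.true_and] at h2
      have hT := val_dec true (xs.map fun x => x.1.1)
      rw [hb1, ← r2] at hT
      simp only [Bool.toNat_true, Bool.toNat_false, Nat.mul_zero, Nat.add_zero] at hT
      rw [← hT, Nat.add_sub_cancel, ← r4]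
      rw [← r8] at hs
      rw [hs] at h2 key2
      simp only [hs, true_implies] at key1
      refine ⟨hb2, ?_⟩
      clear r2 r4 r8 hb1 hb2 hT h1
      generalize hTT : xs.map (fun x => x.2.1.1) = TT at *
      generalize hII : xs.map (fun x => x.2.1.2.1) = II at *
      have hIl : II.length = N := by rw [← hII, List.length_map, hxl]
      clear hTT hII
      have hsne : syms w N ≠ [] := by
        intro h0
        have := congrArg List.length h0
        simp [syms] at this
        omega
      cases hz : zeros TT with
      | true =>
        have hz0 := zeros_iff.1 hz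
        rw [hz0]
        rw [hz] at h2
        simp only [chi_zero, Option.none_or] at h2
        have h3 := h2 none
        rcases c' with q | ⟨k, s⟩ | s
        · simp only [chi0] at h3
          by_cases hq : q = M.q₀
          · exact hq.symm
          · rw [if_neg hq] at h3; cases h3
        · simp only [chi0] at h3
          by_cases hk : k = M.k₀
          · rw [if_pos hk] at h3
            have e1 : (M.conf w 0).2 k = w := by simp [conf, hk]
            change ((M.conf w 0).2 k)[val II]? = s
            rw [e1]
            cases hi : zeros II with
            | true =>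
              rw [hi] at h3
              rw [if_pos rfl] at h3
              by_cases hs0 : (syms w N).head? = some s
              · rw [zeros_iff.1 hi, ← syms_get hw 0]
                exact (head_get hsne s).1 hs0
              · rw [if_neg hs0] at h3; cases h3
            | false =>
              rw [hi] at h3
              rw [if_neg (by simp)] at h3
              have := key2 none s (by simpa using h3.symm)
              rw [← syms_get hw]
              exact this
          · rw [if_neg hk] at h3
            have e1 : (M.conf w 0).2 k = [] := by simp [conf, hk]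
            change ((M.conf w 0).2 k)[val II]? = s
            rw [e1]
            by_cases hs0 : s = none
            · rw [hs0]; rfl
            · rw [if_neg hs0] at h3; cases h3
        · simp only [chi0] at h3
          cases h3
      | false =>
        rw [hz] at h2
        have hpos : val TT ≠ 0 := fun h0 => by
          rw [zeros_iff.2 h0] at hz; cases hz
        obtain ⟨T, hT⟩ := Nat.exists_eq_succ_of_ne_zero hpos
        simp only [hT, Nat.succ_eq_add_one, Nat.add_sub_cancel] at key1 ⊢
        rcases ho with _ | ⟨q, gg⟩
        · have := h2 none
          rw [chi_pos_none] at this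
          cases this
        · simp only [chi_pos] at h2
          have hq : (M.conf w T).1 = q := by
            have h3 := h2 none
            simp only [chiB] at h3
            exact (key1 none _ _ _ (by simpa using h3.symm)).2
          have hg : (fun k => ((M.conf w T).2 k).head?) = gg := by
            funext k
            have h3 := h2 (some (some k))
            simp only [chiB] at h3
            have := (key1 (some (some k)) _ _ _ (by simpa using h3.symm)).2
            have e1 : val (opL Op.reset false II) = 0 := by
              rw [opL]; exact val_replicate_false _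
            rw [e1] at this
            rw [List.head?_eq_getElem?]
            exact this
          have h3 := h2 (some none)
          simp only [chiB] at h3
          rcases c' with q' | ⟨k, s⟩ | s
          · simp only [chi1] at h3
            rw [hold_succ_st, hq, hg]
            by_cases hd : M.δ q gg = q'
            · exact hd
            · rw [if_neg hd] at h3; cases h3
          · rw [hold_succ_cell, hq, hg]
            simp only [chi1] at h3
            cases ha : M.act q gg k with
            | keep =>
              rw [ha] at h3
              obtain ⟨_, this⟩ := key1 (some none) _ _ _ (by simpa using h3.symm)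
              rw [opL, decL_false] at this
              exact this
            | pop =>
              rw [ha] at h3
              obtain ⟨h5, h6⟩ := key1 (some none) _ _ _ (by simpa using h3.symm)
              have h7 := val_inc true II
              simp only [opO] at h5
              rw [h5] at h7
              simp only [Bool.toNat_true, Bool.toNat_false, Nat.mul_zero, Nat.add_zero] at h7
              rw [opL, h7] at h6
              simp only [Act.run]
              rw [List.getElem?_tail]
              exact h6
            | push s' =>
              rw [ha] at h3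
              simp only at h3
              cases hi : zeros II with
              | true =>
                rw [hi, if_pos rfl] at h3
                rw [zeros_iff.1 hi]
                by_cases hs0 : s = some s'
                · rw [hs0]; rfl
                · rw [if_neg hs0] at h3; cases h3
              | false =>
                rw [hi, if_neg (by simp)] at h3
                obtain ⟨h5, h6⟩ := key1 (some none) _ _ _ (by simpa using h3.symm)
                have h7 := val_dec true II
                simp only [opO] at h5
                rw [h5] at h7
                simp only [Bool.toNat_true, Bool.toNat_false, Nat.mul_zero, Nat.add_zero] at h7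
                rw [opL] at h6
                rw [← h7]
                exact h6
          · simp only [chi1] at h3
            cases h3
    · rintro s rfl
      simp only [startL] at r1 r2 r3 r4 r5 r6 r7
      rw [run_ψY_true _ _ hne] at r6
      obtain ⟨l, r8, r9⟩ := r6
      subst r1 r3 r5 r9
      simp only at hb1 hb2
      rw [hb1, hb2, Bool.true_and, Bool.true_and] at h2
      have h3 := h2 none
      rw [chi_look, chiL] at h3
      by_cases hl : some l = some (none : M.Y)
      · rw [if_pos hl] at h3
        obtain rfl : l = none := by simpa using hl
        have h7 := val_dec true (xs.map fun x => x.1.2.1)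
        have h8 : decO true (xs.map fun x => x.1.2.1) = false := hb2
        have h9 : xs.map (fun x => x.2.1.2.1) = decL true (xs.map fun x => x.1.2.1) := r4
        rw [h8, ← h9] at h7
        simp only [Bool.toNat_true, Bool.toNat_false, Nat.mul_zero, Nat.add_zero] at h7
        have hyne : xs.map (fun x => x.1.2.2) ≠ [] := by simpa using hne
        rw [← h7, ← shift_get hyne, ← r8]
        cases hi : zeros (xs.map fun x => x.2.1.2.1) with
        | true =>
          rw [hi, if_pos rfl] at h3
          by_cases hs0 : (xs.map fun x => x.2.1.2.2).head? = some s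
          · rw [zeros_iff.1 hi]
            exact (head_get (by simpa using hne) s).1 hs0
          · rw [if_neg hs0] at h3; cases h3
        | false =>
          rw [hi, if_neg (by simp)] at h3
          exact key2 none s (by simpa using h3.symm)
      · rw [if_neg hl] at h3; cases h3

/-! ### Completeness -/

theorem zeros_eq {l : List Bool} {n : ℕ} (h : val l = n) : zeros l = decide (n = 0) := by
  rw [Bool.eq_iff_iff, zeros_iff, h, decide_eq_true_iff]

/-- A look-up sweep. -/
theorem W_look {N : ℕ} (hN : 0 < N) {i : ℕ} {s : Option M.G} {ts : List M.Dd}
    (hlen : ts.length = N) (hi : val (ts.map fun d : M.Dd => d.2.1) = i + 1)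
    (h0 : i = 0 → ((ts.map fun d : M.Dd => d.2.2).tail ++ [none]).head? = some s)
    (h1 : i ≠ 0 → ∀ ts' : List M.Dd, ts'.length = N → val (ts'.map fun d : M.Dd => d.2.1) = i →
      ts'.map (fun d : M.Dd => d.2.2) = (ts.map fun d : M.Dd => d.2.2).tail ++ [none] → M.W (M.startL s) ts') :
    M.W (M.startL s) ts := by
  obtain ⟨xs, e1, e2, e3, e4, e5⟩ := exists_letters (M := M) (M.q₀, fun _ => none) ts
    (ts.map fun d : M.Dd => d.1) (decL true (ts.map fun d : M.Dd => d.2.1))
    ((ts.map fun d : M.Dd => d.2.2).tail ++ [none]) (by simp) (by simp) (by simp; omega)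
  have hd : decO true (ts.map fun d : M.Dd => d.2.1) = false := decO_true (by omega)
  have hv := val_dec true (ts.map fun d : M.Dd => d.2.1)
  rw [hd] at hv
  simp only [Bool.toNat_true, Bool.toNat_false, Nat.mul_zero, Nat.add_zero] at hv
  have hv' : val (decL true (ts.map fun d : M.Dd => d.2.1)) = i := by omega
  have hne : xs ≠ [] := by
    rintro rfl
    simp at e1
    rw [e1] at hlen
    simp at hlen
    omega
  have eold : ∀ (β : Type) (f : M.Dd → β), xs.map (fun x => f x.1) = ts.map f := by
    intro β f; rw [← e1, List.map_map]; rfl
  have enew : ∀ (β : Type) (f : M.Dd → β), List.map f (xs.map fun x => x.2.1) =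
      xs.map (fun x => f x.2.1) := by
    intro β f; rw [List.map_map]; rfl
  rw [← e1]
  refine W.mk (M.startL s) xs
    (.inr (.inr s), (false, zeros (ts.map fun d : M.Dd => d.1)), (.dec, false, decide (i = 0)),
      (true, ((ts.map fun d : M.Dd => d.2.2).tail ++ [none]).head?, some none),
      lastH (fun x => x.2.2) none xs)
    (fun _ => if i = 0 then none else some (M.startL s)) ?_ ?_ ?_
  · rw [run_psi]
    refine ⟨rfl, ⟨?_, ?_⟩, ⟨?_, ?_⟩, ?_, rfl⟩
    · rw [e2]
      change _ = decL false _
      rw [decL_false, eold _ (fun d : M.Dd => d.1)]
    · change _ = (decO false _, true && _)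
      rw [decO_false, e2, Bool.true_and]
    · rw [e3]
      change _ = decL true _
      rw [eold _ (fun d : M.Dd => d.2.1)]
    · change _ = (Op.dec, decO true _, true && _)
      rw [eold _ (fun d : M.Dd => d.2.1), hd, e3, zeros_eq hv', Bool.true_and]
    · change runO _ (true, none, none) xs = _
      rw [run_ψY_true _ _ hne]
      refine ⟨none, ?_, ?_⟩
      · rw [e4, eold _ (fun d : M.Dd => d.2.2)]
      · rw [e4]
  · intro k
    rw [chi_look, chiL, if_pos rfl]
    by_cases hz : i = 0
    · rw [if_pos hz, if_pos (by simp [hz]), if_pos (h0 hz)]
    · rw [if_neg hz, if_neg (by simp [hz])]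
  · intro k e'' hk
    by_cases hz : i = 0
    · rw [if_pos hz] at hk; cases hk
    · rw [if_neg hz] at hk
      obtain rfl : M.startL s = e'' := by simpa using hk
      refine h1 hz _ ?_ ?_ ?_
      · rw [List.length_map, ← hlen, ← e1, List.length_map]
      · rw [enew _ (fun d : M.Dd => d.2.1), e3, hv']
      · rw [enew _ (fun d : M.Dd => d.2.2), e4]

theorem look_complete {N : ℕ} (hN : 0 < N) (i : ℕ) (s : Option M.G) (ts : List M.Dd)
    (hlen : ts.length = N) (hi : val (ts.map fun d : M.Dd => d.2.1) = i + 1)
    (hs : ((ts.map fun d : M.Dd => d.2.2)[i + 1]?).join = s) : M.W (M.startL s) ts := by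
  induction i generalizing ts with
  | zero =>
    refine W_look hN hlen hi (fun _ => ?_) (fun h => absurd rfl h)
    rw [head_get (by simp), shift_get (by intro h0; simp at h0; subst h0; simp at hlen; omega)]
    exact hs
  | succ i ih =>
    refine W_look hN hlen hi (fun h => by omega) (fun _ ts' h1 h2 h3 => ih ts' h1 h2 ?_)
    rw [h3, shift_get (by intro h0; simp at h0; subst h0; simp at hlen; omega)]
    exact hs

/-- A normal sweep. -/
theorem W_norm {w : List M.G} {N : ℕ} (hN : 0 < N) {T : ℕ} (q : M.Q) (gg : M.K → Option M.G)
    {c : M.Cl} {p : Op} {b : Bool} {ts : List M.Dd} (hlen : ts.length = N)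
    (hs : ts.map (fun d : M.Dd => d.2.2) = syms w N) (hT : val (ts.map fun d : M.Dd => d.1) = T + 1)
    (ho : opO p b (ts.map fun d : M.Dd => d.2.1) = false) {i : ℕ}
    (hi : val (opL p b (ts.map fun d : M.Dd => d.2.1)) = i) (g : Option (Option M.K) → Option M.St)
    (hg : ∀ k, M.chi (c, (false, decide (T = 0)), (p, false, decide (i = 0)),
      (false, (syms w N).head?, none), some (q, gg)) k = some (g k))
    (hw : ∀ k e'', g k = some e'' → ∀ ts' : List M.Dd, ts'.length = N →
      val (ts'.map fun d : M.Dd => d.1) = T → val (ts'.map fun d : M.Dd => d.2.1) = i →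
      ts'.map (fun d : M.Dd => d.2.2) = syms w N → M.W e'' ts') : M.W (M.startN c p b) ts := by
  obtain ⟨xs, e1, e2, e3, e4, e5⟩ := exists_letters (M := M) (q, gg) ts
    (decL true (ts.map fun d : M.Dd => d.1)) (opL p b (ts.map fun d : M.Dd => d.2.1))
    (ts.map fun d : M.Dd => d.2.2) (by simp) (by simp) (by simp)
  have hd : decO true (ts.map fun d : M.Dd => d.1) = false := decO_true (by omega)
  have hv := val_dec true (ts.map fun d : M.Dd => d.1)
  rw [hd] at hv
  simp only [Bool.toNat_true, Bool.toNat_false, Nat.mul_zero, Nat.add_zero] at hv
  have hv' : val (decL true (ts.map fun d : M.Dd => d.1)) = T := by omega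
  have hne : xs ≠ [] := by
    rintro rfl
    simp at e1
    rw [e1] at hlen
    simp at hlen
    omega
  have eold : ∀ (β : Type) (f : M.Dd → β), xs.map (fun x => f x.1) = ts.map f := by
    intro β f; rw [← e1, List.map_map]; rfl
  have enew : ∀ (β : Type) (f : M.Dd → β), List.map f (xs.map fun x => x.2.1) =
      xs.map (fun x => f x.2.1) := by
    intro β f; rw [List.map_map]; rfl
  rw [← e1]
  refine W.mk (M.startN c p b) xs
    (c, (false, decide (T = 0)), (p, false, decide (i = 0)),
      (false, (syms w N).head?, none), some (q, gg)) g ?_ hg ?_
  · rw [run_psi]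
    refine ⟨rfl, ⟨?_, ?_⟩, ⟨?_, ?_⟩, ?_, ?_⟩
    · rw [e2]
      change _ = decL true _
      rw [eold _ (fun d : M.Dd => d.1)]
    · change _ = (decO true _, true && _)
      rw [eold _ (fun d : M.Dd => d.1), hd, e2, Bool.true_and, zeros_eq hv']
    · rw [e3]
      change _ = opL p b _
      rw [eold _ (fun d : M.Dd => d.2.1)]
    · change _ = (p, opO p b _, true && _)
      rw [eold _ (fun d : M.Dd => d.2.1), ho, e3, zeros_eq hi, Bool.true_and]
    · change runO _ (false, none, none) xs = _
      rw [run_ψY_false]
      refine ⟨?_, ?_⟩
      · rw [e4, eold _ (fun d : M.Dd => d.2.2)]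
      · rw [e4, hs]
        simp
    · exact (lastH_const _ _ _ e5 _ hne).symm
  · intro k e'' hk
    refine hw k e'' hk _ ?_ ?_ ?_ ?_
    · rw [List.length_map, ← hlen, ← e1, List.length_map]
    · rw [enew _ (fun d : M.Dd => d.1), e2, hv']
    · rw [enew _ (fun d : M.Dd => d.2.1), e3, hi]
    · rw [enew _ (fun d : M.Dd => d.2.2), e4, hs]

theorem win_complete {w : List M.G} {N : ℕ} (hN : 0 < N) (hw : w.length ≤ N) (T : ℕ) :
    ∀ (i : ℕ) (c : M.Cl) (p : Op) (b : Bool) (ts : List M.Dd), M.Hold w T i c →
      i + T + 2 ≤ 2 ^ N → ts.length = N → ts.map (fun d : M.Dd => d.2.2) = syms w N →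
      val (ts.map fun d : M.Dd => d.1) = T + 1 → opO p b (ts.map fun d : M.Dd => d.2.1) = false →
      val (opL p b (ts.map fun d : M.Dd => d.2.1)) = i → M.W (M.startN c p b) ts := by
  have hsne : syms w N ≠ [] := by
    intro h0
    have := congrArg List.length h0
    simp [syms] at this
    omega
  induction T with
  | zero =>
    intro i c p b ts hh hb hlen hs hT ho hi
    rcases c with q | ⟨k, s⟩ | s
    · refine W_norm hN M.q₀ (fun _ => none) hlen hs hT ho hi (fun _ => none) ?_ ?_
      · intro k
        have hq : q = M.q₀ := hh.symm
        rw [decide_eq_true rfl, chi_zero, chi0, if_pos hq]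
      · intro k e'' hk; cases hk
    · by_cases hk : k = M.k₀
      · have e1 : (M.conf w 0).2 k = w := by simp [conf, hk]
        have hh' : ((syms w N)[i]?).join = s := by
          rw [syms_get hw, ← e1]; exact hh
        by_cases hi0 : i = 0
        · refine W_norm hN M.q₀ (fun _ => none) hlen hs hT ho hi (fun _ => none) ?_ ?_
          · intro k
            rw [decide_eq_true rfl, chi_zero, chi0, if_pos hk, if_pos (by simp [hi0]), if_pos]
            rw [head_get hsne, ← hh', hi0]
          · intro k e'' hk; cases hk
        · refine W_norm hN M.q₀ (fun _ => none) hlen hs hT ho hi (fun _ => some (M.startL s)) ?_ ?_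
          · intro k
            rw [decide_eq_true rfl, chi_zero, chi0, if_pos hk, if_neg (by simp [hi0])]
          · intro k e'' hk ts' h1 _ h3 h4
            obtain rfl : M.startL s = e'' := by simpa using hk
            obtain ⟨j, rfl⟩ := Nat.exists_eq_succ_of_ne_zero hi0
            exact look_complete hN j s ts' h1 h3 (by rw [h4]; exact hh')
      · refine W_norm hN M.q₀ (fun _ => none) hlen hs hT ho hi (fun _ => none) ?_ ?_
        · intro k'
          have e1 : (M.conf w 0).2 k = [] := by simp [conf, hk]
          have hh' : ((M.conf w 0).2 k)[i]? = s := hh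
          rw [e1] at hh'
          rw [decide_eq_true rfl, chi_zero, chi0, if_neg hk, if_pos]
          rw [← hh']; rfl
        · intro k e'' hk; cases hk
    · exact hh.elim
  | succ T ih =>
    intro i c p b ts hh hb hlen hs hT ho hi
    -- the premises
    have hstate : ∀ ts' : List M.Dd, ts'.length = N →
        val (ts'.map fun d : M.Dd => d.1) = T + 1 → ts'.map (fun d : M.Dd => d.2.2) = syms w N →
        M.W (M.startN (.inl (M.conf w T).1) .reset false) ts' := by
      intro ts' h1 h2 h3
      exact ih 0 _ _ _ ts' rfl (by omega) h1 h3 h2 rfl (by rw [opL]; exact val_replicate_false _)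
    have htop : ∀ (k : M.K) (ts' : List M.Dd), ts'.length = N →
        val (ts'.map fun d : M.Dd => d.1) = T + 1 → ts'.map (fun d : M.Dd => d.2.2) = syms w N →
        M.W (M.startN (.inr (.inl (k, ((M.conf w T).2 k).head?))) .reset false) ts' := by
      intro k ts' h1 h2 h3
      exact ih 0 _ _ _ ts' (by rw [List.head?_eq_getElem?]; rfl) (by omega) h1 h3 h2 rfl
        (by rw [opL]; exact val_replicate_false _)
    rcases c with q' | ⟨k, s⟩ | s
    · refine W_norm hN (M.conf w T).1 (fun k => ((M.conf w T).2 k).head?) hlen hs hT ho hi
        (fun b => match b with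
          | none => some (M.startN (.inl (M.conf w T).1) .reset false)
          | some none => none
          | some (some k) =>
            some (M.startN (.inr (.inl (k, ((M.conf w T).2 k).head?))) .reset false)) ?_ ?_
      · intro b
        rw [decide_eq_false (Nat.succ_ne_zero T), chi_pos]
        rcases b with _ | _ | k
        · rfl
        · rw [hold_succ_st] at hh
          rw [chiB, chi1, if_pos hh]
        · rfl
      · intro b e'' hb' ts' h1 h2 h3 h4
        rcases b with _ | _ | k
        · obtain rfl : _ = e'' := by simpa using hb'
          exact hstate ts' h1 h2 h4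
        · cases hb'
        · obtain rfl : _ = e'' := by simpa using hb'
          exact htop k ts' h1 h2 h4
    · rw [hold_succ_cell] at hh
      cases ha : M.act (M.conf w T).1 (fun k => ((M.conf w T).2 k).head?) k with
      | keep =>
        rw [ha] at hh
        refine W_norm hN (M.conf w T).1 (fun k => ((M.conf w T).2 k).head?) hlen hs hT ho hi
          (fun b => match b with
            | none => some (M.startN (.inl (M.conf w T).1) .reset false)
            | some none => some (M.startN (.inr (.inl (k, s))) .dec false)
            | some (some k) =>
              some (M.startN (.inr (.inl (k, ((M.conf w T).2 k).head?))) .reset false)) ?_ ?_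
        · intro b
          rw [decide_eq_false (Nat.succ_ne_zero T), chi_pos]
          rcases b with _ | _ | k
          · rfl
          · rw [chiB, chi1, ha]
          · rfl
        · intro b e'' hb' ts' h1 h2 h3 h4
          rcases b with _ | _ | k
          · obtain rfl : _ = e'' := by simpa using hb'
            exact hstate ts' h1 h2 h4
          · obtain rfl : _ = e'' := by simpa using hb'
            refine ih i _ _ _ ts' hh (by omega) h1 h4 h2 ?_ ?_
            · rw [opO, decO_false]
            · rw [opL, decL_false, h3]
          · obtain rfl : _ = e'' := by simpa using hb'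
            exact htop k ts' h1 h2 h4
      | pop =>
        rw [ha] at hh
        refine W_norm hN (M.conf w T).1 (fun k => ((M.conf w T).2 k).head?) hlen hs hT ho hi
          (fun b => match b with
            | none => some (M.startN (.inl (M.conf w T).1) .reset false)
            | some none => some (M.startN (.inr (.inl (k, s))) .inc true)
            | some (some k) =>
              some (M.startN (.inr (.inl (k, ((M.conf w T).2 k).head?))) .reset false)) ?_ ?_
        · intro b
          rw [decide_eq_false (Nat.succ_ne_zero T), chi_pos]
          rcases b with _ | _ | k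
          · rfl
          · rw [chiB, chi1, ha]
          · rfl
        · intro b e'' hb' ts' h1 h2 h3 h4
          rcases b with _ | _ | k
          · obtain rfl : _ = e'' := by simpa using hb'
            exact hstate ts' h1 h2 h4
          · obtain rfl : _ = e'' := by simpa using hb'
            have hlen' : (ts'.map fun d : M.Dd => d.2.1).length = N := by simpa using h1
            have ho' : incO true (ts'.map fun d : M.Dd => d.2.1) = false :=
              incO_true (by rw [hlen', h3]; omega)
            have hv := val_inc true (ts'.map fun d : M.Dd => d.2.1)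
            rw [ho'] at hv
            simp only [Bool.toNat_true, Bool.toNat_false, Nat.mul_zero, Nat.add_zero] at hv
            refine ih (i + 1) _ _ _ ts' ?_ (by omega) h1 h4 h2 ho' ?_
            · simp only [Act.run] at hh
              rw [List.getElem?_tail] at hh
              exact hh
            · rw [opL, hv, h3]
          · obtain rfl : _ = e'' := by simpa using hb'
            exact htop k ts' h1 h2 h4
      | push s' =>
        rw [ha] at hh
        by_cases hi0 : i = 0
        · refine W_norm hN (M.conf w T).1 (fun k => ((M.conf w T).2 k).head?) hlen hs hT ho hi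
            (fun b => match b with
              | none => some (M.startN (.inl (M.conf w T).1) .reset false)
              | some none => none
              | some (some k) =>
                some (M.startN (.inr (.inl (k, ((M.conf w T).2 k).head?))) .reset false)) ?_ ?_
          · intro b
            rw [decide_eq_false (Nat.succ_ne_zero T), chi_pos]
            rcases b with _ | _ | k
            · rfl
            · rw [chiB, chi1, ha]
              simp only
              rw [if_pos (by simp [hi0]), if_pos]
              rw [hi0] at hh
              exact hh.symm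
            · rfl
          · intro b e'' hb' ts' h1 h2 h3 h4
            rcases b with _ | _ | k
            · obtain rfl : _ = e'' := by simpa using hb'
              exact hstate ts' h1 h2 h4
            · cases hb'
            · obtain rfl : _ = e'' := by simpa using hb'
              exact htop k ts' h1 h2 h4
        · refine W_norm hN (M.conf w T).1 (fun k => ((M.conf w T).2 k).head?) hlen hs hT ho hi
            (fun b => match b with
              | none => some (M.startN (.inl (M.conf w T).1) .reset false)
              | some none => some (M.startN (.inr (.inl (k, s))) .dec true)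
              | some (some k) =>
                some (M.startN (.inr (.inl (k, ((M.conf w T).2 k).head?))) .reset false)) ?_ ?_
          · intro b
            rw [decide_eq_false (Nat.succ_ne_zero T), chi_pos]
            rcases b with _ | _ | k
            · rfl
            · rw [chiB, chi1, ha]
              simp only
              rw [if_neg (by simp [hi0])]
            · rfl
          · intro b e'' hb' ts' h1 h2 h3 h4
            rcases b with _ | _ | k
            · obtain rfl : _ = e'' := by simpa using hb'
              exact hstate ts' h1 h2 h4
            · obtain rfl : _ = e'' := by simpa using hb'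
              obtain ⟨j, rfl⟩ := Nat.exists_eq_succ_of_ne_zero hi0
              have ho' : decO true (ts'.map fun d : M.Dd => d.2.1) = false :=
                decO_true (by omega)
              have hv := val_dec true (ts'.map fun d : M.Dd => d.2.1)
              rw [ho'] at hv
              simp only [Bool.toNat_true, Bool.toNat_false, Nat.mul_zero, Nat.add_zero] at hv
              refine ih j _ _ _ ts' ?_ (by omega) h1 h4 h2 ho' ?_
              · exact hh
              · rw [opL]; omega
            · obtain rfl : _ = e'' := by simpa using hb'
              exact htop k ts' h1 h2 h4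
    · exact hh.elim

/-- The initial tape. -/
noncomputable def cellOf (M : SM) (o : Option M.G) : M.Dd := (true, true, o)

theorem win_iff {w : List M.G} {N : ℕ} (hN : 0 < N) (hw : w.length ≤ N) (c₀ : M.Cl) :
    (M.asm c₀).Win (M.asm c₀).e₀ ((List.range N).map fun m => M.cellOf (w[m]?)) ↔
      M.Hold w (2 ^ N - 2) 0 c₀ := by
  rw [win_iff_W]
  change M.W (M.startN c₀ .reset false) ((List.range N).map fun m => M.cellOf (w[m]?)) ↔ _
  have h1 : ((List.range N).map fun m => M.cellOf (w[m]?)).length = N := by simp
  have h2 : ((List.range N).map fun m => M.cellOf (w[m]?)).map (fun d : M.Dd => d.2.2) =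
      syms w N := by
    rw [List.map_map]; rfl
  have h3 : ((List.range N).map fun m => M.cellOf (w[m]?)).map (fun d : M.Dd => d.1) =
      List.replicate N true := by
    rw [List.map_map]
    refine List.eq_replicate_iff.2 ⟨by simp, ?_⟩
    intro b hb
    simp only [List.mem_map] at hb
    obtain ⟨m, _, rfl⟩ := hb
    rfl
  have h4 := val_replicate_true N
  have h5 : 2 ≤ 2 ^ N := by
    calc 2 = 2 ^ 1 := rfl
      _ ≤ 2 ^ N := Nat.pow_le_pow_right (by norm_num) hN
  have h6 : val (opL .reset false
      (((List.range N).map fun m => M.cellOf (w[m]?)).map (fun d : M.Dd => d.2.1))) = 0 := by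
    rw [opL]; exact val_replicate_false _
  constructor
  · intro h
    have := ((win_sound hN hw h h1).1 c₀ .reset false rfl h2).2
    rw [h3, h6] at this
    have e : val (List.replicate N true) - 1 = 2 ^ N - 2 := by omega
    rw [e] at this
    exact this
  · intro h
    refine win_complete hN hw (2 ^ N - 2) 0 c₀ .reset false _ h (by omega) h1 h2 ?_ rfl h6
    rw [h3]
    omega

end SM

end Pool.Agent.Lib.MP_ce3b04_lc
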