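import Pool.Agent.Lib.MP_ce3b04_lc.Gadget

/-!
# Strong sequentiality of the gadget
-/

open Relation

namespace Pool.Agent.Lib.MP_ce3b04_lc

namespace Sys

/-- Acceptance: `Acc M b O` if, starting from the letter `b` with the open places `O`, one can
build a finite tree all whose leaves pass the final test. -/
inductive Acc (M : Sys) : M.B → (M.X → Prop) → Prop
  | leaf (b : M.B) (O : M.X → Prop) : M.leaf b = true → (∀ v, M.fin b v = true → O v) →
      Acc M b O
  | node (b : M.B) (O : M.X → Prop) (ch : M.Ch b → M.B) : M.leaf b = false →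
      (∀ k, Acc M (ch k) (fun w => M.init (ch k) w = true ∨
        ∃ v, O v ∧ M.T b v k (ch k) w = true)) → Acc M b O

variable {M : Sys}

theorem Acc.mono {b : M.B} {O O' : M.X → Prop} (h : Acc M b O) (hO : ∀ v, O v → O' v) :
    Acc M b O' := by
  induction h generalizing O' with
  | leaf b O hb h => exact .leaf b O' hb (fun v hv => hO v (h v hv))
  | node b O ch hb h ih =>
    refine .node b O' ch hb ?_
    intro k
    refine ih k ?_
    rintro w (hw | ⟨v, hv, hw⟩)
    · exact Or.inl hw
    · exact Or.inr ⟨v, hO v hv, hw⟩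

/-- Some tree is accepted, from the initial places or from the places opened by one place. -/
def Good (M : Sys) : Prop :=
  (∃ b, Acc M b (fun w => M.init b w = true)) ∨
    ∃ (b : M.B) (v : M.X) (k : M.Ch b) (b' : M.B), M.leaf b = false ∧
      Acc M b' (fun w => M.init b' w = true ∨ M.T b v k b' w = true)

/-- Every safe redex occurrence of `t` is covered by the patterns `W`. -/
def Bad (W : M.B → (M.X → Bool) → Prop) (t : Term M.sig) : Prop :=
  ¬ M.trs.IsNF t ∧ ∀ C Δ, t = Ctx.fill C Δ → M.trs.IsRedex Δ → Safe M.trs C →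
    ∃ b H a, W b H ∧ Ctx.fill C .bul = node b a ∧ CpF b (fP b H) a

theorem Cp.eq_of_nf {c : Fin 4} {t : Term M.sig} (h : Cp c t) (ht : M.trs.IsNF t) :
    t = M.cst c := by
  rcases h with h | h
  · exact h
  · exact absurd h (IsNF.not_flex (R := M.trs) ht)

theorem Cp.flex {c c' : Fin 4} {t : Term M.sig} (h : Cp c t) (h' : Cp c' t) (hc : c ≠ c') :
    Flex M.trs t := by
  rcases h with h | h
  · rcases h' with h' | h'
    · exact absurd (cst_inj (h.symm.trans h')) hc
    · exact h'
  · exact h

theorem not_Cp_cst {c c' : Fin 4} (hc : c ≠ c') : ¬ Cp c (M.cst c') := by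
  rintro (h | h)
  · exact hc (cst_inj h).symm
  · exact not_flex_cst _ h

theorem Flex.not_nf {t : Term M.sig} (h : Flex M.trs t) : ¬ M.trs.IsNF t :=
  fun h' => IsNF.not_flex (R := M.trs) h' h

theorem not_Cp_of_safe {C : Ctx M.sig} (h : Safe M.trs C) (c : Fin 4) :
    ¬ Cp c (C.fill .bul) := by
  rintro (h1 | h1)
  · refine Safe.not_bulFree (R := M.trs) h .refl ?_
    have h2 := M.cst_bulFree c
    rw [← h1] at h2
    exact h2
  · exact h.not_flex h1

open Classical in
/-- What a safe redex occurrence in an argument of a bad term gives. -/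
theorem Bad.arg {W : M.B → (M.X → Bool) → Prop} {b : M.B} {a : M.Slot b → Term M.sig}
    (h : Bad W (node b a)) {s : M.Slot b} {C : Ctx M.sig} {Δ : Term M.sig}
    (h1 : a s = C.fill Δ) (h2 : M.trs.IsRedex Δ) (h3 : Safe M.trs C) :
    (CpF b (M.f₁ b) (Function.update a s (C.fill .bul)) ∨
      CpF b (M.f₂ b) (Function.update a s (C.fill .bul)) ∨
      (M.leaf b = true ∧ CpF b (M.f₃ b) (Function.update a s (C.fill .bul))) ∨
      (M.leaf b = false ∧ ∃ v k b', CpC b v k b' (Function.update a s (C.fill .bul)))) ∨
      ∃ H, W b H ∧ CpF b (fP b H) (Function.update a s (C.fill .bul)) := by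
  by_cases hf : Flex M.trs (node b (Function.update a s (C.fill .bul)))
  · exact Or.inl (flex_node_iff.1 hf)
  · right
    have h4 : node b a = Ctx.fill (.arg (S := M.sig) (Sum.inr b) a s C) Δ := by
      simp only [Ctx.fill, node]
      congr 1
      exact (Function.update_eq_iff.2 ⟨h1.symm, fun _ _ => rfl⟩).symm
    obtain ⟨b', H, a', h5, h6, h7⟩ := h.2 _ Δ h4 h2 ⟨h3, hf⟩
    have h6' : node b (Function.update a s (C.fill .bul)) = node b' a' := h6
    have h8 := node_head h6'
    subst h8
    have h9 := node_inj h6'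
    subst h9
    exact ⟨H, h5, h7⟩

section slots

variable {W : M.B → (M.X → Bool) → Prop} {b : M.B} {a : M.Slot b → Term M.sig}
  (hbad : Bad W (node b a)) {C : Ctx M.sig} {Δ : Term M.sig} (h2 : M.trs.IsRedex Δ)
  (h3 : Safe M.trs C)

include hbad h2 h3

theorem Bad.z₁ (h1 : a .z₁ = C.fill Δ) :
    Cp 0 (a .z₂) ∧ (∀ v, Cp 1 (a (.x v))) ∧ ∀ k, Cp 1 (a (.y k)) := by
  classical
  have key := fun c => not_Cp_of_safe h3 c
  rcases hbad.arg h1 h2 h3 with (h | h | ⟨_, h⟩ | ⟨_, v, k, b', h⟩) | ⟨H, _, h⟩
  · have := h .z₁ 0 rfl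
    rw [Function.update_self] at this
    exact absurd this (key 0)
  · refine ⟨?_, ?_, ?_⟩
    · have := h .z₂ 0 rfl
      rwa [Function.update_of_ne (by simp)] at this
    · intro v
      have := h (.x v) 1 rfl
      rwa [Function.update_of_ne (by simp)] at this
    · intro k
      have := h (.y k) 1 rfl
      rwa [Function.update_of_ne (by simp)] at this
  · have := h .z₁ 3 rfl
    rw [Function.update_self] at this
    exact absurd this (key 3)
  · have := h.1
    rw [Function.update_self] at this
    exact absurd this (key 1)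
  · have := h .z₁ 2 rfl
    rw [Function.update_self] at this
    exact absurd this (key 2)

theorem Bad.z₂ (h1 : a .z₂ = C.fill Δ) :
    Cp 0 (a .z₁) ∧ (∀ v, M.init b v = false → Cp 1 (a (.x v))) ∧ ∀ k, Cp 0 (a (.y k)) := by
  classical
  have key := fun c => not_Cp_of_safe h3 c
  rcases hbad.arg h1 h2 h3 with (h | h | ⟨_, h⟩ | ⟨_, v, k, b', h⟩) | ⟨H, _, h⟩
  · refine ⟨?_, ?_, ?_⟩
    · have := h .z₁ 0 rfl
      rwa [Function.update_of_ne (by simp)] at this
    · intro v hv
      have := h (.x v) 1 (by simp [f₁, hv])
      rwa [Function.update_of_ne (by simp)] at this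
    · intro k
      have := h (.y k) 0 rfl
      rwa [Function.update_of_ne (by simp)] at this
  · have := h .z₂ 0 rfl
    rw [Function.update_self] at this
    exact absurd this (key 0)
  · have := h .z₂ 3 rfl
    rw [Function.update_self] at this
    exact absurd this (key 3)
  · have := h.2.1
    rw [Function.update_self] at this
    exact absurd this (key 1)
  · have := h .z₂ 2 rfl
    rw [Function.update_self] at this
    exact absurd this (key 2)

theorem Bad.x {v : M.X} (h1 : a (.x v) = C.fill Δ) :
    (M.init b v = true ∧ Cp 0 (a .z₁) ∧ (∀ w, M.init b w = false → Cp 1 (a (.x w))) ∧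
      ∀ k, Cp 0 (a (.y k))) ∨
    ∃ H, W b H ∧ H v = true ∧ Cp 2 (a .z₁) ∧ Cp 2 (a .z₂) ∧
      (∀ w, H w = false → Cp 1 (a (.x w))) ∧ ∀ k, Cp 2 (a (.y k)) := by
  classical
  have key := fun c => not_Cp_of_safe h3 c
  rcases hbad.arg h1 h2 h3 with (h | h | ⟨_, h⟩ | ⟨_, w, k, b', h⟩) | ⟨H, hH, h⟩
  · left
    have hv : M.init b v = true := by
      by_contra hv
      have := h (.x v) 1 (by simp [f₁, hv])
      rw [Function.update_self] at this
      exact key 1 this
    refine ⟨hv, ?_, ?_, ?_⟩
    · have := h .z₁ 0 rfl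
      rwa [Function.update_of_ne (by simp)] at this
    · intro w hw
      have hne : w ≠ v := by
        rintro rfl
        rw [hv] at hw
        cases hw
      have := h (.x w) 1 (by simp [f₁, hw])
      rwa [Function.update_of_ne (by simpa using hne)] at this
    · intro k
      have := h (.y k) 0 rfl
      rwa [Function.update_of_ne (by simp)] at this
  · have := h (.x v) 1 rfl
    rw [Function.update_self] at this
    exact absurd this (key 1)
  · exfalso
    by_cases hv : M.fin b v
    · have := h (.x v) 0 (by simp [f₃, hv])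
      rw [Function.update_self] at this
      exact key 0 this
    · have := h (.x v) 1 (by simp [f₃, hv])
      rw [Function.update_self] at this
      exact key 1 this
  · exfalso
    by_cases hv : v = w
    · subst hv
      have := h.2.2.1
      rw [Function.update_self] at this
      exact key 0 this
    · have := h.2.2.2.1 v hv
      rw [Function.update_self] at this
      exact key 1 this
  · right
    have hv : H v = true := by
      by_contra hv
      have := h (.x v) 1 (by simp [fP, hv])
      rw [Function.update_self] at this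
      exact key 1 this
    refine ⟨H, hH, hv, ?_, ?_, ?_, ?_⟩
    · have := h .z₁ 2 rfl
      rwa [Function.update_of_ne (by simp)] at this
    · have := h .z₂ 2 rfl
      rwa [Function.update_of_ne (by simp)] at this
    · intro w hw
      have hne : w ≠ v := by
        rintro rfl
        rw [hv] at hw
        cases hw
      have := h (.x w) 1 (by simp [fP, hw])
      rwa [Function.update_of_ne (by simpa using hne)] at this
    · intro k
      have := h (.y k) 2 rfl
      rwa [Function.update_of_ne (by simp)] at this

/-- The conditions of `lhsC` outside of the place `y k`. -/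
def CE (b : M.B) (v : M.X) (k : M.Ch b) (a : M.Slot b → Term M.sig) : Prop :=
  Cp 1 (a .z₁) ∧ Cp 1 (a .z₂) ∧ Cp 0 (a (.x v)) ∧ (∀ w ≠ v, Cp 1 (a (.x w))) ∧
    ∀ l ≠ k, Cp 3 (a (.y l))

theorem Bad.y {k : M.Ch b} (h1 : a (.y k) = C.fill Δ) :
    (M.leaf b = true ∧ Cp 3 (a .z₁) ∧ Cp 3 (a .z₂) ∧ (∀ v, M.fin b v = true → Cp 0 (a (.x v))) ∧
      ∀ v, M.fin b v = false → Cp 1 (a (.x v))) ∨
    (M.leaf b = false ∧ ∃ v b' a', CE b v k a ∧ C.fill .bul = node b' a' ∧
      CpF b' (fP b' (M.T b v k b')) a') := by
  classical
  have key := fun c => not_Cp_of_safe h3 c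
  rcases hbad.arg h1 h2 h3 with (h | h | ⟨hb, h⟩ | ⟨hb, v, l, b', h⟩) | ⟨H, hH, h⟩
  · have := h (.y k) 0 rfl
    rw [Function.update_self] at this
    exact absurd this (key 0)
  · have := h (.y k) 1 rfl
    rw [Function.update_self] at this
    exact absurd this (key 1)
  · left
    refine ⟨hb, ?_, ?_, ?_, ?_⟩
    · have := h .z₁ 3 rfl
      rwa [Function.update_of_ne (by simp)] at this
    · have := h .z₂ 3 rfl
      rwa [Function.update_of_ne (by simp)] at this
    · intro v hv
      have := h (.x v) 0 (by simp [f₃, hv])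
      rwa [Function.update_of_ne (by simp)] at this
    · intro v hv
      have := h (.x v) 1 (by simp [f₃, hv])
      rwa [Function.update_of_ne (by simp)] at this
  · right
    have hl : l = k := by
      by_contra hl
      have := h.2.2.2.2.1 k (fun h => hl h.symm)
      rw [Function.update_self] at this
      exact key 3 this
    subst hl
    obtain ⟨g1, g2, g3, g4, g5, g6⟩ := h
    rw [Function.update_of_ne (by simp)] at g1 g2 g3
    refine ⟨hb, v, b', ?_⟩
    rw [Function.update_self] at g6
    rcases g6 with g6 | ⟨a', g6, g7⟩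
    · exact absurd g6 h3.not_flex
    · refine ⟨a', ⟨g1, g2, g3, ?_, ?_⟩, g6, g7⟩
      · intro w hw
        have := g4 w hw
        rwa [Function.update_of_ne (by simp)] at this
      · intro m hm
        have := g5 m hm
        rwa [Function.update_of_ne (by simpa using hm)] at this
  · have := h (.y k) 2 rfl
    rw [Function.update_self] at this
    exact absurd this (key 2)

end slots

theorem not_nf_iff {t : Term M.sig} :
    ¬ M.trs.IsNF t ↔ ∃ C Δ, t = Ctx.fill C Δ ∧ M.trs.IsRedex Δ := by
  unfold TRS.IsNF
  push Not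
  rfl

/-- The conclusion of the key lemma. -/
def Concl (W : M.B → (M.X → Bool) → Prop) (t : Term M.sig) : Prop :=
  (∃ b a, t = node b a ∧ Acc M b (fun w => M.init b w = true ∨ ∃ H, W b H ∧ H w = true)) ∨
  (¬ Flex M.trs t ∧ ∃ b a, t = node b a ∧ a .z₁ = M.cst 2 ∧ a .z₂ = M.cst 2 ∧
    (∀ k, a (.y k) = M.cst 2) ∧ (∃ H, W b H ∧ CpF b (fP b H) a) ∧
    ∀ v, ¬ M.trs.IsNF (a (.x v)) → ∃ H, W b H ∧ H v = true)

/-- If no tree is accepted, each proper subterm that is not a normal form has a safe redex
occurrence. -/
theorem exists_safe (hG : ¬ Good M) {t : Term M.sig}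
    (ih : ∀ W : M.B → (M.X → Bool) → Prop, Bad W t → Concl W t)
    (ht : ¬ M.trs.IsNF t) : ∃ C Δ, t = Ctx.fill C Δ ∧ M.trs.IsRedex Δ ∧ Safe M.trs C := by
  by_contra hno
  push Not at hno
  have hb : Bad (fun _ _ => False) t :=
    ⟨ht, fun C Δ h1 h2 h3 => absurd h3 (hno C Δ h1 h2)⟩
  rcases ih _ hb with ⟨b, a, _, h⟩ | ⟨_, b, a, _, _, _, _, ⟨H, h, _⟩, _⟩
  · exact hG (Or.inl ⟨b, h.mono (by simp)⟩)
  · exact h

theorem key_node (hG : ¬ Good M) (b : M.B) (a : M.Slot b → Term M.sig)
    (ih : ∀ s, ∀ W : M.B → (M.X → Bool) → Prop, Bad W (a s) → Concl W (a s))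
    (W : M.B → (M.X → Bool) → Prop) (hbad : Bad W (node b a)) : Concl W (node b a) := by
  classical
  -- `node b a` is not a redex
  have hnr : ¬ M.trs.IsRedex (node b a) := by
    intro h
    obtain ⟨b', H, a', _, h1, _⟩ := hbad.2 .hole _ rfl h trivial
    cases h1
  have hex : ∀ s, ¬ M.trs.IsNF (a s) → ∃ C Δ, a s = Ctx.fill C Δ ∧ M.trs.IsRedex Δ ∧
      Safe M.trs C := fun s hs => exists_safe hG (ih s) hs
  -- consequences for the single places
  have hz₁ : ¬ M.trs.IsNF (a .z₁) →
      Cp 0 (a .z₂) ∧ (∀ v, Cp 1 (a (.x v))) ∧ ∀ k, Cp 1 (a (.y k)) := by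
    intro h
    obtain ⟨C, Δ, h1, h2, h3⟩ := hex _ h
    exact hbad.z₁ h2 h3 h1
  have hz₂ : ¬ M.trs.IsNF (a .z₂) →
      Cp 0 (a .z₁) ∧ (∀ v, M.init b v = false → Cp 1 (a (.x v))) ∧ ∀ k, Cp 0 (a (.y k)) := by
    intro h
    obtain ⟨C, Δ, h1, h2, h3⟩ := hex _ h
    exact hbad.z₂ h2 h3 h1
  have hx : ∀ v, ¬ M.trs.IsNF (a (.x v)) →
      (M.init b v = true ∧ Cp 0 (a .z₁) ∧ (∀ w, M.init b w = false → Cp 1 (a (.x w))) ∧
        ∀ k, Cp 0 (a (.y k))) ∨
      ∃ H, W b H ∧ H v = true ∧ Cp 2 (a .z₁) ∧ Cp 2 (a .z₂) ∧
        (∀ w, H w = false → Cp 1 (a (.x w))) ∧ ∀ k, Cp 2 (a (.y k)) := by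
    intro v h
    obtain ⟨C, Δ, h1, h2, h3⟩ := hex _ h
    exact hbad.x h2 h3 h1
  -- the open places of the node
  have hopen : ∀ v, Flex M.trs (a (.x v)) → M.init b v = true ∨ ∃ H, W b H ∧ H v = true := by
    intro v hv
    rcases hx v (Flex.not_nf hv) with h | ⟨H, h1, h2, _⟩
    · exact Or.inl h.1
    · exact Or.inr ⟨H, h1, h2⟩
  have hMF : ∀ f : M.Slot b → Option (Fin 4), MatchF b f a →
      (f = M.f₁ b ∨ f = M.f₂ b ∨ (M.leaf b = true ∧ f = M.f₃ b)) → False := by
    rintro f hf (rfl | rfl | ⟨hb, rfl⟩)
    · exact hnr (isRedex_iff.2 ⟨b, a, rfl, Or.inl hf⟩)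
    · exact hnr (isRedex_iff.2 ⟨b, a, rfl, Or.inr (Or.inl hf)⟩)
    · exact hnr (isRedex_iff.2 ⟨b, a, rfl, Or.inr (Or.inr (Or.inl ⟨hb, hf⟩))⟩)
  by_cases hy : ∃ k, ¬ M.trs.IsNF (a (.y k))
  · -- Case I
    obtain ⟨k, hk⟩ := hy
    obtain ⟨C₀, Δ₀, c1, c2, c3⟩ := hex _ hk
    rcases hbad.y c2 c3 c1 with ⟨hb, e1, e2, e3, e4⟩ | ⟨hb, v₀, b₀, a₀, hCE, _, _⟩
    · -- a leaf letter
      by_cases n1 : M.trs.IsNF (a .z₁)
      · have q1 := e1.eq_of_nf n1
        have n2 : M.trs.IsNF (a .z₂) := by
          by_contra n2
          have := (hz₂ n2).1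
          rw [q1] at this
          exact not_Cp_cst (by decide) this
        have q2 := e2.eq_of_nf n2
        have nx : ∀ v, M.trs.IsNF (a (.x v)) := by
          intro v
          by_contra nx
          rcases hx v nx with h | ⟨H, _, _, h, _⟩
          · have := h.2.1
            rw [q1] at this
            exact not_Cp_cst (by decide) this
          · rw [q1] at h
            exact not_Cp_cst (by decide) h
        exfalso
        refine hMF (M.f₃ b) ?_ (Or.inr (Or.inr ⟨hb, rfl⟩))
        intro s c hs
        cases s with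
        | z₁ => simp only [f₃, Option.some.injEq] at hs; subst hs; exact q1
        | z₂ => simp only [f₃, Option.some.injEq] at hs; subst hs; exact q2
        | x v =>
          simp only [f₃] at hs
          split_ifs at hs with hv
          · simp only [Option.some.injEq] at hs; subst hs
            exact (e3 v hv).eq_of_nf (nx v)
          · simp only [Option.some.injEq] at hs; subst hs
            exact (e4 v (by simpa using hv)).eq_of_nf (nx v)
        | y l => simp [f₃] at hs
      · left
        refine ⟨b, a, rfl, .leaf b _ hb ?_⟩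
        intro v hv
        exact hopen v ((e3 v hv).flex ((hz₁ n1).2.1 v) (by decide))
    · -- not a leaf letter
      have hbadk : ∀ l, ¬ M.trs.IsNF (a (.y l)) →
          Bad (fun b' H => ∃ v, CE b v l a ∧ H = M.T b v l b') (a (.y l)) := by
        intro l hl
        refine ⟨hl, ?_⟩
        intro C Δ h1 h2 h3
        rcases hbad.y h2 h3 h1 with ⟨hb', _⟩ | ⟨_, v, b', a', h4, h5, h6⟩
        · rw [hb] at hb'; cases hb'
        · exact ⟨b', _, a', ⟨v, h4, rfl⟩, h5, h6⟩
      by_cases n1 : M.trs.IsNF (a .z₁)
      · -- refined places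
        exfalso
        have q1 := hCE.1.eq_of_nf n1
        have n2 : M.trs.IsNF (a .z₂) := by
          by_contra n2
          have := (hz₂ n2).1
          rw [q1] at this
          exact not_Cp_cst (by decide) this
        have q2 := hCE.2.1.eq_of_nf n2
        have nx : ∀ v, M.trs.IsNF (a (.x v)) := by
          intro v
          by_contra nx
          rcases hx v nx with h | ⟨H, _, _, h, _⟩
          · have := h.2.1
            rw [q1] at this
            exact not_Cp_cst (by decide) this
          · rw [q1] at h
            exact not_Cp_cst (by decide) h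
        have qv := hCE.2.2.1.eq_of_nf (nx v₀)
        have qw : ∀ w ≠ v₀, a (.x w) = M.cst 1 := fun w hw =>
          (hCE.2.2.2.1 w hw).eq_of_nf (nx w)
        have huniq : ∀ v l, CE b v l a → v = v₀ := by
          intro v l hv
          by_contra hne
          have := hv.2.2.1
          rw [qw v hne] at this
          exact not_Cp_cst (by decide) this
        rcases ih _ _ (hbadk k hk) with ⟨b', a', h1, h2⟩ | ⟨hnf, b', a', h1, r1, r2, r3, ⟨H, ⟨v, hv, hH⟩, hC⟩, r5⟩
        · refine hG (Or.inr ⟨b, v₀, k, b', hb, h2.mono ?_⟩)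
          rintro w (hw | ⟨H, ⟨v, hv, rfl⟩, hw⟩)
          · exact Or.inl hw
          · rw [huniq v k hv] at hw
            exact Or.inr hw
        · have hv' := huniq v k hv
          subst hv'
          subst hH
          -- the child matches the pattern
          have hm : MatchF b' (fP b' (M.T b v k b')) a' := by
            intro s c hs
            cases s with
            | z₁ => simp only [fP, Option.some.injEq] at hs; subst hs; exact r1
            | z₂ => simp only [fP, Option.some.injEq] at hs; subst hs; exact r2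
            | x w =>
              have hs' := hs
              simp only [fP] at hs
              split_ifs at hs with hw
              simp only [Option.some.injEq] at hs
              subst hs
              have nw : M.trs.IsNF (a' (.x w)) := by
                by_contra nw
                obtain ⟨H, ⟨v', hv', rfl⟩, hw'⟩ := r5 w nw
                rw [huniq v' k hv'] at hw'
                exact hw hw'
              exact (hC (.x w) 1 hs').eq_of_nf nw
            | y l => simp only [fP, Option.some.injEq] at hs; subst hs; exact r3 l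
          have hl3 : ∀ l ≠ k, a (.y l) = M.cst 3 := by
            intro l hl
            have nl : M.trs.IsNF (a (.y l)) := by
              by_contra nl
              obtain ⟨C, Δ, g1, g2, g3⟩ := hex _ nl
              rcases hbad.y g2 g3 g1 with ⟨hb', _⟩ | ⟨_, v', b'', a'', h4, h5, h6⟩
              · rw [hb] at hb'; cases hb'
              · rcases h4.2.2.2.2 k (Ne.symm hl) with h7 | h7
                · rw [h1] at h7; exact cst_ne_node h7.symm
                · exact hnf h7
            exact (hCE.2.2.2.2 l hl).eq_of_nf nl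
          exact hnr (isRedex_iff.2 ⟨b, a, rfl, Or.inr (Or.inr (Or.inr
            ⟨hb, v, k, b', q1, q2, qv, qw, hl3, a', h1, hm⟩))⟩)
      · -- the main case
        left
        obtain ⟨g1, g2, g3⟩ := hz₁ n1
        have n2 := Flex.not_nf (g1.flex hCE.2.1 (by decide))
        obtain ⟨g4, g5, g6⟩ := hz₂ n2
        have hfl : ∀ l, Flex M.trs (a (.y l)) := fun l => (g6 l).flex (g3 l) (by decide)
        have hall : ∀ l, ∃ b', Acc M b' (fun w => M.init b' w = true ∨
            ∃ H, (∃ v, CE b v l a ∧ H = M.T b v l b') ∧ H w = true) := by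
          intro l
          rcases ih _ _ (hbadk l (Flex.not_nf (hfl l))) with ⟨b', a', h1, h2⟩ | ⟨hnf, _⟩
          · exact ⟨b', h2⟩
          · exact absurd (hfl l) hnf
        choose ch hch using hall
        refine ⟨b, a, rfl, .node b _ ch hb ?_⟩
        intro l
        refine (hch l).mono ?_
        rintro w (hw | ⟨H, ⟨v, hv, rfl⟩, hw⟩)
        · exact Or.inl hw
        · exact Or.inr ⟨v, hopen v (hv.2.2.1.flex (g2 v) (by decide)), hw⟩
  · -- Case II
    push Not at hy
    obtain ⟨k₀⟩ := M.neCh b
    -- at most one value of the constants at the places `y`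
    have hyc : ∀ c c' : Fin 4, c ≠ c' → Cp c (a (.y k₀)) → ¬ Cp c' (a (.y k₀)) := by
      intro c c' hc h h'
      exact Flex.not_nf (h.flex h' hc) (hy k₀)
    have hone : (∀ v, M.init b v = false → Cp 1 (a (.x v))) → Cp 0 (a .z₁) →
        (∀ k, Cp 0 (a (.y k))) → False := by
      intro g1 g2 g3
      have n1 : M.trs.IsNF (a .z₁) := by
        by_contra n1
        exact hyc 0 1 (by decide) (g3 k₀) ((hz₁ n1).2.2 k₀)
      refine hMF (M.f₁ b) ?_ (Or.inl rfl)
      intro s c hs
      cases s with
      | z₁ => simp only [f₁, Option.some.injEq] at hs; subst hs; exact g2.eq_of_nf n1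
      | z₂ => simp [f₁] at hs
      | x v =>
        simp only [f₁] at hs
        split_ifs at hs with hv
        simp only [Option.some.injEq] at hs
        subst hs
        have hv' : M.init b v = false := by simpa using hv
        have nv : M.trs.IsNF (a (.x v)) := by
          by_contra nv
          rcases hx v nv with h | ⟨H, _, _, _, _, _, h⟩
          · exact hv h.1
          · exact hyc 0 2 (by decide) (g3 k₀) (h k₀)
        exact (g1 v hv').eq_of_nf nv
      | y l =>
        simp only [f₁, Option.some.injEq] at hs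
        subst hs
        exact (g3 l).eq_of_nf (hy l)
    have hs : ∃ s, ¬ M.trs.IsNF (a s) := by
      by_contra hno
      push Not at hno
      exact hbad.1 (isNF_app_iff.2 ⟨hnr, hno⟩)
    obtain ⟨s, hs⟩ := hs
    cases s with
    | z₁ =>
      exfalso
      obtain ⟨g1, g2, g3⟩ := hz₁ hs
      have n2 : M.trs.IsNF (a .z₂) := by
        by_contra n2
        exact hyc 1 0 (by decide) (g3 k₀) ((hz₂ n2).2.2 k₀)
      refine hMF (M.f₂ b) ?_ (Or.inr (Or.inl rfl))
      intro s c hs'
      cases s with
      | z₁ => simp [f₂] at hs'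
      | z₂ => simp only [f₂, Option.some.injEq] at hs'; subst hs'; exact g1.eq_of_nf n2
      | x v =>
        simp only [f₂, Option.some.injEq] at hs'
        subst hs'
        have nv : M.trs.IsNF (a (.x v)) := by
          by_contra nv
          rcases hx v nv with h | ⟨H, _, _, _, _, _, h⟩
          · exact hyc 1 0 (by decide) (g3 k₀) (h.2.2.2 k₀)
          · exact hyc 1 2 (by decide) (g3 k₀) (h k₀)
        exact (g2 v).eq_of_nf nv
      | y l =>
        simp only [f₂, Option.some.injEq] at hs'
        subst hs'
        exact (g3 l).eq_of_nf (hy l)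
    | z₂ =>
      exfalso
      obtain ⟨g1, g2, g3⟩ := hz₂ hs
      exact hone g2 g1 g3
    | x v =>
      rcases hx v hs with ⟨_, h1, h2, h3⟩ | ⟨H, h1, h2, h3, h4, h5, h6⟩
      · exact (hone h2 h1 h3).elim
      · right
        have n1 : M.trs.IsNF (a .z₁) := by
          by_contra n1
          exact hyc 2 1 (by decide) (h6 k₀) ((hz₁ n1).2.2 k₀)
        have n2 : M.trs.IsNF (a .z₂) := by
          by_contra n2
          exact hyc 2 0 (by decide) (h6 k₀) ((hz₂ n2).2.2 k₀)
        have q1 := h3.eq_of_nf n1
        have q2 := h4.eq_of_nf n2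
        have hCpF : CpF b (fP b H) a := by
          intro s c hs'
          cases s with
          | z₁ => simp only [fP, Option.some.injEq] at hs'; subst hs'; exact h3
          | z₂ => simp only [fP, Option.some.injEq] at hs'; subst hs'; exact h4
          | x w =>
            simp only [fP] at hs'
            split_ifs at hs' with hw
            simp only [Option.some.injEq] at hs'
            subst hs'
            exact h5 w (by simpa using hw)
          | y l => simp only [fP, Option.some.injEq] at hs'; subst hs'; exact h6 l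
        refine ⟨?_, b, a, rfl, q1, q2, fun l => (h6 l).eq_of_nf (hy l), ⟨H, h1, hCpF⟩, ?_⟩
        · rw [flex_node_iff]
          rintro (h | h | ⟨_, h⟩ | ⟨_, v', k', b', h⟩)
          · have := h .z₁ 0 rfl
            rw [q1] at this
            exact not_Cp_cst (by decide) this
          · have := h .z₂ 0 rfl
            rw [q2] at this
            exact not_Cp_cst (by decide) this
          · have := h .z₁ 3 rfl
            rw [q1] at this
            exact not_Cp_cst (by decide) this
          · have := h.1
            rw [q1] at this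
            exact not_Cp_cst (by decide) this
        · intro w hw
          rcases hx w hw with h | ⟨H', h7, h8, _⟩
          · have := h.2.1
            rw [q1] at this
            exact absurd this (not_Cp_cst (by decide))
          · exact ⟨H', h7, h8⟩
    | y l => exact absurd (hy l) hs

/-- The key lemma. -/
theorem key (hG : ¬ Good M) (t : Term M.sig) (W : M.B → (M.X → Bool) → Prop) (h : Bad W t) :
    Concl W t := by
  induction t generalizing W with
  | var n => exact absurd (isNF_var (R := M.trs) n) h.1
  | bul => exact absurd (isNF_bul (R := M.trs)) h.1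
  | app f a ih =>
    cases f with
    | inl c =>
      have h1 : Term.app (S := M.sig) (Sum.inl c) a = M.cst c := app_inl_eq c a
      have h2 := h.1
      rw [h1] at h2
      exact absurd (isNF_cst c) h2
    | inr b => exact key_node hG b a (fun s W hW => ih s W hW) W h

/-- If no tree is accepted, the system is strongly sequential. -/
theorem stronglySequential (hG : ¬ Good M) : M.trs.StronglySequential := by
  intro t _ ht
  obtain ⟨C, Δ, h1, h2, h3⟩ := exists_safe hG (key hG t) ht
  exact ⟨C, Δ, h1, h2, h3.stronglyNeeded⟩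

end Sys

end Pool.Agent.Lib.MP_ce3b04_lc
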