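import Mathlib

/-!
# Term rewriting systems given by their rules, strong sequentiality, codes

Terms are untyped: a function symbol is a pair `(f, k)` of a name `f` and an arity `k`, both
natural numbers.  A term rewriting system is given by the list of its rules, and its signature is
the set of function symbols that occur in the rules.
-/

open Relation

namespace Pool.Agent.Lib.MP_ce3b04_lc

/-- Terms: the variables `x_0, x_1, …`, the fresh constant `•`, and `f(a_0, …, a_(k-1))` for a
function symbol with name `f` and arity `k`. -/
inductive Tm : Type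
  | var (n : ℕ) : Tm
  | bul : Tm
  | app (f k : ℕ) (a : Fin k → Tm) : Tm

namespace Tm

/-- The term does not contain `•`. -/
def BulFree : Tm → Prop
  | var _ => True
  | bul => False
  | app _ _ a => ∀ i, (a i).BulFree

/-- The term contains no variable. -/
def Ground : Tm → Prop
  | var _ => False
  | bul => True
  | app _ _ a => ∀ i, (a i).Ground

/-- Substitution. -/
def subst (σ : ℕ → Tm) : Tm → Tm
  | var n => σ n
  | bul => bul
  | app f k a => app f k fun i => (a i).subst σ

/-- The variables of a term, with multiplicity. -/
def vars : Tm → Multiset ℕ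
  | var n => {n}
  | bul => 0
  | app _ _ a => ∑ i, (a i).vars

/-- The function symbols that occur in a term (pairs of name and arity). -/
def syms : Tm → Set (ℕ × ℕ)
  | var _ => ∅
  | bul => ∅
  | app f k a => {s | s = (f, k) ∨ ∃ i, s ∈ (a i).syms}

end Tm

/-- One-hole contexts. In `arg f k a i C` the hole lies in the `i`-th argument of `f`, the other
arguments are given by `a` (the value `a i` is not used). -/
inductive Cx : Type
  | hole : Cx
  | arg (f k : ℕ) (a : Fin k → Tm) (i : Fin k) (C : Cx) : Cx

/-- Replacing the hole of a context by a term. -/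
def Cx.fill : Cx → Tm → Tm
  | .hole, t => t
  | .arg f k a i C, t => .app f k (Function.update a i (C.fill t))

/-- A term rewriting system is given by the list of its rules `l → r`. -/
abbrev Rules : Type := List (Tm × Tm)

namespace Rules

/-- The signature: all function symbols that occur in the rules. -/
def Sig (R : Rules) : Set (ℕ × ℕ) := {s | ∃ r ∈ R, s ∈ r.1.syms ∨ s ∈ r.2.syms}

/-- The term is a term over the signature (it may contain `•`). -/
def Over (R : Rules) (t : Tm) : Prop := t.syms ⊆ R.Sig

/-- `l` is not a variable, and every variable of `r` occurs in `l` (and the rules are terms without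
`•`). -/
def IsTRS (R : Rules) : Prop :=
  ∀ r ∈ R, r.1.BulFree ∧ r.2.BulFree ∧ (∀ n, r.1 ≠ .var n) ∧ ∀ n ∈ r.2.vars, n ∈ r.1.vars

/-- Left-linearity: no variable occurs twice in a left-hand side. -/
def LeftLinear (R : Rules) : Prop := ∀ r ∈ R, r.1.vars.Nodup

/-- Left-hand sides do not overlap: no non-variable subterm `u` of a left-hand side has a common
instance with a left-hand side, except for a left-hand side and itself at the root. -/
def NonOverlapping (R : Rules) : Prop :=
  ∀ r₁ ∈ R, ∀ r₂ ∈ R, ∀ (C : Cx) (u : Tm), r₁.1 = C.fill u → (∀ n, u ≠ .var n) →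
    (C ≠ .hole ∨ r₁ ≠ r₂) → ∀ σ τ : ℕ → Tm, u.subst σ ≠ r₂.1.subst τ

/-- The rules form an orthogonal term rewriting system. -/
def Orthogonal (R : Rules) : Prop := R.IsTRS ∧ R.LeftLinear ∧ R.NonOverlapping

/-- A redex is an instance of a left-hand side (the substitution may introduce `•`). -/
def IsRedex (R : Rules) (t : Tm) : Prop := ∃ r ∈ R, ∃ σ, t = r.1.subst σ

/-- A normal form is a term that contains no redex. -/
def IsNF (R : Rules) (t : Tm) : Prop := ∀ C Δ, t = Cx.fill C Δ → ¬ R.IsRedex Δ

/-- Arbitrary reduction: one redex occurrence is replaced by an arbitrary term. -/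
def Step (R : Rules) (t s : Tm) : Prop :=
  ∃ C Δ u, R.IsRedex Δ ∧ R.Over u ∧ t = Cx.fill C Δ ∧ s = Cx.fill C u

/-- A term `C[•]` is strongly needed if each normal form that can be reached from it by arbitrary
reduction contains `•`. -/
def StronglyNeeded (R : Rules) (t : Tm) : Prop :=
  ∀ s, ReflTransGen R.Step t s → R.IsNF s → ¬ s.BulFree

/-- Strong sequentiality: every term over the signature that is not a normal form contains a
strongly needed redex. -/
def StronglySequential (R : Rules) : Prop :=
  ∀ t : Tm, R.Over t → t.BulFree → ¬ R.IsNF t →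
    ∃ C Δ, t = Cx.fill C Δ ∧ R.IsRedex Δ ∧ R.StronglyNeeded (Cx.fill C .bul)

/-- Arbitrary reduction of terms without variables. -/
def GStep (R : Rules) (t s : Tm) : Prop := R.Step t s ∧ t.Ground ∧ s.Ground

/-- `StronglyNeeded`, where only terms without variables are considered. -/
def StronglyNeededG (R : Rules) (t : Tm) : Prop :=
  ∀ s, ReflTransGen R.GStep t s → R.IsNF s → ¬ s.BulFree

/-- `StronglySequential`, where only terms without variables are considered. -/
def StronglySequentialG (R : Rules) : Prop :=
  ∀ t : Tm, R.Over t → t.BulFree → t.Ground → ¬ R.IsNF t →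
    ∃ C Δ, t = Cx.fill C Δ ∧ R.IsRedex Δ ∧ R.StronglyNeededG (Cx.fill C .bul)

end Rules

/-! ### Codes -/

/-- The alphabet of the codes. -/
inductive Tok : Type
  | v : Tok
  | b : Tok
  | f : Tok
  | i : Tok
  | e : Tok
  | c : Tok
  deriving DecidableEq

instance : Inhabited Tok := ⟨.v⟩

instance : Fintype Tok := ⟨{.v, .b, .f, .i, .e, .c}, by intro x; cases x <;> simp⟩

/-- A number in unary, with an end mark. -/
def codeNat (n : ℕ) : List Tok := List.replicate n .i ++ [.e]

/-- The code of a term: a variable is coded by its number, an application by the name of the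
function symbol, followed by the codes of the arguments and a closing mark. -/
def Tm.code : Tm → List Tok
  | .var n => .v :: codeNat n
  | .bul => [.b]
  | .app f _ a => .f :: codeNat f ++ ((List.ofFn fun j => (a j).code).flatten ++ [.c])

/-- The code of a term rewriting system: the codes of the left-hand and the right-hand sides of its
rules. -/
def Rules.code (R : Rules) : List Tok := R.flatMap fun r => r.1.code ++ r.2.code

/-- The language `L` is decided in time `2 ^ p(n)`, for a polynomial `p`, by a Turing machine. -/
def InEXP {Γ : Type} (L : Set (List Γ)) : Prop :=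
  ∃ (f : List Γ → Bool)
    (M : Turing.TM2ComputableInTime (id : List Γ → List Γ) Computability.encodeBool f)
    (p : Polynomial ℕ), (∀ x, f x = true ↔ x ∈ L) ∧ ∀ n, M.time n ≤ 2 ^ p.eval n

end Pool.Agent.Lib.MP_ce3b04_lc
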