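import Pool.Agent.Lib.MP_ce3b04_lc.Orth

/-!
# The size of the gadget
-/

open Relation

namespace Pool.Agent.Lib.MP_ce3b04_lc

namespace Sys

variable {M : Sys}

theorem size_cst (c : Fin 4) : (M.cst c).size = 1 := by
  simp only [cst, Term.size]
  rw [Finset.sum_eq_zero (fun e _ => nomatch e), Nat.add_zero]

theorem card_slot (b : M.B) :
    Fintype.card (M.Slot b) = 2 + Fintype.card M.X + Fintype.card (M.Ch b) := by
  rw [Fintype.card_congr (slotEquiv b)]
  simp only [Fintype.card_sum, Fintype.card_bool]
  omega

theorem size_flat (b : M.B) (f : M.Slot b → Option (Fin 4)) :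
    (flat b f).size = 3 + Fintype.card M.X + Fintype.card (M.Ch b) := by
  have h0 : ∀ (s : M.Slot b) (o : Option (Fin 4)),
      (match o with | some c => M.cst c | none => Term.var (idx s) : Term M.sig).size = 1 := by
    intro s o
    cases o with
    | none => rfl
    | some c => exact size_cst c
  have h1 : (flat b f).size = 1 + ∑ s : M.Slot b, 1 :=
    congrArg (1 + ·) (Finset.sum_congr rfl fun s _ => h0 s (f s))
  rw [h1, Finset.sum_const, Finset.card_univ, card_slot]
  simp only [smul_eq_mul, mul_one]
  omega

theorem size_lhsC (b : M.B) (v : M.X) (k : M.Ch b) (b' : M.B) :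
    (M.lhsC b v k b').size ≤
      6 + 2 * Fintype.card M.X + Fintype.card (M.Ch b) + Fintype.card (M.Ch b') := by
  classical
  have h1 : ∀ s : M.Slot b, ((match s with
    | .z₁ => M.cst 1
    | .z₂ => M.cst 1
    | .x w => if w = v then M.cst 0 else M.cst 1
    | .y l => if l = k then flat b' (fP b' (M.T b v k b')) else M.cst 3 : Term M.sig)).size ≤
      1 + if s = .y k then 2 + Fintype.card M.X + Fintype.card (M.Ch b') else 0 := by
    intro s
    cases s with
    | z₁ => simp only [size_cst]; omega
    | z₂ => simp only [size_cst]; omega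
    | x w => simp only; split_ifs <;> simp only [size_cst] <;> omega
    | y l =>
      by_cases h : l = k
      · subst h
        simp only [if_true, size_flat]
        omega
      · simp only [h, if_false, size_cst]
        omega
  have h2 : (M.lhsC b v k b').size ≤ 1 + ∑ s : M.Slot b,
      (1 + if s = .y k then 2 + Fintype.card M.X + Fintype.card (M.Ch b') else 0) :=
    Nat.add_le_add_left (Finset.sum_le_sum fun s _ => h1 s) 1
  rw [Finset.sum_add_distrib, Finset.sum_const, Finset.card_univ, card_slot,
    Finset.sum_ite_eq' Finset.univ (Slot.y k) (fun _ => 2 + Fintype.card M.X + Fintype.card (M.Ch b')),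
    if_pos (Finset.mem_univ _)] at h2
  simp only [smul_eq_mul, mul_one] at h2
  omega

/-- The size of the rewriting system is polynomial in the numbers of letters, data places and
children. -/
theorem size_trs_le (D : ℕ) (hD : ∀ b, Fintype.card (M.Ch b) ≤ D) :
    M.trs.size ≤ (3 * Fintype.card M.B + Fintype.card M.B * Fintype.card M.X * D *
      Fintype.card M.B) * (7 + 2 * Fintype.card M.X + 2 * D) := by
  classical
  have h1 : ∀ ρ : M.RuleIdx, (M.lhs ρ).size + (M.cst 0).size ≤ 7 + 2 * Fintype.card M.X + 2 * D := by
    intro ρ
    rw [size_cst]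
    cases ρ with
    | r₁ b => have := hD b; simp only [lhs, size_flat]; omega
    | r₂ b => have := hD b; simp only [lhs, size_flat]; omega
    | r₃ b h => have := hD b; simp only [lhs, size_flat]; omega
    | rC b h v k b' =>
      have := hD b; have := hD b'; have := size_lhsC b v k b'; simp only [lhs]; omega
  have h2 : M.trs.size ≤ ∑ _ρ : M.RuleIdx, (7 + 2 * Fintype.card M.X + 2 * D) :=
    Finset.sum_le_sum fun ρ _ => h1 ρ
  rw [Finset.sum_const, Finset.card_univ, smul_eq_mul] at h2
  refine h2.trans (Nat.mul_le_mul_right _ ?_)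
  rw [Fintype.card_congr ruleEquiv, Fintype.card_sum, Fintype.card_sum, Fintype.card_sum,
    Fintype.card_sigma]
  have h3 : Fintype.card {b : M.B // M.leaf b = true} ≤ Fintype.card M.B :=
    Fintype.card_subtype_le _
  have h4 : Fintype.card {b : M.B // M.leaf b = false} ≤ Fintype.card M.B :=
    Fintype.card_subtype_le _
  have h5 : ∑ b : {b : M.B // M.leaf b = false}, Fintype.card (M.X × M.Ch b × M.B) ≤
      Fintype.card M.B * Fintype.card M.X * D * Fintype.card M.B := by
    calc ∑ b : {b : M.B // M.leaf b = false}, Fintype.card (M.X × M.Ch b × M.B)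
        ≤ ∑ _b : {b : M.B // M.leaf b = false}, Fintype.card M.X * (D * Fintype.card M.B) := by
          refine Finset.sum_le_sum fun b _ => ?_
          rw [Fintype.card_prod, Fintype.card_prod]
          exact Nat.mul_le_mul_left _ (Nat.mul_le_mul_right _ (hD b))
      _ ≤ Fintype.card M.B * (Fintype.card M.X * (D * Fintype.card M.B)) := by
          rw [Finset.sum_const, Finset.card_univ, smul_eq_mul]
          exact Nat.mul_le_mul_right _ h4
      _ = _ := by ring
  omega

end Sys

end Pool.Agent.Lib.MP_ce3b04_lc
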