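import Pool.Agent.Lib.MP_ce3b04_lc.Raw
import Pool.Agent.Lib.CookLevin.NP

/-!
# The languages and the complexity classes of the result
-/

open Turing

namespace Pool.Agent.Lib.MP_ce3b04_lc.Stmt

/-- The codes of the orthogonal term rewriting systems. -/
def Orth : Set (List Tok) := {w | ∃ R : Rules, R.Orthogonal ∧ w = R.code}

/-- The language SS-ORTH: the codes of the strongly sequential orthogonal term rewriting
systems. -/
def SSOrth : Set (List Tok) := {w | ∃ R : Rules, R.Orthogonal ∧ R.StronglySequential ∧ w = R.code}

/-- The language SS-ORTH, if only terms without variables are considered. -/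
def SSOrthG : Set (List Tok) := {w | ∃ R : Rules, R.Orthogonal ∧ R.StronglySequentialG ∧ w = R.code}

/-- The language is decided by a Turing machine in polynomial time. -/
def InP {Γ : Type} (L : Set (List Γ)) : Prop :=
  ∃ f : List Γ → Bool, Nonempty (TM2ComputableInPolyTime (id : List Γ → List Γ)
    Computability.encodeBool f) ∧ ∀ x, f x = true ↔ x ∈ L

/-- The language `L` is reducible to `L'` by a function computable in polynomial time by a Turing
machine. -/
def PolyReducible {Γ Δ : Type} (L : Set (List Γ)) (L' : Set (List Δ)) : Prop :=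
  ∃ f : List Γ → List Δ,
    Nonempty (TM2ComputableInPolyTime (id : List Γ → List Γ) (id : List Δ → List Δ) f) ∧
    ∀ x, x ∈ L ↔ f x ∈ L'

/-- NP-completeness under polynomial-time many-one reductions. -/
def NPComplete {Δ : Type} (L' : Set (List Δ)) : Prop :=
  CookLevin.InNP L' ∧
    ∀ (Γ : Type) [Fintype Γ] (L : Set (List Γ)), CookLevin.InNP L → PolyReducible L L'

end Pool.Agent.Lib.MP_ce3b04_lc.Stmt
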