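import Pool.Agent.Lib.MP_ce3b04_lc.TreeAut

/-!
# Alternating sweeping machines

A sweeping machine has a tape of `N` cells and a finite control.  In a sweep the control reads a
sequence of `N` letters, one at each position; a letter prescribes the old and the new content of
the cell.  The letters are chosen by the prover.  At the end of the sweep the machine branches over
a finite set, and each branch accepts, rejects or starts a new sweep.
-/

open Relation

set_option linter.unusedSimpArgs false

namespace Pool.Agent.Lib.MP_ce3b04_lc

/-- An alternating sweeping machine. -/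
structure ASM where
  /-- cell contents -/
  D : Type
  /-- control states -/
  E : Type
  /-- letters -/
  F : Type
  /-- branches -/
  C : Type
  /-- the old content of a cell prescribed by a letter -/
  old : F → D
  /-- the new content of a cell prescribed by a letter -/
  new : F → D
  /-- the control reads a letter -/
  ψ : E → F → Option E
  /-- the branching at the end of a sweep: `none` is rejection, `some none` acceptance -/
  χ : E → C → Option (Option E)
  /-- the initial control state -/
  e₀ : E
  [finD : Fintype D]
  [finE : Fintype E]
  [finF : Fintype F]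
  [finC : Fintype C]
  [neC : Nonempty C]

attribute [instance] ASM.finD ASM.finE ASM.finF ASM.finC ASM.neC

namespace ASM

variable (A : ASM)

/-- The prover wins from position `j`, control state `e` and tape `t`. -/
inductive WinS : ℕ → A.E → List A.D → Prop
  | step (j : ℕ) (e : A.E) (t : List A.D) (x : A.F) (e' : A.E) : j + 1 < t.length →
      t[j]? = some (A.old x) → A.ψ e x = some e' → WinS (j + 1) e' (t.set j (A.new x)) → WinS j e t
  | last (j : ℕ) (e : A.E) (t : List A.D) (x : A.F) (e' : A.E) (g : A.C → Option A.E) :
      j + 1 = t.length → t[j]? = some (A.old x) → A.ψ e x = some e' →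
      (∀ k, A.χ e' k = some (g k)) →
      (∀ k e'', g k = some e'' → WinS 0 e'' (t.set j (A.new x))) → WinS j e t

/-- Letters of the system. -/
inductive NL : Type
  | start : NL
  | fin : NL
  | l (j : ℕ) (x : A.F) : NL

/-- Places of the system. -/
inductive NX : Type
  | e (o : Option A.E) : NX
  | d (m : ℕ) (o : Option A.D) : NX

/-- Positions are less than `N`. -/
def NL.ok (N : ℕ) : A.NL → Prop
  | .l j _ => j < N
  | _ => True

/-- Positions are less than `N`. -/
def NX.ok (N : ℕ) : A.NX → Prop
  | .d m _ => m < N
  | _ => True

/-- Letters with positions less than `N`. -/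
def LB (N : ℕ) : Type := {b : A.NL // b.ok A N}

/-- Places with positions less than `N`. -/
def XB (N : ℕ) : Type := {v : A.NX // v.ok A N}

instance finite_LB (N : ℕ) : Finite (A.LB N) := by
  refine Finite.of_surjective (fun o : Option (Option (Fin N × A.F)) => match o with
    | none => (⟨.start, trivial⟩ : A.LB N)
    | some none => ⟨.fin, trivial⟩
    | some (some (j, x)) => ⟨.l j.1 x, j.2⟩) ?_
  rintro ⟨b, hb⟩
  cases b with
  | start => exact ⟨none, rfl⟩
  | fin => exact ⟨some none, rfl⟩
  | l j x => exact ⟨some (some (⟨j, hb⟩, x)), rfl⟩

instance finite_XB (N : ℕ) : Finite (A.XB N) := by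
  refine Finite.of_surjective (fun o : Option A.E ⊕ (Fin N × Option A.D) => match o with
    | .inl o => (⟨.e o, trivial⟩ : A.XB N)
    | .inr (m, o) => ⟨.d m.1 o, m.2⟩) ?_
  rintro ⟨v, hv⟩
  cases v with
  | e o => exact ⟨.inl o, rfl⟩
  | d m o => exact ⟨.inr (⟨m, hv⟩, o), rfl⟩

noncomputable instance (N : ℕ) : Fintype (A.LB N) := Fintype.ofFinite _

noncomputable instance (N : ℕ) : Fintype (A.XB N) := Fintype.ofFinite _

variable {A}

open Classical in
/-- The cell `m` when the letter `x` is read at position `j`. -/
noncomputable def cell (x : A.F) (j m : ℕ) (d : A.D) : Option A.D :=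
  if m = j then (if A.old x = d then some (A.new x) else none) else some d

open Classical in
/-- Transitions inside a sweep. -/
noncomputable def cont (x : A.F) (j : ℕ) : A.NX → A.NX → Bool
  | .e (some e), .e (some e') => decide (A.ψ e x = some e')
  | .d m (some d), .d m' (some d') => decide (m' = m ∧ cell x j m d = some d')
  | _, _ => false

open Classical in
/-- Transitions to the next sweep. -/
noncomputable def wrap (x : A.F) (j : ℕ) (k : A.C) : A.NX → A.NX → Bool
  | .e (some e), .e (some e') => decide ((A.ψ e x).bind (fun e' => A.χ e' k) = some (some e'))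
  | .d m (some d), .d m' (some d') => decide (m' = m ∧ cell x j m d = some d')
  | _, _ => false

open Classical in
/-- Transitions to the final letter. -/
noncomputable def finish (x : A.F) (j : ℕ) (k : A.C) : A.NX → A.NX → Bool
  | .e (some e), .e none => decide ((A.ψ e x).bind (fun e' => A.χ e' k) = some none)
  | .d m (some d), .d m' none => decide (m' = m ∧ cell x j m d ≠ none)
  | _, _ => false

open Classical in
/-- All transitions. -/
noncomputable def tr (N : ℕ) : A.NL → A.NX → A.C → A.NL → A.NX → Bool
  | .start, v, _, .l j' _, w => decide (j' = 0) && decide (w = v)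
  | .l j x, v, k, .l j' _, w =>
    if j' = j + 1 then cont x j v w else if j + 1 = N ∧ j' = 0 then wrap x j k v w else false
  | .l j x, v, k, .fin, w => if j + 1 = N then finish x j k v w else false
  | _, _, _, _, _ => false

/-- Whether the letter is final. -/
def isFin : A.NL → Bool
  | .fin => true
  | _ => false

open Classical in
/-- The initial places. -/
noncomputable def ini (d₀ : ℕ → A.D) : A.NL → A.NX → Bool
  | .start, .e (some e) => decide (e = A.e₀)
  | .start, .d m (some d) => decide (d = d₀ m)
  | _, _ => false

/-- The final places. -/
def finp : A.NL → A.NX → Bool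
  | .fin, .e none => true
  | .fin, .d _ none => true
  | _, _ => false

variable (A)

/-- The number of an element of a finite type. -/
noncomputable def num {X : Type} [Fintype X] (x : X) : ℕ := (Fintype.equivFin X x).1

theorem num_lt {X : Type} [Fintype X] (x : X) : num x < Fintype.card X :=
  (Fintype.equivFin X x).2

theorem num_inj {X : Type} [Fintype X] : Function.Injective (num (X := X)) :=
  fun _ _ h => (Fintype.equivFin X).injective (Fin.ext h)

/-- The number of a place. -/
noncomputable def numNX : A.NX → ℕ
  | .e o => num o
  | .d m o => Fintype.card (Option A.E) + (Fintype.card (Option A.D) * m + num o)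

theorem mul_add_inj {c m n a b : ℕ} (ha : a < c) (hb : b < c) (h : c * m + a = c * n + b) :
    m = n ∧ a = b := by
  have h1 : (c * m + a) / c = m := by
    rw [Nat.mul_add_div (by omega), Nat.div_eq_of_lt ha, Nat.add_zero]
  have h2 : (c * n + b) / c = n := by
    rw [Nat.mul_add_div (by omega), Nat.div_eq_of_lt hb, Nat.add_zero]
  have h3 : m = n := by rw [← h1, h, h2]
  subst h3
  exact ⟨rfl, by omega⟩

theorem numNX_inj : Function.Injective A.numNX := by
  intro v w h
  cases v with
  | e o =>
    cases w with
    | e o' => rw [num_inj h]
    | d m o' =>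
      have := num_lt o
      simp only [numNX] at h
      omega
  | d m o =>
    cases w with
    | e o' =>
      have := num_lt o'
      simp only [numNX] at h
      omega
    | d m' o' =>
      simp only [numNX] at h
      obtain ⟨h1, h2⟩ := mul_add_inj (num_lt o) (num_lt o') (Nat.add_left_cancel h)
      rw [h1, num_inj h2]

/-- The system of an alternating sweeping machine. -/
noncomputable def sys (N : ℕ) (d₀ : ℕ → A.D) : Sys where
  B := A.LB N
  X := A.XB N
  Ch _ := A.C
  leaf b := isFin b.1
  init b v := ini d₀ b.1 v.1
  fin b v := finp b.1 v.1
  T b v k b' w := tr N b.1 v.1 k b'.1 w.1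
  numX v := A.numNX v.1
  numCh _ k := num k
  numX_inj _ _ h := Subtype.ext (A.numNX_inj h)
  numCh_inj _ := num_inj

variable {A}

/-! ### Soundness -/

/-- The prover wins at position `j` with the letter `x`. -/
def WinL (j : ℕ) (x : A.F) (e : A.E) (t : List A.D) : Prop :=
  t[j]? = some (A.old x) ∧ ∃ e', A.ψ e x = some e' ∧
    ((j + 1 < t.length ∧ A.WinS (j + 1) e' (t.set j (A.new x))) ∨
      (j + 1 = t.length ∧ ∃ g : A.C → Option A.E, (∀ k, A.χ e' k = some (g k)) ∧
        ∀ k e'', g k = some e'' → A.WinS 0 e'' (t.set j (A.new x))))

theorem WinL.winS {j : ℕ} {x : A.F} {e : A.E} {t : List A.D} (h : WinL j x e t) :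
    A.WinS j e t := by
  obtain ⟨h1, e', h2, ⟨h3, h4⟩ | ⟨h3, g, h4, h5⟩⟩ := h
  · exact .step j e t x e' h3 h1 h2 h4
  · exact .last j e t x e' g h3 h1 h2 h4 h5

/-- The place is described by `se` and `sd`. -/
def DescP (se : Option A.E) (sd : ℕ → Option A.D) : A.NX → Prop
  | .e o => o = se
  | .d m o => o = sd m

/-- The open places are described by `se` and `sd`. -/
def Desc (N : ℕ) (O : A.XB N → Prop) (se : Option A.E) (sd : ℕ → Option A.D) : Prop :=
  ∀ v, O v → DescP se sd v.1

/-- What acceptance from the letter `b` with the open places `O` means. -/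
def Sound (N : ℕ) (Won : Prop) (d₀ : ℕ → A.D) : A.NL → (A.XB N → Prop) → Prop
  | .start, O => (∀ v, O v → ini d₀ .start v.1 = true) → Won
  | .fin, _ => True
  | .l j x, O => ∀ se sd, Desc N O se sd → Won ∨ ∃ e t, se = some e ∧ t.length = N ∧
      (∀ m < N, sd m = t[m]?) ∧ WinL j x e t

theorem tr_start_false {N : ℕ} {b : A.NL} {v : A.NX} {k : A.C} {w : A.NX} :
    ¬ tr N b v k .start w = true := by
  cases b <;> simp [tr]

theorem T_start_false {N : ℕ} {d₀ : ℕ → A.D} {b : A.LB N} {v w : A.XB N} {k : A.C}
    {h : NL.ok A N .start} : ¬ (A.sys N d₀).T b v k (⟨.start, h⟩ : A.LB N) w = true :=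
  tr_start_false

theorem ini_l_false {d₀ : ℕ → A.D} {j : ℕ} {x : A.F} {w : A.NX} :
    ¬ ini d₀ (.l j x) w = true := by
  cases w <;> simp [ini]

theorem ini_fin_false {d₀ : ℕ → A.D} {w : A.NX} : ¬ ini d₀ .fin w = true := by
  cases w <;> simp [ini]

theorem init_l_false {N : ℕ} {d₀ : ℕ → A.D} {w : A.XB N} {j : ℕ} {x : A.F}
    {h : NL.ok A N (.l j x)} : ¬ (A.sys N d₀).init (⟨.l j x, h⟩ : A.LB N) w = true :=
  ini_l_false (A := A) (d₀ := d₀) (j := j) (x := x) (w := w.1)

theorem init_fin_false {N : ℕ} {d₀ : ℕ → A.D} {w : A.XB N}
    {h : NL.ok A N .fin} : ¬ (A.sys N d₀).init (⟨.fin, h⟩ : A.LB N) w = true :=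
  ini_fin_false (A := A) (d₀ := d₀) (w := w.1)

theorem ini_start_e {d₀ : ℕ → A.D} {o : Option A.E} :
    ini d₀ .start (.e o) = true ↔ o = some A.e₀ := by
  cases o <;> simp [ini]

theorem ini_start_d {d₀ : ℕ → A.D} {m : ℕ} {o : Option A.D} :
    ini d₀ .start (.d m o) = true ↔ o = some (d₀ m) := by
  cases o <;> simp [ini]

/-- The step of the description inside a sweep. -/
theorem cont_desc {x : A.F} {j : ℕ} {v w : A.NX} (h : cont x j v w = true) {se : Option A.E}
    {sd : ℕ → Option A.D} (hv : DescP se sd v) :
    DescP (se.bind fun e => A.ψ e x) (fun m => (sd m).bind fun d => cell x j m d) w := by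
  cases v with
  | e o =>
    cases o with
    | none => simp [cont] at h
    | some e =>
      cases w with
      | e o' =>
        cases o' with
        | none => simp [cont] at h
        | some e' =>
          simp only [cont, decide_eq_true_eq] at h
          simp only [DescP] at hv ⊢
          rw [← hv, Option.bind_some, h]
      | d m o' => simp [cont] at h
  | d m o =>
    cases o with
    | none => simp [cont] at h
    | some d =>
      cases w with
      | e o' => simp [cont] at h
      | d m' o' =>
        cases o' with
        | none => simp [cont] at h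
        | some d' =>
          simp only [cont, decide_eq_true_eq] at h
          obtain ⟨rfl, h⟩ := h
          simp only [DescP] at hv ⊢
          rw [← hv, Option.bind_some, h]

/-- The step of the description at the end of a sweep. -/
theorem wrap_desc {x : A.F} {j : ℕ} {k : A.C} {v w : A.NX} (h : wrap x j k v w = true)
    {se : Option A.E} {sd : ℕ → Option A.D} (hv : DescP se sd v) :
    DescP ((se.bind fun e => (A.ψ e x).bind fun e' => A.χ e' k).join)
      (fun m => (sd m).bind fun d => cell x j m d) w := by
  cases v with
  | e o =>
    cases o with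
    | none => simp [wrap] at h
    | some e =>
      cases w with
      | e o' =>
        cases o' with
        | none => simp [wrap] at h
        | some e' =>
          simp only [wrap, decide_eq_true_eq] at h
          simp only [DescP] at hv ⊢
          rw [← hv, Option.bind_some, h]
          rfl
      | d m o' => simp [wrap] at h
  | d m o =>
    cases o with
    | none => simp [wrap] at h
    | some d =>
      cases w with
      | e o' => simp [wrap] at h
      | d m' o' =>
        cases o' with
        | none => simp [wrap] at h
        | some d' =>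
          simp only [wrap, decide_eq_true_eq] at h
          obtain ⟨rfl, h⟩ := h
          simp only [DescP] at hv ⊢
          rw [← hv, Option.bind_some, h]

/-- The final test: all final places are open. -/
theorem acc_fin {N : ℕ} {d₀ : ℕ → A.D} {O : A.XB N → Prop}
    (h : Sys.Acc (A.sys N d₀) (⟨.fin, trivial⟩ : A.LB N) O) :
    O ⟨.e none, trivial⟩ ∧ ∀ m (hm : m < N), O ⟨.d m none, hm⟩ := by
  rcases h.dest with ⟨_, h⟩ | ⟨h, _⟩
  · exact ⟨h _ rfl, fun m hm => h _ rfl⟩
  · simp [sys, isFin] at h

/-- From the description of the new cells to the old tape. -/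
theorem tape_of_desc {N j : ℕ} (hj : j < N) {x : A.F} {sd : ℕ → Option A.D} {t' : List A.D}
    (ht' : t'.length = N)
    (h : ∀ m < N, ((sd m).bind fun d => cell x j m d) = t'[m]?) :
    ∃ t : List A.D, t.length = N ∧ (∀ m < N, sd m = t[m]?) ∧ t[j]? = some (A.old x) ∧
      t' = t.set j (A.new x) := by
  have h1 : ∀ m : Fin N, ∃ d, sd m.1 = some d ∧ cell x j m.1 d = t'[m.1]? := by
    intro m
    have h2 := h m.1 m.2
    cases hsd : sd m.1 with
    | none =>
      rw [hsd, Option.bind_none] at h2
      have h3 := (List.getElem?_eq_none_iff.1 h2.symm)
      have := m.2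
      omega
    | some d => exact ⟨d, rfl, by rw [← h2, hsd, Option.bind_some]⟩
  choose d hd1 hd2 using h1
  refine ⟨List.ofFn d, List.length_ofFn, ?_, ?_, ?_⟩
  · intro m hm
    rw [hd1 ⟨m, hm⟩, List.getElem?_ofFn, dif_pos hm]
  · rw [List.getElem?_ofFn, dif_pos hj]
    have h3 := hd2 ⟨j, hj⟩
    simp only [cell, if_true] at h3
    split_ifs at h3 with h4
    · rw [h4]
    · exfalso
      have := List.getElem?_eq_none_iff.1 h3.symm
      omega
  · refine List.ext_getElem? fun m => ?_
    rw [List.getElem?_set, List.length_ofFn]
    by_cases hm : m < N
    · have h3 := hd2 ⟨m, hm⟩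
      by_cases hmj : j = m
      · subst hmj
        rw [if_pos rfl, if_pos hj, ← h3]
        simp only [cell, if_true]
        split_ifs with h4
        · rfl
        · exfalso
          simp only [cell, if_true, if_neg h4] at h3
          have := List.getElem?_eq_none_iff.1 h3.symm
          omega
      · rw [if_neg hmj, List.getElem?_ofFn, dif_pos hm, ← h3]
        simp only [cell]
        rw [if_neg (Ne.symm hmj)]
    · have h4 : t'[m]? = none := List.getElem?_eq_none_iff.2 (by omega)
      rw [h4]
      symm
      split_ifs with h5
      · omega
      · rw [List.getElem?_ofFn, dif_neg hm]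

theorem sound {N : ℕ} (hN : 0 < N) {d₀ : ℕ → A.D} {Won : Prop}
    (hWon : (∃ t : List A.D, t.length = N ∧ (∀ m < N, t[m]? = some (d₀ m)) ∧
      A.WinS 0 A.e₀ t) → Won)
    {b : A.LB N} {O : A.XB N → Prop} (h : Sys.Acc (A.sys N d₀) b O) :
    Sound N Won d₀ b.1 O := by
  classical
  refine Sys.Acc.ind (M := A.sys N d₀) (P := fun (b : A.LB N) O => Sound N Won d₀ b.1 O)
    ?_ ?_ h
  · rintro ⟨b, hb'⟩ O hb h
    cases b with
    | start => simp [sys, isFin] at hb
    | fin => trivial
    | l j x => simp [sys, isFin] at hb
  · rintro ⟨b, hb'⟩ O ch hb h ih
    obtain ⟨k₀⟩ := A.neC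
    cases b with
    | fin => trivial
    | start =>
      intro hO
      have h1 := h k₀
      have h2 := ih k₀
      generalize hc : ch k₀ = c at h1 h2
      obtain ⟨c, hc'⟩ := c
      cases c with
      | start =>
        refine h2 ?_
        rintro v (hv | ⟨v', hv', hv⟩)
        · exact hv
        · exact absurd hv T_start_false
      | fin =>
        rcases (acc_fin h1).1 with hv | ⟨v', hv', hv⟩
        · exact absurd hv init_fin_false
        · simp [sys, tr] at hv
      | l j x =>
        -- the description of the open places
        have key : ∀ v : A.XB N, ((A.sys N d₀).init (⟨.l j x, hc'⟩ : A.LB N) v = true ∨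
            ∃ v', O v' ∧ (A.sys N d₀).T (⟨.start, hb'⟩ : A.LB N) v' k₀ (⟨.l j x, hc'⟩ : A.LB N) v
              = true) → j = 0 ∧ ini d₀ .start v.1 = true := by
          rintro v (hv | ⟨v', hv', hv⟩)
          · exact absurd hv init_l_false
          · have hv : tr N .start v'.1 k₀ (.l j x) v.1 = true := hv
            simp only [tr, Bool.and_eq_true, decide_eq_true_eq] at hv
            rw [hv.2]
            exact ⟨hv.1, hO v' hv'⟩
        by_cases hj : j = 0
        · subst hj
          rcases h2 (some A.e₀) (fun m => some (d₀ m)) (by
            intro v hv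
            have h3 := (key v hv).2
            obtain ⟨v, hv''⟩ := v
            cases v with
            | e o => exact ini_start_e.1 h3
            | d m o => exact ini_start_d.1 h3) with h3 | ⟨e, t, he, ht, hm, hw⟩
          · exact h3
          · cases he
            exact hWon ⟨t, ht, fun m hm' => (hm m hm').symm, hw.winS⟩
        · rcases h2 none (fun m => none) (by
            intro v hv
            exact absurd (key v hv).1 hj) with h3 | ⟨e, t, he, _⟩
          · exact h3
          · cases he
    | l j x =>
      intro se sd hO
      have hjN : j < N := hb'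
      -- one branch
      by_cases hj : j + 1 < N
      · have h1 := h k₀
        have h2 := ih k₀
        generalize hc : ch k₀ = c at h1 h2
        obtain ⟨c, hc'⟩ := c
        cases c with
        | start =>
          left
          refine h2 ?_
          rintro v (hv | ⟨v', hv', hv⟩)
          · exact hv
          · exact absurd hv T_start_false
        | fin =>
          rcases (acc_fin h1).1 with hv | ⟨v', hv', hv⟩
          · exact absurd hv init_fin_false
          · have hv : tr N (.l j x) v'.1 k₀ .fin (.e none) = true := hv
            simp only [tr] at hv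
            rw [if_neg (by omega)] at hv
            cases hv
        | l j' x' =>
          by_cases hj' : j' = j + 1
          · subst hj'
            rcases h2 (se.bind fun e => A.ψ e x) (fun m => (sd m).bind fun d => cell x j m d) (by
              rintro v (hv | ⟨v', hv', hv⟩)
              · exact absurd hv init_l_false
              · have hv : tr N (.l j x) v'.1 k₀ (.l (j + 1) x') v.1 = true := hv
                simp only [tr, if_true] at hv
                exact cont_desc hv (hO v' hv')) with h3 | ⟨e', t', he', ht', hm', hw'⟩
            · exact Or.inl h3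
            · right
              obtain ⟨e, rfl, he⟩ := Option.bind_eq_some_iff.1 he'
              obtain ⟨t, ht, hm, hold, rfl⟩ := tape_of_desc hjN ht' hm'
              exact ⟨e, t, rfl, ht, hm, hold, e', he, Or.inl ⟨by omega, hw'.winS⟩⟩
          · left
            rcases h2 none (fun m => none) (by
              rintro v (hv | ⟨v', hv', hv⟩)
              · exact absurd hv init_l_false
              · have hv : tr N (.l j x) v'.1 k₀ (.l j' x') v.1 = true := hv
                simp only [tr] at hv
                rw [if_neg hj', if_neg (by omega)] at hv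
                cases hv) with h3 | ⟨e, t, he, _⟩
            · exact h3
            · cases he
      · -- all branches
        have hjN' : j + 1 = N := by omega
        by_cases hWon' : Won
        · exact Or.inl hWon'
        right
        have key : ∀ k : A.C, ∃ (e e' : A.E) (o : Option A.E) (t : List A.D), se = some e ∧ A.ψ e x = some e' ∧ A.χ e' k = some o ∧
            t.length = N ∧ (∀ m < N, sd m = t[m]?) ∧ t[j]? = some (A.old x) ∧
            ∀ e'', o = some e'' → A.WinS 0 e'' (t.set j (A.new x)) := by
          intro k
          have h1 := h k
          have h2 := ih k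
          generalize hc : ch k = c at h1 h2
          obtain ⟨c, hc'⟩ := c
          cases c with
          | start =>
            exfalso
            refine hWon' (h2 ?_)
            rintro v (hv | ⟨v', hv', hv⟩)
            · exact hv
            · exact absurd hv T_start_false
          | fin =>
            obtain ⟨h3, h4⟩ := acc_fin h1
            rcases h3 with hv | ⟨v', hv', hv⟩
            · exact absurd hv init_fin_false
            · have hv : tr N (.l j x) v'.1 k .fin (.e none) = true := hv
              simp only [tr, if_pos hjN'] at hv
              have hO' := hO v' hv'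
              obtain ⟨v', hv''⟩ := v'
              cases v' with
              | d m o => cases o <;> simp [finish] at hv
              | e o =>
                cases o with
                | none => simp [finish] at hv
                | some e =>
                  simp only [finish, decide_eq_true_eq] at hv
                  obtain ⟨e', he', hχ⟩ := Option.bind_eq_some_iff.1 hv
                  -- the cells
                  have h5 : ∀ m (hm : m < N), ∃ d d', sd m = some d ∧
                      cell x j m d = some d' := by
                    intro m hm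
                    rcases h4 m hm with hw | ⟨w', hw', hw⟩
                    · exact absurd hw init_fin_false
                    · have hw : tr N (.l j x) w'.1 k .fin (.d m none) = true := hw
                      simp only [tr, if_pos hjN'] at hw
                      have hO'' := hO w' hw'
                      obtain ⟨w', hw''⟩ := w'
                      cases w' with
                      | e o => cases o <;> simp [finish] at hw
                      | d m' o =>
                        cases o with
                        | none => simp [finish] at hw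
                        | some d =>
                          simp only [finish, decide_eq_true_eq] at hw
                          obtain ⟨rfl, hw⟩ := hw
                          obtain ⟨d', hd'⟩ := Option.ne_none_iff_exists'.1 hw
                          exact ⟨d, d', hO''.symm, hd'⟩
                  have h6 : ∀ m : Fin N, ∃ d', ((sd m.1).bind fun d => cell x j m.1 d) = some d' :=
                    fun m => by
                      obtain ⟨d, d', h7, h8⟩ := h5 m.1 m.2
                      exact ⟨d', by rw [h7, Option.bind_some, h8]⟩
                  choose d' hd' using h6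
                  obtain ⟨t, ht, hm, hold, _⟩ := tape_of_desc (t' := List.ofFn d') hjN
                    List.length_ofFn (x := x) (sd := sd) (by
                      intro m hm
                      rw [hd' ⟨m, hm⟩, List.getElem?_ofFn, dif_pos hm])
                  exact ⟨e, e', none, t, hO'.symm, he', hχ, ht, hm, hold,
                    fun _ hc => by cases hc⟩
          | l j' x' =>
            have hj'N : j' < N := hc'
            by_cases hj' : j' = 0
            · subst hj'
              rcases h2 ((se.bind fun e => (A.ψ e x).bind fun e' => A.χ e' k).join)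
                (fun m => (sd m).bind fun d => cell x j m d) (by
                rintro v (hv | ⟨v', hv', hv⟩)
                · exact absurd hv init_l_false
                · have hv : tr N (.l j x) v'.1 k (.l 0 x') v.1 = true := hv
                  simp only [tr] at hv
                  rw [if_neg (by omega), if_pos ⟨hjN', trivial⟩] at hv
                  exact wrap_desc hv (hO v' hv')) with h3 | ⟨e', t', he', ht', hm', hw'⟩
              · exact absurd h3 hWon'
              · rw [Option.join_eq_some_iff] at he'
                obtain ⟨e, rfl, he⟩ := Option.bind_eq_some_iff.1 he'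
                obtain ⟨e₁, he₁, hχ⟩ := Option.bind_eq_some_iff.1 he
                obtain ⟨t, ht, hm, hold, rfl⟩ := tape_of_desc hjN ht' hm'
                exact ⟨e, e₁, some e', t, rfl, he₁, hχ, ht, hm, hold,
                  fun e'' he'' => by cases he''; exact hw'.winS⟩
            · exfalso
              rcases h2 none (fun m => none) (by
                rintro v (hv | ⟨v', hv', hv⟩)
                · exact absurd hv init_l_false
                · have hv : tr N (.l j x) v'.1 k (.l j' x') v.1 = true := hv
                  simp only [tr] at hv
                  rw [if_neg (by omega), if_neg (by tauto)] at hv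
                  cases hv) with h3 | ⟨e, t, he, _⟩
              · exact hWon' h3
              · cases he
        obtain ⟨e, e', _, t, he, he', _, ht, hm, hold, _⟩ := key k₀
        refine ⟨e, t, he, ht, hm, hold, e', he', Or.inr ⟨by omega, ?_⟩⟩
        have key2 : ∀ k : A.C, ∃ o, A.χ e' k = some o ∧
            ∀ e'', o = some e'' → A.WinS 0 e'' (t.set j (A.new x)) := by
          intro k
          obtain ⟨e₂, e₂', o, t₂, he₂, he₂', hχ, ht₂, hm₂, _, hw⟩ := key k
          have h3 : e₂ = e := by rw [he] at he₂; exact (Option.some.inj he₂).symm
          subst h3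
          have h4 : e₂' = e' := by rw [he'] at he₂'; exact (Option.some.inj he₂').symm
          subst h4
          have h5 : t₂ = t := by
            refine List.ext_getElem? fun m => ?_
            by_cases hmN : m < N
            · rw [← hm₂ m hmN, hm m hmN]
            · rw [List.getElem?_eq_none_iff.2 (by omega), List.getElem?_eq_none_iff.2 (by omega)]
          subst h5
          exact ⟨o, hχ, hw⟩
        choose g hg1 hg2 using key2
        exact ⟨g, hg1, hg2⟩

/-! ### Completeness -/

theorem cell_set {x : A.F} {j m : ℕ} {t : List A.D} {d' : A.D} (ht : t[j]? = some (A.old x))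
    (h : (t.set j (A.new x))[m]? = some d') : ∃ d, t[m]? = some d ∧ cell x j m d = some d' := by
  rw [List.getElem?_set] at h
  split_ifs at h with h1 h2
  · subst h1
    refine ⟨A.old x, ht, ?_⟩
    simp [cell, Option.some.inj h]
  · refine ⟨d', h, ?_⟩
    simp [cell, Ne.symm h1]

theorem complete {N : ℕ} {d₀ : ℕ → A.D} {j : ℕ} {e : A.E} {t : List A.D} (h : A.WinS j e t)
    (ht : t.length = N) (hj : j < N) (O : A.XB N → Prop) (he : O ⟨.e (some e), trivial⟩)
    (hd : ∀ m (hm : m < N) d, t[m]? = some d → O ⟨.d m (some d), hm⟩) :
    ∃ x, Sys.Acc (A.sys N d₀) (⟨.l j x, hj⟩ : A.LB N) O := by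
  classical
  induction h generalizing O with
  | step j e t x e' h1 h2 h3 h4 ih =>
    have hj1 : j + 1 < N := by omega
    obtain ⟨x', hx'⟩ := ih (by rw [List.length_set]; exact ht) hj1
      (fun w => ∃ v, O v ∧ (A.sys N d₀).T (⟨.l j x, hj⟩ : A.LB N) v (Classical.choice A.neC)
        (⟨.l (j + 1) x, hj1⟩ : A.LB N) w = true)
      ⟨_, he, by simp [sys, tr, cont, h3]⟩
      (by
        intro m hm d' hd'
        obtain ⟨d, hd1, hd2⟩ := cell_set h2 hd'
        exact ⟨_, hd m hm d hd1, by simp [sys, tr, cont, hd2]⟩)
    refine ⟨x, Sys.Acc.node (M := A.sys N d₀) _ O (fun _ => (⟨.l (j + 1) x', hj1⟩ : A.LB N)) rfl ?_⟩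
    intro k
    refine hx'.mono ?_
    rintro w ⟨v, hv, hT⟩
    refine Or.inr ⟨v, hv, ?_⟩
    have hT : tr N (.l j x) v.1 (Classical.choice A.neC) (.l (j + 1) x) w.1 = true := hT
    change tr N (.l j x) v.1 k (.l (j + 1) x') w.1 = true
    simp only [tr, if_true] at hT ⊢
    exact hT
  | last j e t x e' g h1 h2 h3 h4 h5 ih =>
    have hjN : j + 1 = N := by omega
    have hN : 0 < N := by omega
    have key : ∀ k : A.C, ∃ b' : A.LB N, Sys.Acc (A.sys N d₀) b' (fun w =>
        (A.sys N d₀).init b' w = true ∨
          ∃ v, O v ∧ (A.sys N d₀).T (⟨.l j x, hj⟩ : A.LB N) v k b' w = true) := by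
      intro k
      cases hg : g k with
      | none =>
        refine ⟨⟨.fin, trivial⟩, Sys.Acc.leaf (M := A.sys N d₀) _ _ rfl ?_⟩
        rintro ⟨v, hv⟩ hfin
        have hfin : finp .fin v = true := hfin
        cases v with
        | e o =>
          cases o with
          | some _ => simp [finp] at hfin
          | none =>
            refine Or.inr ⟨_, he, ?_⟩
            change tr N (.l j x) (.e (some e)) k .fin (.e none) = true
            simp only [tr, if_pos hjN, finish, h3, Option.bind_some, h4 k, hg]
            simp
        | d m o =>
          cases o with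
          | some _ => simp [finp] at hfin
          | none =>
            have hm : m < N := hv
            have h6 : (t.set j (A.new x))[m]? = some ((t.set j (A.new x))[m]'(by
              rw [List.length_set]; omega)) := List.getElem?_eq_getElem _
            obtain ⟨d, hd1, hd2⟩ := cell_set h2 h6
            refine Or.inr ⟨_, hd m hm d hd1, ?_⟩
            change tr N (.l j x) (.d m (some d)) k .fin (.d m none) = true
            simp only [tr, if_pos hjN, finish, hd2]
            simp
      | some e'' =>
        obtain ⟨x', hx'⟩ := ih k e'' hg (by rw [List.length_set]; exact ht) hN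
          (fun w => ∃ v, O v ∧ (A.sys N d₀).T (⟨.l j x, hj⟩ : A.LB N) v k
            (⟨.l 0 x, hN⟩ : A.LB N) w = true)
          (by
            refine ⟨_, he, ?_⟩
            change tr N (.l j x) (.e (some e)) k (.l 0 x) (.e (some e'')) = true
            simp only [tr]
            rw [if_neg (by omega), if_pos ⟨hjN, trivial⟩]
            simp [wrap, h3, h4 k, hg])
          (by
            intro m hm d' hd'
            obtain ⟨d, hd1, hd2⟩ := cell_set h2 hd'
            refine ⟨_, hd m hm d hd1, ?_⟩
            change tr N (.l j x) (.d m (some d)) k (.l 0 x) (.d m (some d')) = true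
            simp only [tr]
            rw [if_neg (by omega), if_pos ⟨hjN, trivial⟩]
            simp [wrap, hd2])
        refine ⟨⟨.l 0 x', hN⟩, hx'.mono ?_⟩
        rintro w ⟨v, hv, hT⟩
        refine Or.inr ⟨v, hv, ?_⟩
        have hT : tr N (.l j x) v.1 k (.l 0 x) w.1 = true := hT
        change tr N (.l j x) v.1 k (.l 0 x') w.1 = true
        simp only [tr] at hT ⊢
        exact hT
    choose ch hch using key
    exact ⟨x, Sys.Acc.node (M := A.sys N d₀) _ O ch rfl hch⟩

/-- The single place `v` opens places that belong to the control or to the tape, not to both. -/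
theorem single_desc {N : ℕ} {d₀ : ℕ → A.D} {b : A.LB N} {v : A.XB N} {k : A.C} {j : ℕ} {x : A.F}
    {hj : NL.ok A N (.l j x)} : ∃ se sd, (se = none ∨ ∀ m, sd m = none) ∧ ∀ w : A.XB N,
      (A.sys N d₀).T b v k (⟨.l j x, hj⟩ : A.LB N) w = true → DescP se sd w.1 := by
  classical
  obtain ⟨b, hb⟩ := b
  obtain ⟨v, hv⟩ := v
  have h0 : ∃ (se : Option A.E) (sd : ℕ → Option A.D), (se = none ∨ ∀ m, sd m = none) ∧
      DescP se sd v := by
    cases v with
    | e o => exact ⟨o, fun _ => none, Or.inr fun _ => rfl, rfl⟩
    | d m o =>
      refine ⟨none, fun m' => if m' = m then o else none, Or.inl rfl, ?_⟩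
      simp [DescP]
  obtain ⟨se, sd, h1, h2⟩ := h0
  cases b with
  | start =>
    refine ⟨se, sd, h1, ?_⟩
    intro w hw
    have hw : tr N .start v k (.l j x) w.1 = true := hw
    simp only [tr, Bool.and_eq_true, decide_eq_true_eq] at hw
    rw [hw.2]
    exact h2
  | fin =>
    refine ⟨se, sd, h1, ?_⟩
    intro w hw
    have hw : tr N .fin v k (.l j x) w.1 = true := hw
    simp [tr] at hw
  | l j' x' =>
    by_cases hc : j = j' + 1
    · refine ⟨se.bind fun e => A.ψ e x', fun m => (sd m).bind fun d => cell x' j' m d, ?_, ?_⟩
      · rcases h1 with rfl | h1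
        · exact Or.inl rfl
        · exact Or.inr fun m => by simp only [h1, Option.bind_none]
      · intro w hw
        have hw : tr N (.l j' x') v k (.l j x) w.1 = true := hw
        simp only [tr, if_pos hc] at hw
        exact cont_desc hw h2
    · refine ⟨(se.bind fun e => (A.ψ e x').bind fun e' => A.χ e' k).join,
        fun m => (sd m).bind fun d => cell x' j' m d, ?_, ?_⟩
      · rcases h1 with rfl | h1
        · exact Or.inl rfl
        · exact Or.inr fun m => by simp only [h1, Option.bind_none]
      · intro w hw
        have hw : tr N (.l j' x') v k (.l j x) w.1 = true := hw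
        simp only [tr, if_neg hc] at hw
        split_ifs at hw
        exact wrap_desc hw h2

theorem not_good {N : ℕ} (hN : 0 < N) {d₀ : ℕ → A.D} {Won : Prop}
    (hWon : (∃ t : List A.D, t.length = N ∧ (∀ m < N, t[m]? = some (d₀ m)) ∧
      A.WinS 0 A.e₀ t) → Won) (hnot : ¬ Won) : ¬ Sys.Good (A.sys N d₀) := by
  rintro (⟨⟨b, hb'⟩, hb⟩ | ⟨b, v, k, ⟨b', hb''⟩, hb, hb'⟩)
  · have h1 := sound hN hWon hb
    cases b with
    | start => exact hnot (h1 fun v hv => hv)
    | fin => exact init_fin_false (acc_fin hb).1
    | l j x =>
      rcases h1 none (fun _ => none) (fun v hv => absurd hv init_l_false) with h2 | ⟨e, t, he, _⟩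
      · exact hnot h2
      · cases he
  · have h1 := sound hN hWon hb'
    cases b' with
    | start =>
      refine hnot (h1 ?_)
      rintro v (hv | hv)
      · exact hv
      · exact absurd hv T_start_false
    | fin =>
      obtain ⟨h2, h3⟩ := acc_fin hb'
      have h2 := h2.resolve_left init_fin_false
      have h3 := (h3 0 hN).resolve_left init_fin_false
      obtain ⟨b, hbok⟩ := b
      obtain ⟨v, hvok⟩ := v
      have h2 : tr N b v k .fin (.e none) = true := h2
      have h3 : tr N b v k .fin (.d 0 none) = true := h3
      cases b with
      | start => simp [tr] at h2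
      | fin => simp [tr] at h2
      | l j x =>
        simp only [tr] at h2 h3
        split_ifs at h2 h3
        cases v with
        | e o => cases o <;> simp [finish] at h3
        | d m o => cases o <;> simp [finish] at h2
    | l j x =>
      obtain ⟨se, sd, h2, h3⟩ := single_desc (d₀ := d₀) (b := b) (v := v) (k := k) (hj := hb'')
      rcases h1 se sd (by
        rintro w (hw | hw)
        · exact absurd hw init_l_false
        · exact h3 w hw) with h4 | ⟨e, t, he, ht, hm, _⟩
      · exact hnot h4
      · rcases h2 with h2 | h2
        · rw [h2] at he; cases he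
        · have h5 := hm 0 hN
          rw [h2, List.getElem?_eq_getElem (by omega)] at h5
          cases h5

theorem acc_of_win {N : ℕ} (hN : 0 < N) {d₀ : ℕ → A.D}
    (hW : A.WinS 0 A.e₀ ((List.range N).map d₀)) :
    Sys.Acc (A.sys N d₀) (⟨.start, trivial⟩ : A.LB N)
      (fun w => (A.sys N d₀).init (⟨.start, trivial⟩ : A.LB N) w = true) := by
  obtain ⟨x, hx⟩ := complete (d₀ := d₀) hW (by simp) hN
    (fun w => (A.sys N d₀).init (⟨.start, trivial⟩ : A.LB N) w = true)
    ((ini_start_e (d₀ := d₀)).2 rfl)
    (by
      intro m hm d hd
      rw [List.getElem?_map, List.getElem?_range hm, Option.map_some] at hd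
      exact (ini_start_d (d₀ := d₀)).2 hd.symm)
  refine Sys.Acc.node (M := A.sys N d₀) _ _ (fun _ => (⟨.l 0 x, hN⟩ : A.LB N)) rfl ?_
  intro k
  refine hx.mono ?_
  intro w hw
  refine Or.inr ⟨w, hw, ?_⟩
  change tr N .start w.1 k (.l 0 x) w.1 = true
  simp [tr]

/-- The rewriting system of a sweeping machine is strongly sequential if and only if the prover
does not win. -/
theorem stronglySequential_iff (A : ASM) {N : ℕ} (hN : 0 < N) (d₀ : ℕ → A.D) :
    (A.sys N d₀).trs.StronglySequential ↔ ¬ A.WinS 0 A.e₀ ((List.range N).map d₀) := by
  constructor
  · intro h hW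
    exact Sys.not_stronglySequential (M := A.sys N d₀) (b := (⟨.start, trivial⟩ : A.LB N))
      (acc_of_win hN hW) h
  · intro h
    refine Sys.stronglySequential (not_good hN (Won := A.WinS 0 A.e₀ ((List.range N).map d₀)) ?_ h)
    rintro ⟨t, ht, hm, hW⟩
    have : t = (List.range N).map d₀ := by
      refine List.ext_getElem? fun m => ?_
      by_cases hmN : m < N
      · rw [hm m hmN, List.getElem?_map, List.getElem?_range hmN, Option.map_some]
      · rw [List.getElem?_eq_none_iff.2 (by omega), List.getElem?_eq_none_iff.2 (by simp; omega)]
    rw [← this]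
    exact hW

/-- The same for ground terms. -/
theorem not_stronglySequentialG (A : ASM) {N : ℕ} (hN : 0 < N) (d₀ : ℕ → A.D)
    (hW : A.WinS 0 A.e₀ ((List.range N).map d₀)) : ¬ (A.sys N d₀).trs.StronglySequentialG :=
  Sys.not_stronglySequentialG (M := A.sys N d₀) (b := (⟨.start, trivial⟩ : A.LB N))
    (acc_of_win hN hW)

end ASM

end Pool.Agent.Lib.MP_ce3b04_lc
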