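import Mathlib

/-!
# Term rewriting systems and strong sequentiality
-/

open Relation

namespace Pool.Agent.Lib.MP_ce3b04_lc

/-- A finite signature: a finite set of function symbols, each with a finite set of argument
places (the arity of `f` is the number of elements of `Arg f`). -/
structure Sig where
  /-- The function symbols. -/
  Sym : Type
  /-- The argument places of a function symbol. -/
  Arg : Sym → Type
  [symFin : Fintype Sym]
  [argFin : ∀ f, Fintype (Arg f)]

attribute [instance] Sig.symFin Sig.argFin

/-- Terms over the signature `S`, the variables `x_0, x_1, …` and the fresh constant `•`. -/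
inductive Term (S : Sig) : Type
  | var : ℕ → Term S
  | bul : Term S
  | app : (f : S.Sym) → (S.Arg f → Term S) → Term S

/-- One-hole contexts. In `arg f a i C` the hole lies in the `i`-th argument of `f`, the other
arguments are given by `a` (the value `a i` is not used). -/
inductive Ctx (S : Sig) : Type
  | hole : Ctx S
  | arg : (f : S.Sym) → (S.Arg f → Term S) → S.Arg f → Ctx S → Ctx S

variable {S : Sig}

namespace Term

/-- The term does not contain `•`, that is, it is a term over the signature. -/
def BulFree : Term S → Prop
  | var _ => True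
  | bul => False
  | app _ a => ∀ i, (a i).BulFree

/-- Substitution. -/
def subst (σ : ℕ → Term S) : Term S → Term S
  | var n => σ n
  | bul => bul
  | app f a => app f fun i => (a i).subst σ

/-- The variables of a term, with multiplicity. -/
def vars : Term S → Multiset ℕ
  | var n => {n}
  | bul => 0
  | app _ a => ∑ i, (a i).vars

/-- The number of occurrences of symbols and variables. -/
def size : Term S → ℕ
  | var _ => 1
  | bul => 1
  | app _ a => 1 + ∑ i, (a i).size

end Term

open Classical in
/-- Replacing the hole of a context by a term. -/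
noncomputable def Ctx.fill : Ctx S → Term S → Term S
  | .hole, t => t
  | .arg f a i C, t => .app f (Function.update a i (C.fill t))

/-- A term rewriting system: a finite family of rules `l → r` over a finite signature, where `l` is
not a variable and every variable of `r` occurs in `l`. -/
structure TRS where
  /-- The signature. -/
  S : Sig
  /-- The index set of the rules. -/
  ι : Type
  [fin : Fintype ι]
  /-- The left-hand sides. -/
  lhs : ι → Term S
  /-- The right-hand sides. -/
  rhs : ι → Term S
  lhs_bulFree : ∀ ρ, (lhs ρ).BulFree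
  rhs_bulFree : ∀ ρ, (rhs ρ).BulFree
  lhs_ne_var : ∀ ρ n, lhs ρ ≠ .var n
  vars_subset : ∀ ρ, ∀ n ∈ (rhs ρ).vars, n ∈ (lhs ρ).vars

attribute [instance] TRS.fin

namespace TRS

variable (R : TRS)

/-- The total size of the rules. -/
def size : ℕ := ∑ ρ, ((R.lhs ρ).size + (R.rhs ρ).size)

/-- Left-linearity: no variable occurs twice in a left-hand side. -/
def LeftLinear : Prop := ∀ ρ, (R.lhs ρ).vars.Nodup

/-- Left-hand sides do not overlap: no non-variable subterm `u` of a left-hand side has a common
instance with a left-hand side, except for a left-hand side and itself at the root. -/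
def NonOverlapping : Prop :=
  ∀ (ρ₁ ρ₂ : R.ι) (C : Ctx R.S) (u : Term R.S), R.lhs ρ₁ = C.fill u → (∀ n, u ≠ .var n) →
    (C ≠ .hole ∨ ρ₁ ≠ ρ₂) → ∀ σ τ : ℕ → Term R.S, u.subst σ ≠ (R.lhs ρ₂).subst τ

/-- Orthogonality. -/
def Orthogonal : Prop := R.LeftLinear ∧ R.NonOverlapping

/-- A redex is an instance of a left-hand side (the substitution may introduce `•`). -/
def IsRedex (t : Term R.S) : Prop := ∃ ρ σ, t = (R.lhs ρ).subst σ

/-- A normal form is a term that contains no redex. -/
def IsNF (t : Term R.S) : Prop := ∀ C Δ, t = Ctx.fill C Δ → ¬ R.IsRedex Δ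

/-- Arbitrary reduction: one redex occurrence is replaced by an arbitrary term. -/
def Step (t s : Term R.S) : Prop :=
  ∃ C Δ u, R.IsRedex Δ ∧ t = Ctx.fill C Δ ∧ s = Ctx.fill C u

/-- A term `C[•]` is strongly needed if each normal form that can be reached from it by arbitrary
reduction contains `•`. -/
def StronglyNeeded (t : Term R.S) : Prop :=
  ∀ s, ReflTransGen R.Step t s → R.IsNF s → ¬ s.BulFree

/-- Strong sequentiality: every term over the signature that is not a normal form contains a
strongly needed redex. -/
def StronglySequential : Prop :=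
  ∀ t : Term R.S, t.BulFree → ¬ R.IsNF t →
    ∃ C Δ, t = Ctx.fill C Δ ∧ R.IsRedex Δ ∧ R.StronglyNeeded (Ctx.fill C .bul)

end TRS

/-! ### General facts -/

section general

variable {R : TRS}

theorem step_of_redex {t : Term R.S} (h : R.IsRedex t) (u : Term R.S) : R.Step t u :=
  ⟨.hole, t, u, h, rfl, rfl⟩

open Classical in
theorem step_arg {f : R.S.Sym} {a : R.S.Arg f → Term R.S} {i : R.S.Arg f} {b : Term R.S}
    (h : R.Step (a i) b) : R.Step (.app f a) (.app f (Function.update a i b)) := by
  obtain ⟨C, Δ, u, h1, h2, h3⟩ := h
  refine ⟨.arg f a i C, Δ, u, h1, ?_, ?_⟩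
  · simp only [Ctx.fill]
    rw [← h2, Function.update_eq_self]
  · simp only [Ctx.fill]
    rw [← h3]

open Classical in
theorem step_cases {t s : Term R.S} (h : R.Step t s) :
    R.IsRedex t ∨ ∃ (f : R.S.Sym) (a : R.S.Arg f → Term R.S) (i : R.S.Arg f) (b : Term R.S),
      t = .app f a ∧ R.Step (a i) b ∧ s = .app f (Function.update a i b) := by
  obtain ⟨C, Δ, u, h1, rfl, rfl⟩ := h
  cases C with
  | hole => exact Or.inl h1
  | arg f a i C =>
    refine Or.inr ⟨f, Function.update a i (C.fill Δ), i, C.fill u, rfl, ?_, ?_⟩
    · rw [Function.update_self]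
      exact ⟨C, Δ, u, h1, rfl, rfl⟩
    · simp [Ctx.fill]

/-- `t` can be reduced to a redex. -/
def Flex (R : TRS) (t : Term R.S) : Prop := ∃ s, ReflTransGen R.Step t s ∧ R.IsRedex s

theorem flex_of_redex {t : Term R.S} (h : R.IsRedex t) : Flex R t := ⟨t, .refl, h⟩

theorem Flex.any {t : Term R.S} (h : Flex R t) (u : Term R.S) : ReflTransGen R.Step t u := by
  obtain ⟨s, h1, h2⟩ := h
  exact h1.tail (step_of_redex h2 u)

theorem Flex.of_steps {t s : Term R.S} (h : ReflTransGen R.Step t s) (hs : Flex R s) :
    Flex R t := by
  obtain ⟨u, h1, h2⟩ := hs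
  exact ⟨u, h.trans h1, h2⟩

open Classical in
theorem steps_arg {f : R.S.Sym} {a : R.S.Arg f → Term R.S} {i : R.S.Arg f} {b : Term R.S}
    (h : ReflTransGen R.Step (a i) b) :
    ReflTransGen R.Step (.app f a) (.app f (Function.update a i b)) := by
  induction h with
  | refl => rw [Function.update_eq_self]
  | tail _ h2 ih =>
    refine ih.tail ?_
    rename_i b c _
    have := step_arg (f := f) (a := Function.update a i b) (i := i) (b := c)
      (by rw [Function.update_self]; exact h2)
    rwa [Function.update_idem] at this

open Classical in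
theorem steps_update {f : R.S.Sym} {a : R.S.Arg f → Term R.S} {i : R.S.Arg f} {u w : Term R.S}
    (h : ReflTransGen R.Step u w) :
    ReflTransGen R.Step (.app f (Function.update a i u)) (.app f (Function.update a i w)) := by
  have := steps_arg (f := f) (a := Function.update a i u) (i := i) (b := w)
    (by rw [Function.update_self]; exact h)
  rwa [Function.update_idem] at this

open Classical in
theorem steps_args {f : R.S.Sym} {a b : R.S.Arg f → Term R.S}
    (h : ∀ i, ReflTransGen R.Step (a i) (b i)) :
    ReflTransGen R.Step (.app f a) (.app f b) := by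
  have key : ∀ s : Finset (R.S.Arg f),
      ReflTransGen R.Step (.app f a) (.app f (s.piecewise b a)) := by
    intro s
    induction s using Finset.induction_on with
    | empty => simp only [Finset.piecewise_empty]; exact .refl
    | insert i s hi ih =>
      refine ih.trans ?_
      rw [Finset.piecewise_insert]
      refine steps_arg ?_
      rw [Finset.piecewise_eq_of_notMem _ _ _ hi]
      exact h i
  have := key Finset.univ
  rwa [Finset.piecewise_univ] at this

open Classical in
theorem sim_of_steps {t s : Term R.S} (h : ReflTransGen R.Step t s) :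
    Flex R t ∨ t = s ∨ ∃ (f : R.S.Sym) (a b : R.S.Arg f → Term R.S),
      t = .app f a ∧ s = .app f b ∧ ∀ i, ReflTransGen R.Step (a i) (b i) := by
  induction h using ReflTransGen.head_induction_on with
  | refl => exact Or.inr (Or.inl rfl)
  | head h1 h2 ih =>
    rename_i t t'
    rcases step_cases h1 with h3 | ⟨f, a, i, b, rfl, h3, rfl⟩
    · exact Or.inl (flex_of_redex h3)
    · rcases ih with h4 | h4 | ⟨g, a', b', h4, h5, h6⟩
      · exact Or.inl (h4.of_steps (.single h1))
      · subst h4
        refine Or.inr (Or.inr ⟨f, a, _, rfl, rfl, ?_⟩)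
        intro j
        by_cases hj : j = i
        · subst hj; rw [Function.update_self]; exact .single h3
        · rw [Function.update_of_ne hj]
      · obtain ⟨rfl, h4⟩ := Term.app.inj h4
        have h4 := eq_of_heq h4
        subst h4
        refine Or.inr (Or.inr ⟨f, a, b', rfl, h5, ?_⟩)
        intro j
        have h7 := h6 j
        by_cases hj : j = i
        · subst hj; rw [Function.update_self] at h7; exact h7.head h3
        · rwa [Function.update_of_ne hj] at h7

open Classical in
theorem flex_app_iff {f : R.S.Sym} {a : R.S.Arg f → Term R.S} :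
    Flex R (.app f a) ↔ ∃ a', (∀ i, ReflTransGen R.Step (a i) (a' i)) ∧ R.IsRedex (.app f a') := by
  constructor
  · rintro ⟨s, h1, h2⟩
    generalize ht : Term.app f a = t at h1
    induction h1 using ReflTransGen.head_induction_on generalizing a with
    | refl => subst ht; exact ⟨a, fun _ => .refl, h2⟩
    | head h3 h4 ih =>
      subst ht
      rcases step_cases h3 with h5 | ⟨g, a1, i, b, h5, h6, h7⟩
      · exact ⟨a, fun _ => .refl, h5⟩
      · obtain ⟨rfl, h5⟩ := Term.app.inj h5
        have h5 := eq_of_heq h5
        subst h5
        obtain ⟨a', h8, h9⟩ := ih h7.symm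
        refine ⟨a', ?_, h9⟩
        intro j
        have h10 := h8 j
        by_cases hj : j = i
        · subst hj; rw [Function.update_self] at h10; exact h10.head h6
        · rwa [Function.update_of_ne hj] at h10
  · rintro ⟨a', h1, h2⟩
    exact ⟨_, steps_args h1, h2⟩

theorem not_redex_bul : ¬ R.IsRedex .bul := by
  rintro ⟨ρ, σ, h⟩
  have h1 := R.lhs_bulFree ρ
  have h2 := R.lhs_ne_var ρ
  cases hl : R.lhs ρ with
  | var n => exact h2 n hl
  | bul => rw [hl] at h1; exact h1
  | app f a => rw [hl] at h; simp [Term.subst] at h

theorem not_redex_var (n : ℕ) : ¬ R.IsRedex (.var n) := by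
  rintro ⟨ρ, σ, h⟩
  have h1 := R.lhs_bulFree ρ
  have h2 := R.lhs_ne_var ρ
  cases hl : R.lhs ρ with
  | var n => exact h2 n hl
  | bul => rw [hl] at h1; exact h1
  | app f a => rw [hl] at h; simp [Term.subst] at h

theorem no_step_bul (s : Term R.S) : ¬ R.Step .bul s := by
  intro h
  rcases step_cases h with h5 | ⟨f, a, i, b', h5, _⟩
  · exact not_redex_bul h5
  · cases h5

theorem no_step_var (n : ℕ) (s : Term R.S) : ¬ R.Step (.var n) s := by
  intro h
  rcases step_cases h with h5 | ⟨f, a, i, b', h5, _⟩
  · exact not_redex_var n h5
  · cases h5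

theorem steps_bul {s : Term R.S} (h : ReflTransGen R.Step .bul s) : s = .bul := by
  rcases ReflTransGen.cases_head h with h | ⟨c, h, _⟩
  · exact h.symm
  · exact absurd h (no_step_bul c)

theorem not_flex_bul : ¬ Flex R .bul := by
  rintro ⟨s, h1, h2⟩
  rw [steps_bul h1] at h2
  exact not_redex_bul h2

theorem not_flex_var (n : ℕ) : ¬ Flex R (.var n) := by
  rintro ⟨s, h1, h2⟩
  rcases ReflTransGen.cases_head h1 with h | ⟨c, h, _⟩
  · rw [← h] at h2; exact not_redex_var n h2
  · exact no_step_var n c h

theorem isNF_var (n : ℕ) : R.IsNF (.var n) := by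
  intro C Δ h hΔ
  cases C with
  | hole => simp only [Ctx.fill] at h; subst h; exact not_redex_var n hΔ
  | arg f a i C => simp [Ctx.fill] at h

theorem isNF_bul : R.IsNF .bul := by
  intro C Δ h hΔ
  cases C with
  | hole => simp only [Ctx.fill] at h; subst h; exact not_redex_bul hΔ
  | arg f a i C => simp [Ctx.fill] at h

open Classical in
theorem isNF_app_iff {f : R.S.Sym} {a : R.S.Arg f → Term R.S} :
    R.IsNF (.app f a) ↔ ¬ R.IsRedex (.app f a) ∧ ∀ i, R.IsNF (a i) := by
  constructor
  · intro h
    refine ⟨h .hole _ rfl, ?_⟩
    intro i C Δ h1 h2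
    refine h (.arg f a i C) Δ ?_ h2
    simp only [Ctx.fill]
    rw [← h1, Function.update_eq_self]
  · rintro ⟨h1, h2⟩ C Δ h3 h4
    cases C with
    | hole => simp only [Ctx.fill] at h3; subst h3; exact h1 h4
    | arg g b i C =>
      simp only [Ctx.fill] at h3
      obtain ⟨rfl, h3⟩ := Term.app.inj h3
      have h3 := eq_of_heq h3
      subst h3
      have := h2 i
      rw [Function.update_self] at this
      exact this C Δ rfl h4

/-- A normal form cannot be reduced to a redex. -/
theorem IsNF.not_flex {t : Term R.S} (h : R.IsNF t) : ¬ Flex R t := by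
  induction t with
  | var n => exact not_flex_var n
  | bul => exact not_flex_bul
  | app f a ih =>
    rw [isNF_app_iff] at h
    intro hf
    obtain ⟨a', h1, h2⟩ := flex_app_iff.1 hf
    have key : ∀ i, a' i = a i := by
      intro i
      rcases ReflTransGen.cases_head (h1 i) with h3 | ⟨c, h3, h4⟩
      · exact h3.symm
      · exfalso
        obtain ⟨C, Δ, u, h5, h6, h7⟩ := h3
        exact h.2 i C Δ h6 h5
    rw [funext key] at h2
    exact h.1 h2

/-- A context is safe if no subterm containing the hole, filled with `•`, can be reduced to a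
redex. -/
def Safe (R : TRS) : Ctx R.S → Prop
  | .hole => True
  | .arg f a i C => Safe R C ∧ ¬ Flex R (Ctx.fill (.arg f a i C) .bul)

theorem Safe.not_flex {C : Ctx R.S} (h : Safe R C) : ¬ Flex R (C.fill .bul) := by
  cases C with
  | hole => exact not_flex_bul
  | arg f a i C => exact h.2

open Classical in
theorem Safe.not_bulFree {C : Ctx R.S} (h : Safe R C) {s : Term R.S}
    (hs : ReflTransGen R.Step (C.fill .bul) s) : ¬ s.BulFree := by
  induction C generalizing s with
  | hole =>
    rw [steps_bul hs]
    exact fun h => h
  | arg f a i C ih =>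
    rcases sim_of_steps hs with h1 | h1 | ⟨g, b, b', h1, h2, h3⟩
    · exact absurd h1 h.2
    · rw [← h1]
      simp only [Ctx.fill, Term.BulFree]
      intro h2
      have := h2 i
      rw [Function.update_self] at this
      exact ih h.1 .refl this
    · subst h2
      simp only [Ctx.fill] at h1
      obtain ⟨rfl, h1⟩ := Term.app.inj h1
      have h1 := eq_of_heq h1
      subst h1
      intro h4
      have h5 := h3 i
      rw [Function.update_self] at h5
      exact ih h.1 h5 (h4 i)

theorem Safe.stronglyNeeded {C : Ctx R.S} (h : Safe R C) : R.StronglyNeeded (C.fill .bul) :=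
  fun _ hs _ => h.not_bulFree hs

open Classical in
theorem Ctx.fill_bulFree {C : Ctx R.S} {t u : Term R.S} (h : (C.fill t).BulFree)
    (hu : u.BulFree) : (C.fill u).BulFree := by
  induction C with
  | hole => exact hu
  | arg f a i C ih =>
    simp only [Ctx.fill, Term.BulFree] at h ⊢
    intro j
    by_cases hj : j = i
    · subst hj
      have := h j
      rw [Function.update_self] at this ⊢
      exact ih this
    · have := h j
      rwa [Function.update_of_ne hj] at this ⊢

/-- The number of occurrences of function symbols. -/
def Term.napp : Term S → ℕ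
  | .var _ => 0
  | .bul => 0
  | .app _ a => 1 + ∑ i, (a i).napp

open Classical in
theorem Ctx.napp_fill_lt {C : Ctx S} {t u : Term S} (h : u.napp < t.napp) :
    (C.fill u).napp < (C.fill t).napp := by
  induction C with
  | hole => exact h
  | arg f a i C ih =>
    simp only [Ctx.fill, Term.napp]
    have : ∀ v : Term S, ∑ j, (Function.update a i v j).napp
        = v.napp + ∑ j ∈ Finset.univ.erase i, (a j).napp := by
      intro v
      rw [← Finset.add_sum_erase Finset.univ _ (Finset.mem_univ i), Function.update_self]
      congr 1
      refine Finset.sum_congr rfl ?_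
      intro j hj
      rw [Function.update_of_ne (Finset.ne_of_mem_erase hj)]
    rw [this, this]
    omega

/-- Every term without `•` can be reduced to a normal form without `•`. -/
theorem exists_nf (t : Term R.S) (ht : t.BulFree) :
    ∃ s, ReflTransGen R.Step t s ∧ R.IsNF s ∧ s.BulFree := by
  induction hn : t.napp using Nat.strong_induction_on generalizing t with
  | _ n ih =>
    by_cases hNF : R.IsNF t
    · exact ⟨t, .refl, hNF, ht⟩
    · unfold TRS.IsNF at hNF
      push Not at hNF
      obtain ⟨C, Δ, rfl, h⟩ := hNF
      have h1 : (Term.var 0 : Term R.S).napp < Δ.napp := by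
        cases Δ with
        | var n => exact absurd h (not_redex_var n)
        | bul => exact absurd h not_redex_bul
        | app f a => simp only [Term.napp]; omega
      have h2 := Ctx.napp_fill_lt (C := C) h1
      obtain ⟨s, h3, h4, h5⟩ := ih _ (by rw [← hn]; exact h2) (C.fill (.var 0))
        (Ctx.fill_bulFree ht trivial) rfl
      exact ⟨s, h3.head ⟨C, Δ, _, h, rfl, rfl⟩, h4, h5⟩

/-- If a term reduces to a term without `•`, then it is not strongly needed. -/
theorem not_stronglyNeeded {t s : Term R.S} (h : ReflTransGen R.Step t s) (hs : s.BulFree) :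
    ¬ R.StronglyNeeded t := by
  obtain ⟨u, h1, h2, h3⟩ := exists_nf s hs
  intro h4
  exact h4 u (h.trans h1) h2 h3

end general

end Pool.Agent.Lib.MP_ce3b04_lc
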