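import Pool.Agent.Lib.MP_ce3b04_lc.Size

/-!
# Families of deterministic top-down tree automata, and the system made from them
-/

open Relation

set_option linter.unusedSimpArgs false

namespace Pool.Agent.Lib.MP_ce3b04_lc

namespace Sys

theorem Acc.dest {M : Sys} {b : M.B} {O : M.X → Prop} (h : Acc M b O) :
    (M.leaf b = true ∧ ∀ v, M.fin b v = true → O v) ∨
      (M.leaf b = false ∧ ∃ ch : M.Ch b → M.B, ∀ k, Acc M (ch k) (fun w =>
        M.init (ch k) w = true ∨ ∃ v, O v ∧ M.T b v k (ch k) w = true)) := by
  cases h with
  | leaf _ _ h1 h2 => exact Or.inl ⟨h1, h2⟩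
  | node _ _ ch h1 h2 => exact Or.inr ⟨h1, ch, h2⟩

theorem Acc.ind {M : Sys} {P : M.B → (M.X → Prop) → Prop}
    (leaf : ∀ b O, M.leaf b = true → (∀ v, M.fin b v = true → O v) → P b O)
    (node : ∀ b O (ch : M.Ch b → M.B), M.leaf b = false →
      (∀ k, Acc M (ch k) (fun w => M.init (ch k) w = true ∨
        ∃ v, O v ∧ M.T b v k (ch k) w = true)) →
      (∀ k, P (ch k) (fun w => M.init (ch k) w = true ∨
        ∃ v, O v ∧ M.T b v k (ch k) w = true)) → P b O)
    {b : M.B} {O : M.X → Prop} (h : Acc M b O) : P b O := by
  induction h with
  | leaf b O h1 h2 => exact leaf b O h1 h2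
  | node b O ch h1 h2 ih => exact node b O ch h1 h2 ih

end Sys

/-- A finite family of deterministic top-down tree automata (without acceptance conditions other
than that the run does not get stuck) over one finite ranked alphabet. -/
structure Automata where
  /-- the letters -/
  L : Type
  /-- the argument places of a letter; the rank of `a` is the number of elements of `Arg a` -/
  Arg : L → Type
  /-- the automata -/
  I : Type
  /-- the states -/
  Q : Type
  /-- the initial states -/
  start : I → Q
  /-- the transitions: in the state `q`, reading the letter `a`, the `i`-th automaton is either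
  stuck or goes to states for the argument places of `a` -/
  δ : I → Q → (a : L) → Option (Arg a → Q)
  [finL : Fintype L]
  [finArg : ∀ a, Fintype (Arg a)]
  [finI : Fintype I]
  [finQ : Fintype Q]

attribute [instance] Automata.finL Automata.finArg Automata.finI Automata.finQ

namespace Automata

variable (A : Automata)

/-- Finite trees over the ranked alphabet. -/
inductive Tree : Type
  | node : (a : A.L) → (A.Arg a → Tree) → Tree

variable {A}

/-- The `i`-th automaton accepts the tree from the state `q`. -/
def Accepts (i : A.I) : A.Q → A.Tree → Prop
  | q, .node a c => match A.δ i q a with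
    | none => False
    | some g => ∀ j, Accepts i (g j) (c j)

variable (A)

/-- All automata of the family accept a common tree. -/
def HaveCommonTree : Prop := ∃ t : A.Tree, ∀ i, Accepts i (A.start i) t

/-- The size of the family: number of automata, of states, of letters and of argument places. -/
def size : ℕ :=
  Fintype.card A.I + Fintype.card A.Q + ∑ a : A.L, (1 + Fintype.card (A.Arg a))

/-- The letters of the system. -/
inductive Letter : Type
  | start : Letter
  | fin : Letter
  | l : A.L → Letter

/-- `Letter` as a sum type. -/
def letterEquiv : A.Letter ≃ Option (Option A.L) where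
  toFun
    | .start => none
    | .fin => some none
    | .l a => some (some a)
  invFun
    | none => .start
    | some none => .fin
    | some (some a) => .l a
  left_inv s := by cases s <;> rfl
  right_inv s := by rcases s with (_ | _ | _) <;> rfl

instance finite_letter : Finite A.Letter := Finite.of_equiv _ A.letterEquiv.symm

noncomputable instance : Fintype A.Letter := Fintype.ofFinite _

/-- The children of the letters of the system. -/
def ChT : A.Letter → Type
  | .start => Unit
  | .fin => Unit
  | .l a => Option (A.Arg a)

instance : ∀ b, Fintype (A.ChT b)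
  | .start => inferInstanceAs (Fintype Unit)
  | .fin => inferInstanceAs (Fintype Unit)
  | .l a => inferInstanceAs (Fintype (Option (A.Arg a)))

instance : ∀ b, Nonempty (A.ChT b)
  | .start => inferInstanceAs (Nonempty Unit)
  | .fin => inferInstanceAs (Nonempty Unit)
  | .l a => inferInstanceAs (Nonempty (Option (A.Arg a)))

/-- The letter `fin`. -/
def isFin : A.Letter → Bool
  | .fin => true
  | _ => false

/-- The letters `l a`. -/
def isL : A.Letter → Bool
  | .l _ => true
  | _ => false

variable {A} in
open Classical in
/-- The letter `a` in the state `v.2` of the automaton `v.1`, if this is not stuck, opens the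
place with the next state at the argument place `j`. -/
noncomputable def opensArg (a : A.L) (j : A.Arg a) (v w : A.I × Option A.Q) : Bool :=
  match v.2 with
  | none => false
  | some q => match A.δ v.1 q a with
    | none => false
    | some g => decide (w = (v.1, some (g j)))

variable {A} in
open Classical in
/-- The letter `a` in the state `v.2` of the automaton `v.1`, if this is not stuck, opens the
place `(v.1, none)`. -/
noncomputable def opensFin (a : A.L) (v w : A.I × Option A.Q) : Bool :=
  match v.2 with
  | none => false
  | some q => match A.δ v.1 q a with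
    | none => false
    | some _ => decide (w = (v.1, none))

variable {A} in
/-- The transitions at the letter `a`. -/
noncomputable def transL (a : A.L) (v : A.I × Option A.Q) (b' : A.Letter)
    (w : A.I × Option A.Q) : Option (A.Arg a) → Bool
  | some j => A.isL b' && opensArg a j v w
  | none => A.isFin b' && opensFin a v w

open Classical in
/-- The transitions. -/
noncomputable def trans : (b : A.Letter) → A.I × Option A.Q → A.ChT b → A.Letter →
    A.I × Option A.Q → Bool
  | .start, v, _, b', w => A.isL b' && decide (w = v)
  | .fin, _, _, _, _ => false
  | .l a, v, k, b', w => transL a v b' w k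

open Classical in
/-- The initial places. -/
noncomputable def initT : A.Letter → A.I × Option A.Q → Bool
  | .start, v => decide (v.2 = some (A.start v.1))
  | _, _ => false

open Classical in
/-- The final places. -/
noncomputable def finT : A.Letter → A.I × Option A.Q → Bool
  | .fin, v => decide (v.2 = none)
  | _, _ => false

/-- The system of a family of tree automata. -/
noncomputable def sys : Sys where
  B := A.Letter
  X := A.I × Option A.Q
  Ch := A.ChT
  leaf := A.isFin
  init := A.initT
  fin := A.finT
  T := A.trans
  numX v := (Fintype.equivFin (A.I × Option A.Q) v).1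
  numCh b k := (Fintype.equivFin (A.ChT b) k).1
  numX_inj _ _ h := (Fintype.equivFin _).injective (Fin.ext h)
  numCh_inj _ _ _ h := (Fintype.equivFin _).injective (Fin.ext h)

variable {A}

theorem T_l_some {a : A.L} {v : A.I × Option A.Q} {j : A.Arg a} {b' : A.Letter}
    {w : A.I × Option A.Q} (h : A.sys.T (.l a) v (some j : Option (A.Arg a)) b' w = true) :
    ∃ c q g, b' = .l c ∧ v.2 = some q ∧ A.δ v.1 q a = some g ∧ w = (v.1, some (g j)) := by
  obtain ⟨i, q⟩ := v
  cases b' with
  | start => simp [sys, isFin, isL, initT, finT, trans, transL, opensArg, opensFin] at h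
  | fin => cases q <;> simp [sys, isFin, isL, initT, finT, trans, transL, opensArg, opensFin] at h
  | l c =>
    cases q with
    | none => simp [sys, isFin, isL, initT, finT, trans, transL, opensArg, opensFin] at h
    | some q =>
      cases hg : A.δ i q a with
      | none => simp [sys, isFin, isL, initT, finT, trans, transL, opensArg, opensFin, hg] at h
      | some g =>
        simp [sys, isFin, isL, initT, finT, trans, transL, opensArg, opensFin, hg] at h
        exact ⟨c, q, g, rfl, rfl, hg, h⟩

theorem T_l_none {a : A.L} {v : A.I × Option A.Q} {b' : A.Letter}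
    {w : A.I × Option A.Q} (h : A.sys.T (.l a) v (none : Option (A.Arg a)) b' w = true) :
    ∃ q g, b' = .fin ∧ v.2 = some q ∧ A.δ v.1 q a = some g ∧ w = (v.1, none) := by
  obtain ⟨i, q⟩ := v
  cases b' with
  | start => simp [sys, isFin, isL, initT, finT, trans, transL, opensArg, opensFin] at h
  | l c => cases q <;> simp [sys, isFin, isL, initT, finT, trans, transL, opensArg, opensFin] at h
  | fin =>
    cases q with
    | none => simp [sys, isFin, isL, initT, finT, trans, transL, opensArg, opensFin] at h
    | some q =>
      cases hg : A.δ i q a with
      | none => simp [sys, isFin, isL, initT, finT, trans, transL, opensArg, opensFin, hg] at h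
      | some g =>
        simp [sys, isFin, isL, initT, finT, trans, transL, opensArg, opensFin, hg] at h
        exact ⟨q, g, rfl, rfl, hg, h⟩

theorem T_start {v : A.I × Option A.Q} {k : Unit} {b' : A.Letter}
    {w : A.I × Option A.Q} (h : A.sys.T .start v k b' w = true) :
    ∃ c, b' = .l c ∧ w = v := by
  cases b' with
  | start => simp [sys, isFin, isL, initT, finT, trans, transL, opensArg, opensFin] at h
  | fin => simp [sys, isFin, isL, initT, finT, trans, transL, opensArg, opensFin] at h
  | l c => simp [sys, isFin, isL, initT, finT, trans, transL, opensArg, opensFin] at h; exact ⟨c, rfl, h⟩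

theorem init_l {a : A.L} {w : A.I × Option A.Q} : ¬ A.sys.init (.l a) w = true := by
  simp [sys, isFin, isL, initT, finT, trans, transL, opensArg, opensFin]

theorem init_fin {w : A.I × Option A.Q} : ¬ A.sys.init .fin w = true := by
  simp [sys, isFin, isL, initT, finT, trans, transL, opensArg, opensFin]

theorem init_start {w : A.I × Option A.Q} :
    A.sys.init .start w = true ↔ w.2 = some (A.start w.1) := by
  simp [sys, isFin, isL, initT, finT, trans, transL, opensArg, opensFin]

/-- The final test. -/
theorem acc_fin {O : A.I × Option A.Q → Prop} (h : Sys.Acc A.sys Letter.fin O) (i : A.I) :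
    O (i, none) := by
  rcases h.dest with ⟨_, h⟩ | ⟨h, _⟩
  · exact h (i, none) (by simp [sys, isFin, isL, initT, finT, trans, transL, opensArg, opensFin])
  · simp [sys, isFin, isL, initT, finT, trans, transL, opensArg, opensFin] at h

/-- What acceptance by the system means. -/
def Sound : A.Letter → (A.I × Option A.Q → Prop) → Prop
  | .start, O => (∀ v, O v → v.2 = some (A.start v.1)) → A.HaveCommonTree
  | .fin, _ => True
  | .l _, O => ∀ s : A.I → Option A.Q, (∀ v, O v → v.2 = s v.1) → A.HaveCommonTree ∨
        ∃ t : A.Tree, ∀ i, ∃ q, s i = some q ∧ Accepts i q t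

/-- What acceptance by the system means. -/
theorem acc_sound [Nonempty A.I] {b : A.Letter} {O : A.I × Option A.Q → Prop}
    (h : Sys.Acc A.sys b O) : Sound b O := by
  refine Sys.Acc.ind (M := A.sys) (P := fun (b : A.Letter) O => Sound b O) ?_ ?_ h
  · intro b O hb h
    cases (b : A.Letter) with
    | start => simp [sys, isFin, isL, initT, finT, trans, transL, opensArg, opensFin] at hb
    | fin => trivial
    | l a => simp [sys, isFin, isL, initT, finT, trans, transL, opensArg, opensFin] at hb
  · intro b O ch hb h ih
    obtain ⟨i₀⟩ := ‹Nonempty A.I›
    cases b with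
    | fin => trivial
    | start =>
      intro hO
      have h1 := h ()
      have h2 := ih ()
      generalize hc : ch () = c at h1 h2
      cases c with
      | start =>
        refine h2 ?_
        rintro v (hv | ⟨v', hv', hv⟩)
        · exact init_start.1 hv
        · obtain ⟨c, hc, _⟩ := T_start hv
          cases hc
      | fin =>
        have h3 := acc_fin h1 i₀
        rcases h3 with hv | ⟨v', hv', hv⟩
        · exact absurd hv init_fin
        · obtain ⟨c, hc, _⟩ := T_start hv
          cases hc
      | l c =>
        rcases h2 (fun i => some (A.start i)) (by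
          rintro v (hv | ⟨v', hv', hv⟩)
          · exact absurd hv init_l
          · obtain ⟨c, hc, rfl⟩ := T_start hv
            exact hO _ hv') with h3 | ⟨t, h3⟩
        · exact h3
        · refine ⟨t, fun i => ?_⟩
          obtain ⟨q, h4, h5⟩ := h3 i
          cases h4
          exact h5
    | l a =>
      intro s hs
      have h1 := h (none : Option (A.Arg a))
      have h2 := ih (none : Option (A.Arg a))
      generalize hc : ch (none : Option (A.Arg a)) = c at h1 h2
      cases c with
      | start =>
        left
        refine h2 ?_
        rintro v (hv | ⟨v', hv', hv⟩)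
        · exact init_start.1 hv
        · obtain ⟨q, g, hc, _⟩ := T_l_none hv
          cases hc
      | l c =>
        left
        rcases h2 (fun _ => none) (by
          rintro v (hv | ⟨v', hv', hv⟩)
          · exact absurd hv init_l
          · obtain ⟨q, g, hc, _⟩ := T_l_none hv
            cases hc) with h3 | ⟨t, h3⟩
        · exact h3
        · obtain ⟨q, h4, _⟩ := h3 i₀
          cases h4
      | fin =>
        have h3 : ∀ i, ∃ q g, s i = some q ∧ A.δ i q a = some g := by
          intro i
          rcases acc_fin h1 i with hv | ⟨v', hv', hv⟩
          · exact absurd hv init_fin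
          · obtain ⟨q, g, _, h4, h5, h6⟩ := T_l_none hv
            have h7 : i = v'.1 := congrArg Prod.fst h6
            subst h7
            exact ⟨q, g, by rw [← hs v' hv', h4], h5⟩
        choose q g hq hg using h3
        have h4 : ∀ j : A.Arg a, A.HaveCommonTree ∨ ∃ t : A.Tree, ∀ i, Accepts i (g i j) t := by
          intro j
          have h1 := h (some j : Option (A.Arg a))
          have h2 := ih (some j : Option (A.Arg a))
          generalize hc : ch (some j : Option (A.Arg a)) = c at h1 h2
          cases c with
          | start =>
            left
            refine h2 ?_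
            rintro v (hv | ⟨v', hv', hv⟩)
            · exact init_start.1 hv
            · obtain ⟨c, q, g, hc, _⟩ := T_l_some hv
              cases hc
          | fin =>
            rcases acc_fin h1 i₀ with hv | ⟨v', hv', hv⟩
            · exact absurd hv init_fin
            · obtain ⟨c, q, g, hc, _⟩ := T_l_some hv
              cases hc
          | l c =>
            rcases h2 (fun i => some (g i j)) (by
              rintro v (hv | ⟨v', hv', hv⟩)
              · exact absurd hv init_l
              · obtain ⟨c, q', g', _, h8, h9, h10⟩ := T_l_some hv
                subst h10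
                have h11 := hs v' hv'
                rw [h8, hq v'.1] at h11
                cases h11
                rw [hg v'.1] at h9
                cases h9
                rfl) with h3 | ⟨t, h3⟩
            · exact Or.inl h3
            · refine Or.inr ⟨t, fun i => ?_⟩
              obtain ⟨q, h4, h5⟩ := h3 i
              cases h4
              exact h5
        by_cases hN : A.HaveCommonTree
        · exact Or.inl hN
        · right
          have h5 : ∀ j : A.Arg a, ∃ t : A.Tree, ∀ i, Accepts i (g i j) t :=
            fun j => (h4 j).resolve_left hN
          choose t ht using h5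
          refine ⟨.node a t, fun i => ⟨q i, hq i, ?_⟩⟩
          simp only [Accepts, hg i]
          exact fun j => ht j i

/-- A common tree gives an accepted tree of the system. -/
theorem acc_complete (t : A.Tree) (q : A.I → A.Q) (ht : ∀ i, Accepts i (q i) t)
    (O : A.I × Option A.Q → Prop) (hO : ∀ i, O (i, some (q i))) :
    ∃ a, Sys.Acc A.sys (Letter.l a) O := by
  induction t generalizing q O with
  | node a c ih =>
    refine ⟨a, ?_⟩
    have h1 : ∀ i, ∃ g, A.δ i (q i) a = some g ∧ ∀ j, Accepts i (g j) (c j) := by
      intro i
      have := ht i
      simp only [Accepts] at this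
      cases hg : A.δ i (q i) a with
      | none => rw [hg] at this; exact this.elim
      | some g => rw [hg] at this; exact ⟨g, rfl, this⟩
    choose g hg h2 using h1
    have h3 : ∀ j : A.Arg a, ∃ a', Sys.Acc A.sys (Letter.l a')
        (fun w => ∃ i, w = (i, some (g i j))) :=
      fun j => ih j (fun i => g i j) (fun i => h2 i j) _ (fun i => ⟨i, rfl⟩)
    choose a' ha' using h3
    refine Sys.Acc.node (M := A.sys) (.l a) O (fun k : Option (A.Arg a) => match k with
      | some j => .l (a' j)
      | none => .fin) (by simp [sys, isFin, isL, initT, finT, trans, transL, opensArg, opensFin]) ?_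
    rintro (_ | j)
    · refine Sys.Acc.leaf (M := A.sys) .fin _ (by simp [sys, isFin, isL, initT, finT, trans, transL, opensArg, opensFin]) ?_
      rintro ⟨i, o⟩ hv
      have hv : o = none := by simpa [sys, isFin, isL, initT, finT, trans, transL, opensArg, opensFin] using hv
      subst hv
      refine Or.inr ⟨(i, some (q i)), hO i, ?_⟩
      simp [sys, isFin, isL, initT, finT, trans, transL, opensArg, opensFin, hg i]
    · refine (ha' j).mono ?_
      rintro w ⟨i, rfl⟩
      refine Or.inr ⟨(i, some (q i)), hO i, ?_⟩
      simp [sys, isFin, isL, initT, finT, trans, transL, opensArg, opensFin, hg i]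

theorem not_good [Nontrivial A.I] (h : ¬ A.HaveCommonTree) : ¬ Sys.Good A.sys := by
  obtain ⟨i₁, i₂, hi⟩ := exists_pair_ne A.I
  rintro (⟨b, hb⟩ | ⟨b, v, k, b', hb, hb'⟩)
  · have h1 := acc_sound hb
    cases b with
    | start => exact h (h1 fun v hv => init_start.1 hv)
    | fin => exact init_fin (acc_fin hb i₁)
    | l a =>
      rcases h1 (fun _ => none) (fun v hv => absurd hv init_l) with h2 | ⟨t, h2⟩
      · exact h h2
      · obtain ⟨q, h3, _⟩ := h2 i₁
        cases h3
  · have h1 := acc_sound hb'
    have hT : ∀ w, A.sys.T b v k b' w = true → w.1 = v.1 := by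
      intro w hw
      cases b with
      | start => obtain ⟨_, _, rfl⟩ := T_start hw; rfl
      | fin => simp [sys, isFin, isL, initT, finT, trans, transL, opensArg, opensFin] at hw
      | l a =>
        cases (k : Option (A.Arg a)) with
        | none => obtain ⟨_, _, _, _, _, rfl⟩ := T_l_none hw; rfl
        | some j => obtain ⟨_, _, _, _, _, _, rfl⟩ := T_l_some hw; rfl
    have hd : ∃ i : A.I, i ≠ v.1 := by
      by_cases h3 : i₁ = v.1
      · exact ⟨i₂, fun h4 => hi (h3.trans h4.symm)⟩
      · exact ⟨i₁, h3⟩
    obtain ⟨i, hne⟩ := hd
    cases b' with
    | start =>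
      refine h (h1 ?_)
      rintro w (hw | hw)
      · exact init_start.1 hw
      · exfalso
        cases b with
        | start => obtain ⟨_, h4, _⟩ := T_start hw; cases h4
        | fin => simp [sys, isFin, isL, initT, finT, trans, transL, opensArg, opensFin] at hb
        | l a =>
          cases (k : Option (A.Arg a)) with
          | none => obtain ⟨_, _, h4, _⟩ := T_l_none hw; cases h4
          | some j => obtain ⟨_, _, _, h4, _⟩ := T_l_some hw; cases h4
    | fin =>
      rcases acc_fin hb' i with h3 | h3
      · exact init_fin h3
      · exact hne (hT _ h3)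
    | l a' =>
      classical
      -- all open places belong to the component `v.1`
      by_cases hex : ∃ w, A.sys.T b v k (.l a') w = true
      · obtain ⟨w₀, hw₀⟩ := hex
        have huniq : ∀ w, A.sys.T b v k (.l a') w = true → w = w₀ := by
          intro w hw
          cases b with
          | start =>
            obtain ⟨_, _, rfl⟩ := T_start hw
            obtain ⟨_, _, rfl⟩ := T_start hw₀
            rfl
          | fin => simp [sys, isFin, isL, initT, finT, trans, transL, opensArg, opensFin] at hw
          | l a =>
            cases hk : (k : Option (A.Arg a)) with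
            | none =>
              subst hk
              obtain ⟨_, _, h4, _⟩ := T_l_none hw
              cases h4
            | some j =>
              subst hk
              obtain ⟨_, q, g, _, h5, h6, rfl⟩ := T_l_some hw
              obtain ⟨_, q', g', _, h8, h9, rfl⟩ := T_l_some hw₀
              rw [h5] at h8
              cases h8
              rw [h6] at h9
              cases h9
              rfl
        rcases h1 (fun i => if i = w₀.1 then w₀.2 else none) (by
          rintro w (hw | hw)
          · exact absurd hw init_l
          · rw [huniq w hw, if_pos rfl]) with h2 | ⟨t, h2⟩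
        · exact h h2
        · obtain ⟨q, h3, _⟩ := h2 i
          rw [if_neg] at h3
          · cases h3
          · rw [hT _ hw₀]; exact hne
      · rcases h1 (fun _ => none) (by
          rintro w (hw | hw)
          · exact absurd hw init_l
          · exact absurd ⟨w, hw⟩ hex) with h2 | ⟨t, h2⟩
        · exact h h2
        · obtain ⟨q, h3, _⟩ := h2 i₁
          cases h3

/-- The main equivalence. -/
theorem stronglySequential_iff (A : Automata) [Nontrivial A.I] :
    A.sys.trs.StronglySequential ↔ ¬ A.HaveCommonTree := by
  constructor
  · rintro h ⟨t, ht⟩
    obtain ⟨a, ha⟩ := acc_complete t A.start ht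
      (fun w => A.sys.init .start w = true) (fun i => init_start.2 rfl)
    refine Sys.not_stronglySequential (M := A.sys) (b := Letter.start) ?_ h
    refine Sys.Acc.node (M := A.sys) .start _ (fun _ => .l a) (by simp [sys, isFin, isL, initT, finT, trans, transL, opensArg, opensFin]) ?_
    rintro ⟨⟩
    refine ha.mono ?_
    intro w hw
    refine Or.inr ⟨w, hw, ?_⟩
    have h1 : ∀ w : A.I × Option A.Q, A.sys.T Letter.start w () (Letter.l a) w = true := by
      intro w
      simp [sys, isFin, isL, initT, finT, trans, transL, opensArg, opensFin]
    exact h1 w
  · intro h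
    exact Sys.stronglySequential (not_good h)

theorem card_letter : Fintype.card A.Letter = Fintype.card A.L + 2 := by
  rw [Fintype.card_congr A.letterEquiv, Fintype.card_option, Fintype.card_option]

theorem card_le_size (a : A.L) : 1 + Fintype.card (A.Arg a) ≤ A.size := by
  unfold size
  have := Finset.single_le_sum (f := fun a : A.L => 1 + Fintype.card (A.Arg a))
    (fun _ _ => Nat.zero_le _) (Finset.mem_univ a)
  omega

theorem card_L_le : Fintype.card A.L ≤ A.size := by
  unfold size
  have : ∑ _a : A.L, 1 ≤ ∑ a : A.L, (1 + Fintype.card (A.Arg a)) :=
    Finset.sum_le_sum fun a _ => Nat.le_add_right _ _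
  simp only [Finset.sum_const, Finset.card_univ, smul_eq_mul, mul_one] at this
  omega

theorem two_le_size [Nontrivial A.I] : 2 ≤ A.size := by
  unfold size
  have := Fintype.one_lt_card (α := A.I)
  omega

theorem poly_bound (N : ℕ) (hN : 2 ≤ N) :
    (3 * (N + 2) + (N + 2) * (N * (N + 1)) * (N + 1) * (N + 2)) *
      (7 + 2 * (N * (N + 1)) + 2 * (N + 1)) ≤ 100 * N ^ 7 := by
  obtain ⟨m, rfl⟩ := Nat.exists_eq_add_of_le hN
  have h : 100 * (2 + m) ^ 7 = (3 * (2 + m + 2) + (2 + m + 2) * ((2 + m) * (2 + m + 1)) *
      (2 + m + 1) * (2 + m + 2)) * (7 + 2 * ((2 + m) * (2 + m + 1)) + 2 * (2 + m + 1)) +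
      (5300 + m * 29125 + m ^ 2 * 52954 + m ^ 3 * 48741 + m ^ 4 * 25760 + m ^ 5 * 7981 +
        m ^ 6 * 1356 + m ^ 7 * 98) := by ring
  omega

theorem size_trs_le (A : Automata) [Nontrivial A.I] : A.sys.trs.size ≤ 100 * A.size ^ 7 := by
  have h2 : 2 ≤ A.size := two_le_size
  have hL := card_L_le (A := A)
  have hI : Fintype.card A.I ≤ A.size := by unfold size; omega
  have hQ : Fintype.card A.Q ≤ A.size := by unfold size; omega
  have hD : ∀ b : A.Letter, Fintype.card (A.ChT b) ≤ A.size + 1 := by
    intro b
    cases b with
    | start => exact (Fintype.card_unit).le.trans (by omega)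
    | fin => exact (Fintype.card_unit).le.trans (by omega)
    | l a =>
      have h3 := card_le_size (A := A) a
      have h4 : Fintype.card (A.ChT (.l a)) = Fintype.card (A.Arg a) + 1 :=
        Fintype.card_option
      omega
  have h5 := Sys.size_trs_le (M := A.sys) (A.size + 1) hD
  have hB : Fintype.card A.sys.B ≤ A.size + 2 := by
    have : Fintype.card A.sys.B = Fintype.card A.Letter := rfl
    rw [this, card_letter]; omega
  have hX : Fintype.card A.sys.X ≤ A.size * (A.size + 1) := by
    have : Fintype.card A.sys.X = Fintype.card (A.I × Option A.Q) := rfl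
    rw [this, Fintype.card_prod, Fintype.card_option]
    exact Nat.mul_le_mul hI (Nat.succ_le_succ hQ)
  refine h5.trans (le_trans ?_ (poly_bound A.size h2))
  refine Nat.mul_le_mul ?_ ?_
  · refine Nat.add_le_add (Nat.mul_le_mul_left _ hB) ?_
    exact Nat.mul_le_mul (Nat.mul_le_mul (Nat.mul_le_mul hB hX) le_rfl) hB
  · have := Nat.mul_le_mul_left 2 hX
    omega

end Automata

end Pool.Agent.Lib.MP_ce3b04_lc
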