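import Pool.Agent.Lib.MP_ce3b04_lc.Sweep

/-!
# Sweeps as words
-/

open Relation

namespace Pool.Agent.Lib.MP_ce3b04_lc

/-- The run of a partial automaton on a word. -/
def runO {E F : Type} (ψ : E → F → Option E) : E → List F → Option E
  | e, [] => some e
  | e, x :: xs => (ψ e x).bind fun e' => runO ψ e' xs

namespace ASM

variable (A : ASM)

/-- The prover wins from the control state `e` and the tape `t`, sweeps as words. -/
inductive Win : A.E → List A.D → Prop
  | mk (e : A.E) (xs : List A.F) (e' : A.E) (g : A.C → Option A.E) :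
      runO A.ψ e xs = some e' → (∀ k, A.χ e' k = some (g k)) →
      (∀ k e'', g k = some e'' → Win e'' (xs.map A.new)) → Win e (xs.map A.old)

variable {A}

theorem Win.dest {e : A.E} {t : List A.D} (h : A.Win e t) : ∃ (xs : List A.F) (e' : A.E)
    (g : A.C → Option A.E), t = xs.map A.old ∧ runO A.ψ e xs = some e' ∧
      (∀ k, A.χ e' k = some (g k)) ∧ ∀ k e'', g k = some e'' → A.Win e'' (xs.map A.new) := by
  cases h with
  | mk e xs e' g h1 h2 h3 => exact ⟨xs, e', g, rfl, h1, h2, h3⟩

theorem win_of_winS {j : ℕ} {e : A.E} {t : List A.D} (h : A.WinS j e t) :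
    ∀ pre post : List A.D, t = pre ++ post → pre.length = j → ∃ (xs : List A.F) (e' : A.E)
      (g : A.C → Option A.E), xs.map A.old = post ∧ runO A.ψ e xs = some e' ∧
      (∀ k, A.χ e' k = some (g k)) ∧ ∀ k e'', g k = some e'' → A.Win e'' (pre ++ xs.map A.new) := by
  induction h with
  | step j e t x e' h1 h2 h3 _ ih =>
    rintro pre post rfl rfl
    cases post with
    | nil => simp at h1
    | cons d post =>
      rw [List.getElem?_append_right le_rfl, Nat.sub_self] at h2
      have h2 : d = A.old x := by simpa using h2
      subst h2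
      obtain ⟨xs, e₂, g, h4, h5, h6, h7⟩ := ih (pre ++ [A.new x]) post (by
        rw [List.set_append_right _ _ le_rfl, Nat.sub_self]
        simp) (by simp)
      refine ⟨x :: xs, e₂, g, by simp [h4], by simp [runO, h3, h5], h6, ?_⟩
      intro k e'' hk
      have := h7 k e'' hk
      simpa using this
  | last j e t x e' g h1 h2 h3 h4 _ ih =>
    rintro pre post rfl rfl
    have hpost : post.length = 1 := by simp at h1; omega
    obtain ⟨d, rfl⟩ := List.length_eq_one_iff.1 hpost
    rw [List.getElem?_append_right le_rfl, Nat.sub_self] at h2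
    have h2 : d = A.old x := by simpa using h2
    subst h2
    refine ⟨[x], e', g, rfl, by simp [runO, h3], h4, ?_⟩
    intro k e'' hk
    obtain ⟨xs, e₂, g₂, h5, h6, h7, h8⟩ := ih k e'' hk [] _ rfl rfl
    have h9 : (pre ++ [A.old x]).set pre.length (A.new x) = pre ++ [A.new x] := by
      rw [List.set_append_right _ _ le_rfl, Nat.sub_self]
      simp
    have h10 : pre ++ List.map A.new [x] = xs.map A.old := by rw [h5, h9]; rfl
    rw [h10]
    exact .mk e'' xs e₂ g₂ h6 h7 (by simpa using h8)

theorem winS_run {e e' : A.E} {xs : List A.F} (hne : xs ≠ []) (h : runO A.ψ e xs = some e')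
    {g : A.C → Option A.E} (hg : ∀ k, A.χ e' k = some (g k)) (pre : List A.D)
    (hw : ∀ k e'', g k = some e'' → A.WinS 0 e'' (pre ++ xs.map A.new)) :
    A.WinS pre.length e (pre ++ xs.map A.old) := by
  induction xs generalizing e pre with
  | nil => exact absurd rfl hne
  | cons x xs ih =>
    obtain ⟨e₁, h1, h2⟩ := Option.bind_eq_some_iff.1 h
    have hold : (pre ++ (x :: xs).map A.old)[pre.length]? = some (A.old x) := by
      rw [List.getElem?_append_right le_rfl, Nat.sub_self]; simp
    have hset : (pre ++ (x :: xs).map A.old).set pre.length (A.new x) =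
        (pre ++ [A.new x]) ++ xs.map A.old := by
      rw [List.set_append_right _ _ le_rfl, Nat.sub_self]; simp
    cases xs with
    | nil =>
      simp only [runO, Option.some.injEq] at h2
      subst h2
      refine .last _ _ _ x e₁ g (by simp) hold h1 hg ?_
      intro k e'' hk
      rw [hset]
      simpa using hw k e'' hk
    | cons y ys =>
      refine .step _ _ _ x e₁ (by simp) hold h1 ?_
      rw [hset]
      have h3 := ih (List.cons_ne_nil _ _) h2 (pre ++ [A.new x]) (by
        intro k e'' hk
        have := hw k e'' hk
        simpa using this)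
      simpa using h3

theorem winS_iff_win {e : A.E} {t : List A.D} (ht : t ≠ []) : A.WinS 0 e t ↔ A.Win e t := by
  constructor
  · intro h
    obtain ⟨xs, e', g, h1, h2, h3, h4⟩ := win_of_winS h [] t rfl rfl
    rw [← h1]
    exact .mk e xs e' g h2 h3 (by simpa using h4)
  · intro h
    induction h with
    | mk e xs e' g h1 h2 _ ih =>
      have hne : xs ≠ [] := by rintro rfl; exact ht rfl
      have := winS_run hne h1 h2 [] (by
        intro k e'' hk
        exact ih k e'' hk (by simpa using hne))
      simpa using this

end ASM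

end Pool.Agent.Lib.MP_ce3b04_lc
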